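import Mathlib

/-!
# Number of points of `y ^ 2 = F(x, z) + t G(x, z)`, projective version
-/

set_option autoImplicit false

namespace Pool.Agent.Helper30.BBLfunProj

/-- Number of `(x, z, y, t)` with coordinates in the field with `|k| ^ n` elements,
`(x, z) ≠ (0, 0)` and `y ^ 2 = F(x, z) + t G(x, z)`. -/
noncomputable def countForms {k : Type} [Field k] (F G : MvPolynomial (Fin 2) k) (n : ℕ) : ℕ :=
  Nat.card {p : Fin 4 → AlgebraicClosure k // (∀ i, p i ^ (Nat.card k ^ n) = p i) ∧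
    (p 0 ≠ 0 ∨ p 1 ≠ 0) ∧
    p 2 ^ 2 = MvPolynomial.aeval ![p 0, p 1] F + p 3 * MvPolynomial.aeval ![p 0, p 1] G}

end Pool.Agent.Helper30.BBLfunProj
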