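import Mathlib
import Pool.Agent.Helper40.BBLfun
import Pool.Agent.Helper30.BBCountDefs

/-!
# The L-function of a pencil of hyperelliptic curves, projective version
-/

set_option autoImplicit false

namespace Pool.Agent.Helper30.BBLfunProj

open Polynomial Pool.Agent.Helper40.BB

section Homog

variable {k K : Type} [Field k] [Field K] [Algebra k K]

lemma deg_eq {F : MvPolynomial (Fin 2) k} {d : ℕ} (hF : F.IsHomogeneous d) {s : Fin 2 →₀ ℕ}
    (hs : s ∈ F.support) : s 0 + s 1 = d := by
  have h := hF.degree_eq_sum_deg_support hs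
  rw [h, ← Fin.sum_univ_two (f := fun i => s i)]
  symm
  exact Finset.sum_subset (Finset.subset_univ _) (fun i _ hi => Finsupp.notMem_support_iff.mp hi)

lemma aeval_homog {F : MvPolynomial (Fin 2) k} {d : ℕ} (hF : F.IsHomogeneous d) (c a b : K) :
    MvPolynomial.aeval ![c * a, c * b] F = c ^ d * MvPolynomial.aeval ![a, b] F := by
  rw [MvPolynomial.aeval_def, MvPolynomial.aeval_def, MvPolynomial.eval₂_eq',
    MvPolynomial.eval₂_eq', Finset.mul_sum]
  apply Finset.sum_congr rfl
  intro s hs
  have h1 : s 0 + s 1 = d := deg_eq hF hs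
  rw [Fin.prod_univ_two, Fin.prod_univ_two]
  simp only [Matrix.cons_val_zero, Matrix.cons_val_one]
  rw [mul_pow, mul_pow, ← h1, pow_add]
  ring

lemma aeval_dehom (F : MvPolynomial (Fin 2) k) (x : K) :
    Polynomial.aeval x (MvPolynomial.aeval ![(X : k[X]), 1] F) = MvPolynomial.aeval ![x, 1] F := by
  have h := MvPolynomial.comp_aeval_apply (R := k) (f := ![(X : k[X]), 1]) (Polynomial.aeval x) F
  rw [h]
  congr 2
  funext i
  fin_cases i <;> simp

lemma dehom_ne_zero {G : MvPolynomial (Fin 2) k} {d : ℕ} (hG : G.IsHomogeneous d) (h0 : G ≠ 0) :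
    MvPolynomial.aeval ![(X : k[X]), 1] G ≠ 0 := by
  intro h
  apply h0
  ext s
  rw [MvPolynomial.coeff_zero]
  by_contra hs
  have hs' : s ∈ G.support := MvPolynomial.mem_support_iff.mpr hs
  have h2 := congrArg (fun p => Polynomial.coeff p (s 0)) h
  simp only [Polynomial.coeff_zero] at h2
  rw [MvPolynomial.aeval_def, MvPolynomial.eval₂_eq', Polynomial.finsetSum_coeff,
    Finset.sum_eq_single s] at h2
  · rw [Fin.prod_univ_two] at h2
    simp only [Matrix.cons_val_zero, Matrix.cons_val_one, one_pow, mul_one,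
      Polynomial.algebraMap_eq, Polynomial.coeff_C_mul, Polynomial.coeff_X_pow, if_true] at h2
    exact hs h2
  · intro t ht hts
    rw [Fin.prod_univ_two]
    simp only [Matrix.cons_val_zero, Matrix.cons_val_one, one_pow, mul_one,
      Polynomial.algebraMap_eq, Polynomial.coeff_C_mul, Polynomial.coeff_X_pow]
    rw [if_neg, mul_zero]
    intro h3
    apply hts
    have e1 := deg_eq hG hs'
    have e2 := deg_eq hG ht
    ext i
    fin_cases i
    · exact h3.symm
    · show t 1 = s 1
      omega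
  · intro h3; exact absurd hs' h3

end Homog

variable {k : Type} [Field k] [Finite k]

/-- The number of `(y, t)` with `y ^ 2 = f + t g`. -/
noncomputable def cnt2 (f g : k) (n : ℕ) : ℕ :=
  Nat.card {p : Fin 2 → AlgebraicClosure k // (∀ i, InE n (p i)) ∧
    p 0 ^ 2 = algebraMap k _ f + p 1 * algebraMap k _ g}

lemma InE.one (n : ℕ) : InE n (1 : AlgebraicClosure k) := by unfold InE; simp

lemma InE.zero (n : ℕ) : InE n (0 : AlgebraicClosure k) := by
  unfold InE
  rw [zero_pow]
  have := one_lt_q (k := k)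
  positivity

lemma InE.pow {n : ℕ} {x : AlgebraicClosure k} (hx : InE n x) (m : ℕ) : InE n (x ^ m) := by
  unfold InE at *
  rw [← pow_mul, mul_comm m, pow_mul, hx]

lemma InE.map {n : ℕ} (a : k) : InE n (algebraMap k (AlgebraicClosure k) a) := by
  have h := InE.aeval (InE.zero (k := k) n) (C a)
  rwa [Polynomial.aeval_C] at h

lemma card_units {n : ℕ} (hn : n ≠ 0) :
    Nat.card {z : AlgebraicClosure k // InE n z ∧ z ≠ 0} = Nat.card k ^ n - 1 := by
  classical
  have h1 : ∀ z, z ∈ (EF k n).erase 0 ↔ InE n z ∧ z ≠ 0 := by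
    intro z
    rw [Finset.mem_erase, mem_EF hn]
    tauto
  have e : {z : AlgebraicClosure k // InE n z ∧ z ≠ 0} ≃ {z // z ∈ (EF k n).erase 0} :=
    Equiv.subtypeEquivRight fun z => (h1 z).symm
  rw [Nat.card_congr e, Nat.card_eq_fintype_card, Fintype.card_coe, Finset.card_erase_of_mem,
    card_EF hn]
  rw [mem_EF hn]
  exact InE.zero n

open Classical in
lemma cnt2_eq (hk : ringChar k ≠ 2) (f g : k) {n : ℕ} (hn : n ≠ 0) :
    (cnt2 f g n : ℤ) = (Nat.card k : ℤ) ^ n +
      (if g = 0 then eps (C f) X ^ n * (Nat.card k : ℤ) ^ n else 0) := by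
  set T : Finset (AlgebraicClosure k × AlgebraicClosure k) :=
    (EF k n ×ˢ EF k n).filter (fun p => p.1 ^ 2 =
      algebraMap k _ f + p.2 * algebraMap k _ g) with hT
  have h1 : cnt2 f g n = T.card := by
    have hmem : ∀ x : AlgebraicClosure k × AlgebraicClosure k, x ∈ T ↔
        (InE n x.1 ∧ InE n x.2) ∧ x.1 ^ 2 =
          algebraMap k _ f + x.2 * algebraMap k _ g := by
      intro x
      rw [hT, Finset.mem_filter, Finset.mem_product, mem_EF hn, mem_EF hn]
    have e : {p : Fin 2 → AlgebraicClosure k // (∀ i, InE n (p i)) ∧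
        p 0 ^ 2 = algebraMap k _ f + p 1 * algebraMap k _ g} ≃ {x // x ∈ T} :=
      { toFun := fun p => ⟨(p.1 0, p.1 1), (hmem _).mpr ⟨⟨p.2.1 0, p.2.1 1⟩, p.2.2⟩⟩
        invFun := fun x => ⟨![x.1.1, x.1.2], by
          have h := (hmem x.1).mp x.2
          refine ⟨?_, h.2⟩
          intro i
          fin_cases i
          · exact h.1.1
          · exact h.1.2⟩
        left_inv := by
          intro p
          apply Subtype.ext
          funext i
          fin_cases i <;> rfl
        right_inv := by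
          intro x
          rfl }
    unfold cnt2
    rw [Nat.card_congr e, Nat.card_eq_fintype_card, Fintype.card_coe]
  rw [h1, hT, Finset.card_filter]
  push_cast
  rw [Finset.sum_product]
  by_cases hg : g = 0
  · subst hg
    rw [if_pos rfl]
    simp only [map_zero, mul_zero, add_zero]
    have h2 : ∑ y ∈ EF k n, ∑ _t ∈ EF k n,
        (if y ^ 2 = algebraMap k (AlgebraicClosure k) f then (1 : ℤ) else 0) =
        (Nat.card k : ℤ) ^ n * (((EF k n).filter (fun y => y ^ 2 =
          algebraMap k (AlgebraicClosure k) f)).card : ℤ) := by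
      rw [Finset.card_filter]
      push_cast
      rw [Finset.mul_sum]
      apply Finset.sum_congr rfl
      intro y _
      rw [Finset.sum_const, card_EF hn, nsmul_eq_mul]
      push_cast
      rfl
    have h6 : (((EF k n).filter (fun y => y ^ 2 =
          algebraMap k (AlgebraicClosure k) f)).card : ℤ) =
        1 + (if algebraMap k (AlgebraicClosure k) f = 0 then 0 else
          if (algebraMap k (AlgebraicClosure k) f) ^ ((Nat.card k ^ n - 1) / 2) = 1 then 1
            else -1) := by
      convert card_sqrt hk hn (algebraMap k (AlgebraicClosure k) f)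
    rw [h2, h6]
    have hmin : minpoly k (0 : AlgebraicClosure k) = X := minpoly.zero k _
    have h3 := chi_eq hk (C f) (x := (0 : AlgebraicClosure k)) hn (by rw [hmin, natDegree_X]; exact one_dvd _)
    rw [hmin, natDegree_X, Nat.div_one, Polynomial.aeval_C] at h3
    rw [h3]
    ring
  · rw [if_neg hg, add_zero]
    have hg' : algebraMap k (AlgebraicClosure k) g ≠ 0 := by
      rwa [Ne, map_eq_zero]
    have h2 : ∀ y ∈ EF k n, (∑ t ∈ EF k n,
        (if y ^ 2 = algebraMap k (AlgebraicClosure k) f + t * algebraMap k (AlgebraicClosure k) g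
          then (1 : ℤ) else 0)) = 1 := by
      intro y hy
      have hyE := (mem_EF hn).mp hy
      have h3 : ∀ t, y ^ 2 = algebraMap k (AlgebraicClosure k) f +
          t * algebraMap k (AlgebraicClosure k) g ↔
          (y ^ 2 - algebraMap k (AlgebraicClosure k) f) *
            (algebraMap k (AlgebraicClosure k) g)⁻¹ = t := by
        intro t
        constructor
        · intro h; rw [h]; field_simp; ring
        · intro h; rw [← h]; field_simp; ring
      simp_rw [h3]
      rw [Finset.sum_ite_eq, if_pos]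
      rw [mem_EF hn]
      exact ((InE.pow hyE 2).sub (InE.map f)).mul (InE.inv (InE.map g))
    rw [Finset.sum_congr rfl h2, Finset.sum_const, card_EF hn]
    simp

/-- The projective count in terms of the affine one. -/
lemma countForms_eq {m : ℕ} {F G : MvPolynomial (Fin 2) k} (hF : F.IsHomogeneous (2 * m))
    (hG : G.IsHomogeneous (2 * m)) {n : ℕ} (hn : n ≠ 0) :
    countForms F G n = (Nat.card k ^ n - 1) *
      (countPts (MvPolynomial.aeval ![(X : k[X]), 1] F) (MvPolynomial.aeval ![(X : k[X]), 1] G) n +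
        cnt2 (MvPolynomial.eval ![1, 0] F) (MvPolynomial.eval ![1, 0] G) n) := by
  classical
  set E := fun x : AlgebraicClosure k => InE n x with hE
  have key : ∀ (H : MvPolynomial (Fin 2) k) (hH : H.IsHomogeneous (2 * m)) (x z : AlgebraicClosure k), z ≠ 0 →
      MvPolynomial.aeval ![x, z] H = (z ^ m) ^ 2 * Polynomial.aeval (x / z)
        (MvPolynomial.aeval ![(X : k[X]), 1] H) := by
    intro H hH x z hz
    rw [aeval_dehom, ← pow_mul, mul_comm m 2, ← aeval_homog hH]
    congr 2
    rw [mul_one, mul_div_cancel₀ _ hz]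
  have key2 : ∀ (H : MvPolynomial (Fin 2) k) (hH : H.IsHomogeneous (2 * m)) (x : AlgebraicClosure k),
      MvPolynomial.aeval ![x, 0] H = (x ^ m) ^ 2 * algebraMap k _
        (MvPolynomial.eval ![1, 0] H) := by
    intro H hH x
    have h1 : algebraMap k (AlgebraicClosure k) (MvPolynomial.eval ![1, 0] H) =
        MvPolynomial.aeval ![(1 : AlgebraicClosure k), 0] H := by
      have h := MvPolynomial.comp_aeval_apply (R := k) (f := ![(1 : k), 0])
        (Algebra.ofId k (AlgebraicClosure k)) H
      have h2 : (fun i => (Algebra.ofId k (AlgebraicClosure k)) (![(1 : k), 0] i)) =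
          ![(1 : AlgebraicClosure k), 0] := by
        funext i
        fin_cases i <;> simp
      rw [h2] at h
      rw [← h]
      rfl
    rw [h1, ← pow_mul, mul_comm m 2, ← aeval_homog hH]
    congr 2
    rw [mul_one, mul_zero]
  -- the two parts
  have e1 : {p : Fin 4 → AlgebraicClosure k // ((∀ i, p i ^ (Nat.card k ^ n) = p i) ∧
      (p 0 ≠ 0 ∨ p 1 ≠ 0) ∧
      p 2 ^ 2 = MvPolynomial.aeval ![p 0, p 1] F + p 3 * MvPolynomial.aeval ![p 0, p 1] G) ∧
      p 1 ≠ 0} ≃ {z : AlgebraicClosure k // InE n z ∧ z ≠ 0} ×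
      {p : Fin 3 → AlgebraicClosure k // (∀ i, p i ^ (Nat.card k ^ n) = p i) ∧
        p 1 ^ 2 = Polynomial.aeval (p 0) (MvPolynomial.aeval ![(X : k[X]), 1] F) +
          p 2 * Polynomial.aeval (p 0) (MvPolynomial.aeval ![(X : k[X]), 1] G)} :=
    { toFun := fun p => (⟨p.1 1, p.2.1.1 1, p.2.2⟩, ⟨![p.1 0 / p.1 1, p.1 2 / p.1 1 ^ m, p.1 3], by
        obtain ⟨p, ⟨h1, h2, h3⟩, h4⟩ := p
        have hz : (p 1) ^ m ≠ 0 := pow_ne_zero _ h4
        refine ⟨?_, ?_⟩
        · intro i
          fin_cases i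
          · show InE n (p 0 / p 1)
            rw [div_eq_mul_inv]
            exact InE.mul (h1 0) (InE.inv (h1 1))
          · show InE n (p 2 / p 1 ^ m)
            rw [div_eq_mul_inv]
            exact InE.mul (h1 2) (InE.inv (InE.pow (h1 1) m))
          · exact h1 3
        · show (p 2 / p 1 ^ m) ^ 2 = Polynomial.aeval (p 0 / p 1) _ + p 3 * Polynomial.aeval (p 0 / p 1) _
          rw [key F hF _ _ h4, key G hG _ _ h4] at h3
          rw [div_pow, h3]
          field_simp⟩)
      invFun := fun q => ⟨![q.2.1 0 * q.1.1, q.1.1, q.2.1 1 * q.1.1 ^ m, q.2.1 2], by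
        obtain ⟨⟨z, hz1, hz2⟩, ⟨p, h1, h2⟩⟩ := q
        simp only
        refine ⟨⟨?_, ?_, ?_⟩, ?_⟩
        · intro i
          fin_cases i
          · exact InE.mul (h1 0) hz1
          · exact hz1
          · exact InE.mul (h1 1) (InE.pow hz1 m)
          · exact h1 2
        · exact Or.inr hz2
        · show (p 1 * z ^ m) ^ 2 = MvPolynomial.aeval ![p 0 * z, z] F + p 2 * MvPolynomial.aeval ![p 0 * z, z] G
          rw [key F hF _ _ hz2, key G hG _ _ hz2, mul_pow, h2, mul_div_cancel_right₀ _ hz2]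
          ring
        · exact hz2⟩
      left_inv := by
        rintro ⟨p, ⟨h1, h2, h3⟩, h4⟩
        apply Subtype.ext
        funext i
        have hz : (p 1) ^ m ≠ 0 := pow_ne_zero _ h4
        fin_cases i
        · exact div_mul_cancel₀ _ h4
        · rfl
        · exact div_mul_cancel₀ _ hz
        · rfl
      right_inv := by
        rintro ⟨⟨z, hz1, hz2⟩, ⟨p, h1, h2⟩⟩
        have hz : z ^ m ≠ 0 := pow_ne_zero _ hz2
        apply Prod.ext
        · rfl
        · apply Subtype.ext
          funext i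
          fin_cases i
          · exact mul_div_cancel_right₀ _ hz2
          · exact mul_div_cancel_right₀ _ hz
          · rfl }
  have e2 : {p : Fin 4 → AlgebraicClosure k // ((∀ i, p i ^ (Nat.card k ^ n) = p i) ∧
      (p 0 ≠ 0 ∨ p 1 ≠ 0) ∧
      p 2 ^ 2 = MvPolynomial.aeval ![p 0, p 1] F + p 3 * MvPolynomial.aeval ![p 0, p 1] G) ∧
      ¬ p 1 ≠ 0} ≃ {z : AlgebraicClosure k // InE n z ∧ z ≠ 0} ×
      {p : Fin 2 → AlgebraicClosure k // (∀ i, InE n (p i)) ∧
        p 0 ^ 2 = algebraMap k _ (MvPolynomial.eval ![1, 0] F) +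
          p 1 * algebraMap k _ (MvPolynomial.eval ![1, 0] G)} :=
    { toFun := fun p => (⟨p.1 0, p.2.1.1 0, by
        rcases p.2.1.2.1 with h | h
        · exact h
        · exact absurd h p.2.2⟩, ⟨![p.1 2 / p.1 0 ^ m, p.1 3], by
        obtain ⟨p, ⟨h1, h2, h3⟩, h4⟩ := p
        have h4' : p 1 = 0 := not_not.mp h4
        have h5 : p 0 ≠ 0 := by
          rcases h2 with h | h
          · exact h
          · exact absurd h h4
        have hz : (p 0) ^ m ≠ 0 := pow_ne_zero _ h5
        refine ⟨?_, ?_⟩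
        · intro i
          fin_cases i
          · show InE n (p 2 / p 0 ^ m)
            rw [div_eq_mul_inv]
            exact InE.mul (h1 2) (InE.inv (InE.pow (h1 0) m))
          · exact h1 3
        · show (p 2 / p 0 ^ m) ^ 2 = _ + p 3 * _
          rw [h4', key2 F hF, key2 G hG] at h3
          rw [div_pow, h3]
          field_simp⟩)
      invFun := fun q => ⟨![q.1.1, 0, q.2.1 0 * q.1.1 ^ m, q.2.1 1], by
        obtain ⟨⟨z, hz1, hz2⟩, ⟨p, h1, h2⟩⟩ := q
        simp only
        refine ⟨⟨?_, ?_, ?_⟩, ?_⟩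
        · intro i
          fin_cases i
          · exact hz1
          · exact InE.zero n
          · exact InE.mul (h1 0) (InE.pow hz1 m)
          · exact h1 1
        · exact Or.inl hz2
        · show (p 0 * z ^ m) ^ 2 = MvPolynomial.aeval ![z, 0] F + p 1 * MvPolynomial.aeval ![z, 0] G
          rw [key2 F hF, key2 G hG, mul_pow, h2]
          ring
        · exact not_not.mpr rfl⟩
      left_inv := by
        rintro ⟨p, ⟨h1, h2, h3⟩, h4⟩
        apply Subtype.ext
        funext i
        have h4' : p 1 = 0 := not_not.mp h4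
        have h5 : p 0 ≠ 0 := by
          rcases h2 with h | h
          · exact h
          · exact absurd h h4
        have hz : (p 0) ^ m ≠ 0 := pow_ne_zero _ h5
        fin_cases i
        · rfl
        · exact h4'.symm
        · exact div_mul_cancel₀ _ hz
        · rfl
      right_inv := by
        rintro ⟨⟨z, hz1, hz2⟩, ⟨p, h1, h2⟩⟩
        have hz : z ^ m ≠ 0 := pow_ne_zero _ hz2
        apply Prod.ext
        · rfl
        · apply Subtype.ext
          funext i
          fin_cases i
          · exact mul_div_cancel_right₀ _ hz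
          · rfl }
  -- finiteness
  have hfinE : {x : AlgebraicClosure k | InE n x}.Finite := by
    apply (EF k n).finite_toSet.subset
    intro x hx
    exact (mem_EF hn).mpr hx
  have hfin : Finite {p : Fin 4 → AlgebraicClosure k // (∀ i, p i ^ (Nat.card k ^ n) = p i) ∧
      (p 0 ≠ 0 ∨ p 1 ≠ 0) ∧
      p 2 ^ 2 = MvPolynomial.aeval ![p 0, p 1] F + p 3 * MvPolynomial.aeval ![p 0, p 1] G} := by
    have h1 : (Set.univ.pi fun _ : Fin 4 => {x : AlgebraicClosure k | InE n x}).Finite :=
      Set.Finite.pi fun _ => hfinE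
    have h2 : {p : Fin 4 → AlgebraicClosure k | (∀ i, p i ^ (Nat.card k ^ n) = p i) ∧
      (p 0 ≠ 0 ∨ p 1 ≠ 0) ∧
      p 2 ^ 2 = MvPolynomial.aeval ![p 0, p 1] F + p 3 * MvPolynomial.aeval ![p 0, p 1] G} ⊆
        (Set.univ.pi fun _ : Fin 4 => {x : AlgebraicClosure k | InE n x}) := by
      intro p hp i _
      exact hp.1 i
    exact (h1.subset h2).to_subtype
  unfold countForms
  have e3 := (Equiv.sumCompl (fun p : {p : Fin 4 → AlgebraicClosure k //
      (∀ i, p i ^ (Nat.card k ^ n) = p i) ∧ (p 0 ≠ 0 ∨ p 1 ≠ 0) ∧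
      p 2 ^ 2 = MvPolynomial.aeval ![p 0, p 1] F + p 3 * MvPolynomial.aeval ![p 0, p 1] G} =>
      p.1 1 ≠ 0)).symm
  rw [Nat.card_congr e3, Nat.card_sum]
  have e4 := Equiv.subtypeSubtypeEquivSubtypeInter (fun p : Fin 4 → AlgebraicClosure k =>
      (∀ i, p i ^ (Nat.card k ^ n) = p i) ∧ (p 0 ≠ 0 ∨ p 1 ≠ 0) ∧
      p 2 ^ 2 = MvPolynomial.aeval ![p 0, p 1] F + p 3 * MvPolynomial.aeval ![p 0, p 1] G)
      (fun p => p 1 ≠ 0)
  have e5 := Equiv.subtypeSubtypeEquivSubtypeInter (fun p : Fin 4 → AlgebraicClosure k =>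
      (∀ i, p i ^ (Nat.card k ^ n) = p i) ∧ (p 0 ≠ 0 ∨ p 1 ≠ 0) ∧
      p 2 ^ 2 = MvPolynomial.aeval ![p 0, p 1] F + p 3 * MvPolynomial.aeval ![p 0, p 1] G)
      (fun p => ¬ p 1 ≠ 0)
  rw [Nat.card_congr (e4.trans e1), Nat.card_congr (e5.trans e2), Nat.card_prod, Nat.card_prod,
    card_units hn, mul_add]
  rfl

lemma eps_C_X (f : k) : eps (C f) (X : k[X]) = 1 ↔ f ≠ 0 ∧ IsSquare f := by
  classical
  have h1 : ∀ a : k, (X : k[X]) ∣ C a ↔ a = 0 := by
    intro a
    rw [X_dvd_iff, coeff_C_zero]
  unfold eps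
  rw [h1]
  constructor
  · intro h
    split_ifs at h with h2 h3
    · exact absurd h (by norm_num)
    · obtain ⟨A, hA⟩ := h3
      rw [X_dvd_iff, coeff_sub, coeff_C_zero, sq, mul_coeff_zero, sub_eq_zero] at hA
      exact ⟨h2, A.coeff 0, hA⟩
  · rintro ⟨h2, r, hr⟩
    rw [if_neg h2, if_pos]
    refine ⟨C r, ?_⟩
    rw [hr, C_mul, sq, sub_self]
    exact dvd_zero _

open Classical in
/-- The `L`-function of the pencil `y ^ 2 = F(x, z) + t G(x, z)`, projective version. -/
theorem Lfun_proj {k : Type} [Field k] [Finite k] (hk : ringChar k ≠ 2) (m : ℕ)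
    (F G : MvPolynomial (Fin 2) k) (hF : F.IsHomogeneous (2 * m)) (hG : G.IsHomogeneous (2 * m))
    (hG0 : G ≠ 0) (L : PowerSeries ℚ) (h0 : PowerSeries.constantCoeff L = 1)
    (h1 : PowerSeries.X * PowerSeries.derivative ℚ L =
      PowerSeries.mk (fun n => if n = 0 then 0 else
        (((Nat.card k : ℚ) ^ n + 1) * (Nat.card k : ℚ) ^ n -
          (countForms F G n : ℚ) / ((Nat.card k : ℚ) ^ n - 1))) * L) :
    ∃ P : Polynomial ℚ, (P : PowerSeries ℚ) = L ∧ P ≠ 0 ∧
      P.rootMultiplicity ((Nat.card k : ℚ)⁻¹) =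
        Set.ncard {π : Polynomial k | π.Monic ∧ Irreducible π ∧
          π ∣ MvPolynomial.aeval ![Polynomial.X, 1] G ∧
          ¬ π ∣ MvPolynomial.aeval ![Polynomial.X, 1] F ∧
          ∃ C, π ∣ MvPolynomial.aeval ![Polynomial.X, 1] F - C ^ 2} +
        (if MvPolynomial.eval ![1, 0] G = 0 ∧ MvPolynomial.eval ![1, 0] F ≠ 0 ∧
          IsSquare (MvPolynomial.eval ![1, 0] F) then 1 else 0) := by
  set q : ℚ := (Nat.card k : ℚ) with hq
  have hq1 : (1 : ℚ) < q := by
    rw [hq]; exact_mod_cast one_lt_q (k := k)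
  have hq0 : q ≠ 0 := by positivity
  set A := MvPolynomial.aeval ![(X : k[X]), 1] F with hA
  set B := MvPolynomial.aeval ![(X : k[X]), 1] G with hBdef
  set f := MvPolynomial.eval ![(1 : k), 0] F with hf
  set g := MvPolynomial.eval ![(1 : k), 0] G with hg
  have hB : B ≠ 0 := dehom_ne_zero hG hG0
  have hm0 : ∀ π ∈ PiB B, π.natDegree ≠ 0 := by
    intro π hπ
    exact (natDegree_pos_iff_degree_pos.mpr
      (degree_pos_of_irreducible ((mem_PiB hB).mp hπ).2.1)).ne'
  -- the affine part
  have hcoe : ((∏ π ∈ PiB B, fac q π.natDegree (eps A π) : ℚ[X]) : PowerSeries ℚ) =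
      ∏ π ∈ PiB B, (fac q π.natDegree (eps A π) : PowerSeries ℚ) :=
    map_prod (Polynomial.coeToPowerSeries.ringHom) _ _
  have hode := prod_ode (PiB B) (fun π => (fac q π.natDegree (eps A π) : PowerSeries ℚ))
    (fun π => SS q π.natDegree (eps A π)) (fun π hπ => fac_ode q _ (hm0 π hπ) _)
  have hS : PowerSeries.mk (fun n => if n = 0 then 0 else
        (q ^ (2 * n) - (countPts A B n : ℚ))) = ∑ π ∈ PiB B, SS q π.natDegree (eps A π) := by
    ext n
    rw [PowerSeries.coeff_mk, map_sum]
    unfold SS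
    simp only [PowerSeries.coeff_mk]
    by_cases hn : n = 0
    · simp [hn]
    · simp only [if_neg hn]
      have h2 := countPts_formula hk A hB hn
      have h3 := congrArg (Int.cast : ℤ → ℚ) h2
      push_cast at h3
      rw [hq]
      exact h3
  rw [← hS] at hode
  obtain ⟨P0, hP0, hP0ne, hmult⟩ := Lfun hk A B hB
    (∏ π ∈ PiB B, (fac q π.natDegree (eps A π) : PowerSeries ℚ)) (by
      rw [map_prod]
      apply Finset.prod_eq_one
      intro π hπ
      rw [fac_coe]
      simp [hm0 π hπ]) hode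
  rw [← hP0] at hode
  -- the factor at infinity
  set e : ℤ := if g = 0 then eps (C f) X else 0 with he
  have he3 : e = 0 ∨ e = 1 ∨ e = -1 := by
    rw [he]
    split_ifs
    · unfold eps
      split_ifs <;> simp
    · simp
  have hode2 := fac_ode q 1 one_ne_zero e
  have hSS : PowerSeries.mk (fun n => if n = 0 then 0 else
        ((q ^ n + 1) * q ^ n - (countForms F G n : ℚ) / (q ^ n - 1))) =
      PowerSeries.mk (fun n => if n = 0 then 0 else (q ^ (2 * n) - (countPts A B n : ℚ))) +
        SS q 1 e := by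
    ext n
    rw [map_add, PowerSeries.coeff_mk, PowerSeries.coeff_mk]
    unfold SS
    rw [PowerSeries.coeff_mk]
    by_cases hn : n = 0
    · simp [hn]
    · simp only [if_neg hn, one_dvd, if_true, Nat.div_one]
      have hqn : 1 < q ^ n := one_lt_pow₀ hq1 hn
      have hc := countForms_eq hF hG hn
      have hc2 := congrArg (Int.cast : ℤ → ℚ) (cnt2_eq hk f g hn)
      have hge : 1 ≤ Nat.card k ^ n := Nat.one_le_pow _ _ (by have := one_lt_q (k := k); omega)
      rw [← hA, ← hBdef, ← hf, ← hg] at hc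
      have hc3 : (countForms F G n : ℚ) = (q ^ n - 1) * ((countPts A B n : ℚ) + (cnt2 f g n : ℚ)) := by
        rw [hc]
        push_cast [Nat.cast_sub hge]
        rfl
      rw [hc3, mul_div_cancel_left₀ _ (by linarith)]
      have hc4 : (cnt2 f g n : ℚ) = q ^ n + (e : ℚ) ^ n * q ^ n := by
        push_cast at hc2
        rw [hc2, he]
        by_cases hg0 : g = 0
        · simp only [if_pos hg0]
          rfl
        · simp only [if_neg hg0]
          simp [hn, hq]
      rw [hc4]
      push_cast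
      ring
  have hcp : ((P0 * fac q 1 e : ℚ[X]) : PowerSeries ℚ) =
      (P0 : PowerSeries ℚ) * (fac q 1 e : PowerSeries ℚ) := Polynomial.coe_mul _ _
  have hne := mul_ne_zero hP0ne (fac_ne_zero q one_ne_zero e)
  refine ⟨P0 * fac q 1 e, ?_, hne, ?_⟩
  · rw [hcp]
    apply ode_unique (S := PowerSeries.mk (fun n => if n = 0 then 0 else
        ((q ^ n + 1) * q ^ n - (countForms F G n : ℚ) / (q ^ n - 1))))
    · simp
    · rw [h0, map_mul, hP0, map_prod, Finset.prod_eq_one, fac_coe]
      · simp
      · intro π hπ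
        rw [fac_coe]
        simp [hm0 π hπ]
    · rw [hSS, Derivation.leibniz]
      simp only [smul_eq_mul]
      calc PowerSeries.X * ((P0 : PowerSeries ℚ) * PowerSeries.derivative ℚ (fac q 1 e : PowerSeries ℚ) +
            (fac q 1 e : PowerSeries ℚ) * PowerSeries.derivative ℚ (P0 : PowerSeries ℚ))
          = (P0 : PowerSeries ℚ) * (PowerSeries.X * PowerSeries.derivative ℚ (fac q 1 e : PowerSeries ℚ)) +
            (fac q 1 e : PowerSeries ℚ) * (PowerSeries.X * PowerSeries.derivative ℚ (P0 : PowerSeries ℚ)) := by ring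
        _ = _ := by rw [hode, hode2]; ring
    · exact h1
  · rw [rootMultiplicity_mul hne, hmult, fac_mult hq0 one_ne_zero he3]
    congr 1
    have hiff : e = 1 ↔ (g = 0 ∧ f ≠ 0 ∧ IsSquare f) := by
      rw [he]
      by_cases hg0 : g = 0
      · rw [if_pos hg0, eps_C_X]
        tauto
      · rw [if_neg hg0]
        constructor
        · intro h; norm_num at h
        · intro h; exact absurd h.1 hg0
    by_cases h : e = 1
    · rw [if_pos h, if_pos (hiff.mp h)]
    · rw [if_neg h, if_neg (fun h' => h (hiff.mpr h'))]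

end Pool.Agent.Helper30.BBLfunProj
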