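import Pool.Agent.Helper61.BBGermA

/-!
Module GEO for MP_0b9e0b_ag: the function field over the constants of an irreducible curve over the
algebraic closure, with a place over every point of the curve.
-/

set_option autoImplicit false
set_option linter.style.haveILetI false

namespace Pool.Agent.Helper30.BBGeo

open Pool.Agent.Helper16 Pool.Agent.Helper61.BBGermA

/-! ### A valuation ring over a point -/

theorem exists_red {κ K R : Type} [Field κ] [IsAlgClosed κ] [Field K] [Algebra κ K]
    (htr : Algebra.trdeg κ K = 1) [CommRing R] [Algebra κ R] (i : R →ₐ[κ] K)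
    (hi : Function.Injective i) (φ : R →ₐ[κ] κ) (s : R) (hs : Transcendental κ (i s)) :
    ∃ (O : ValuationSubring K) (red : O →+* κ),
      (∀ x : O, red x = 0 ↔ x ∈ IsLocalRing.maximalIdeal O) ∧
      ∀ r : R, ∃ h : i r ∈ O, red ⟨i r, h⟩ = φ r := by
  classical
  let A : Subring K := (i : R →+* K).range
  let e : R ≃+* A := RingEquiv.ofBijective (i : R →+* K).rangeRestrict
    ⟨fun x y h => hi (congrArg Subtype.val h), (i : R →+* K).rangeRestrict_surjective⟩
  have he : ∀ r : R, ((e r : A) : K) = i r := fun r => rfl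
  let I : Ideal A := RingHom.ker ((φ : R →+* κ).comp (e.symm : A →+* R))
  have hI : I ≠ ⊤ := RingHom.ker_ne_top _
  obtain ⟨O, hO1, hO2⟩ := Ideal.image_subset_nonunits_valuationSubring I hI
  have hmem : ∀ r : R, i r ∈ O := fun r => hO1 (e r).2
  have hker : ∀ r : R, φ r = 0 → (⟨i r, hmem r⟩ : O) ∈ IsLocalRing.maximalIdeal O := by
    intro r hr
    have h1 : i r ∈ O.nonunits := by
      refine hO2 ⟨e r, ?_, rfl⟩
      change (φ : R →+* κ) (e.symm (e r)) = 0
      rw [RingEquiv.symm_apply_apply]
      exact hr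
    exact ValuationSubring.coe_mem_nonunits_iff.1 h1
  have hconst : ∀ a : κ, algebraMap κ K a ∈ O := by
    intro a
    rw [← i.commutes]
    exact hmem _
  -- a transcendental element of the maximal ideal
  obtain ⟨s', hs', hs'0⟩ : ∃ s' : R, Transcendental κ (i s') ∧ φ s' = 0 := by
    refine ⟨s - algebraMap κ R (φ s), ?_, ?_⟩
    · intro h
      apply hs
      have h2 : i s = i (s - algebraMap κ R (φ s)) + algebraMap κ K (φ s) := by
        rw [map_sub, i.commutes, sub_add_cancel]
      rw [h2]
      exact h.add (isAlgebraic_algebraMap _)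
    · rw [map_sub, AlgHom.commutes, Algebra.algebraMap_self, RingHom.id_apply, sub_self]
  have hsm := hker s' hs'0
  set t : K := i s' with ht
  have ht0 : t ≠ 0 := by
    intro h
    rw [h] at hs'
    exact hs' isAlgebraic_zero
  have hinv : t⁻¹ ∉ O := by
    intro h
    rw [IsLocalRing.mem_maximalIdeal, mem_nonunits_iff] at hsm
    apply hsm
    rw [isUnit_iff_exists_inv]
    refine ⟨⟨t⁻¹, h⟩, ?_⟩
    apply Subtype.ext
    exact mul_inv_cancel₀ ht0
  have key : ∀ x : O, ∃ a : κ,
      x - ⟨algebraMap κ K a, hconst a⟩ ∈ IsLocalRing.maximalIdeal O := by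
    intro x
    have hE := isFunctionField_adjoin htr ({t, (x : K)} : Set _)
      (Set.toFinite _) t (by simp) hs'
    have hsE : t ∈ IntermediateField.adjoin κ ({t, (x : K)} : Set K) :=
      IntermediateField.subset_adjoin _ _ (by simp)
    have hxE : (x : K) ∈ IntermediateField.adjoin κ ({t, (x : K)} : Set K) :=
      IntermediateField.subset_adjoin _ _ (by simp)
    obtain ⟨v, hv⟩ := hE.exists_place (O.comap (algebraMap _ K))
      (fun a => hconst a) ⟨t⁻¹, inv_mem hsE⟩ hinv
    have hv' : ∀ z : IntermediateField.adjoin κ ({t, (x : K)} : Set K),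
        v.val z ≤ 1 ↔ (z : K) ∈ O := fun z => hv z
    haveI := v.finite_resField hE
    obtain ⟨a, ha⟩ := (IsAlgClosed.algebraMap_bijective_of_isIntegral (k := κ)
      (K := v.resField)).2 (v.res ⟨x, hxE⟩)
    refine ⟨a, ?_⟩
    have hxr : (⟨x, hxE⟩ : IntermediateField.adjoin κ ({t, (x : K)} : Set K)) ∈ v.ring :=
      (hv' _).2 x.2
    have har := v.ring.algebraMap_mem a
    have h1 : v.res (⟨x, hxE⟩ - algebraMap κ _ a) = 0 := by
      rw [Place.res_sub v hxr har, Place.res_algebraMap, ha, sub_self]
    rw [Place.res_eq_zero_iff v (sub_mem hxr har)] at h1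
    exact mem_maximalIdeal_of_val O _ v hv' _ h1
  -- the residue map
  let j : κ →+* IsLocalRing.ResidueField O :=
    (IsLocalRing.residue O).comp ((algebraMap κ K).codRestrict O.toSubring hconst)
  have hj : Function.Bijective j := by
    refine ⟨j.injective, fun y => ?_⟩
    obtain ⟨x, rfl⟩ := IsLocalRing.residue_surjective y
    obtain ⟨a, ha⟩ := key x
    refine ⟨a, ?_⟩
    rw [← IsLocalRing.residue_eq_zero_iff, map_sub, sub_eq_zero] at ha
    exact ha.symm
  let f := RingEquiv.ofBijective j hj
  let red : O →+* κ := f.symm.toRingHom.comp (IsLocalRing.residue O)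
  have hred0 : ∀ x : O, red x = 0 ↔ x ∈ IsLocalRing.maximalIdeal O := by
    intro x
    change f.symm (IsLocalRing.residue O x) = 0 ↔ _
    rw [map_eq_zero_iff f.symm f.symm.injective, IsLocalRing.residue_eq_zero_iff]
  have hredc : ∀ a : κ, red ⟨algebraMap κ K a, hconst a⟩ = a := by
    intro a
    change f.symm (IsLocalRing.residue O _) = a
    rw [RingEquiv.symm_apply_eq]
    rfl
  refine ⟨O, red, hred0, fun r => ⟨hmem r, ?_⟩⟩
  have h1 : φ (r - algebraMap κ R (φ r)) = 0 := by
    rw [map_sub, AlgHom.commutes, Algebra.algebraMap_self, RingHom.id_apply, sub_self]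
  have h2 := (hred0 _).2 (hker _ h1)
  have h3 : (⟨i (r - algebraMap κ R (φ r)), hmem _⟩ : O) =
      ⟨i r, hmem r⟩ - ⟨algebraMap κ K (φ r), hconst _⟩ := by
    apply Subtype.ext
    change i (r - algebraMap κ R (φ r)) = i r - algebraMap κ K (φ r)
    rw [map_sub, i.commutes]
  rw [h3, map_sub, hredc, sub_eq_zero] at h2
  exact h2

/-! ### The place under a valuation ring -/

theorem place_of_red {k κ K : Type} [Field k] [Field κ] [Algebra k κ] [Algebra.IsAlgebraic k κ]
    [Field K] [Algebra k K] (htrd : Algebra.trdeg k K = 1) (O : ValuationSubring K)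
    (red : O →+* κ) (hred0 : ∀ x : O, red x = 0 ↔ x ∈ IsLocalRing.maximalIdeal O)
    (hconst : ∀ a : k, ∃ h : algebraMap k K a ∈ O, red ⟨algebraMap k K a, h⟩ = algebraMap k κ a)
    (S : Set K) (hS : S.Finite) (s : K) (hs : s ∈ S) (htr : Transcendental k s) :
    ∃ (u : Place k (IntermediateField.adjoin k S)) (ρ : u.resField →ₐ[k] κ),
      (∀ a : IntermediateField.adjoin k S, u.val a ≤ 1 ↔ (a : K) ∈ O) ∧
      ∀ (a : IntermediateField.adjoin k S) (h : (a : K) ∈ O), ρ (u.res a) = red ⟨a, h⟩ := by
  have hE := isFunctionField_adjoin htrd S hS s hs htr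
  -- some element of `E` is not in `O`
  have hex : ∃ y : IntermediateField.adjoin k S, (y : K) ∉ O := by
    by_contra hcon
    push Not at hcon
    let f : IntermediateField.adjoin k S →+* κ :=
      red.comp ((algebraMap (IntermediateField.adjoin k S) K).codRestrict
        O.toSubring hcon)
    have hf : ∀ a : k, f (algebraMap k _ a) = algebraMap k κ a := by
      intro a
      obtain ⟨h, ha⟩ := hconst a
      exact ha
    let F : IntermediateField.adjoin k S →ₐ[k] κ :=
      { f with commutes' := hf }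
    have hsE : s ∈ IntermediateField.adjoin k S := IntermediateField.subset_adjoin _ _ hs
    have h1 : IsAlgebraic k (F ⟨s, hsE⟩) := Algebra.IsAlgebraic.isAlgebraic _
    have h2 : IsAlgebraic k (⟨s, hsE⟩ : IntermediateField.adjoin k S) :=
      (isAlgebraic_algHom_iff F F.toRingHom.injective).1 h1
    exact htr (h2.algebraMap (A := K))
  obtain ⟨y, hy⟩ := hex
  obtain ⟨u, hu⟩ := hE.exists_place (O.comap (algebraMap _ K))
    (fun a => (hconst a).1) y hy
  have hu' : ∀ a : IntermediateField.adjoin k S, u.val a ≤ 1 ↔ (a : K) ∈ O :=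
    fun a => hu a
  let f : u.ring →+* κ :=
    red.comp (((algebraMap (IntermediateField.adjoin k S) K).comp
      (u.ring.val : u.ring →+* IntermediateField.adjoin k S)).codRestrict
        O.toSubring (fun x => (hu' _).1 x.2))
  have hf : ∀ a : k, f (algebraMap k _ a) = algebraMap k κ a := by
    intro a
    obtain ⟨h, ha⟩ := hconst a
    exact ha
  have hker : ∀ x : u.ring, x ∈ IsLocalRing.maximalIdeal u.ring → f x = 0 := by
    intro x hx
    rw [Place.mem_maximalIdeal] at hx
    exact (hred0 _).2 (mem_maximalIdeal_of_val O _ u hu' _ hx)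
  let f' : u.ring →ₐ[k] κ := { f with commutes' := hf }
  let ρ : u.resField →ₐ[k] κ :=
    Ideal.Quotient.liftₐ (IsLocalRing.maximalIdeal u.ring) f' hker
  refine ⟨u, ρ, hu', ?_⟩
  intro a h
  have ha : a ∈ u.ring := (hu' a).2 h
  rw [Place.res_of_mem u ha]
  rfl

/-! ### The curve -/

theorem exists_const_curve {k β : Type} [Field k] [Finite β]
    (𝔭 : Ideal (MvPolynomial β (AlgebraicClosure k))) (h𝔭 : 𝔭.IsPrime)
    (htr : Algebra.trdeg (AlgebraicClosure k) (MvPolynomial β (AlgebraicClosure k) ⧸ 𝔭) = 1) :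
    ∃ (E : Type) (_ : Field E) (_ : Algebra k E) (ξ : β → E), IsFunctionField k E ∧
      (∀ Q : MvPolynomial β k, MvPolynomial.aeval ξ Q = 0 ↔
        MvPolynomial.map (algebraMap k (AlgebraicClosure k)) Q ∈ 𝔭) ∧
      (∃ j, Transcendental k (ξ j)) ∧
      ∀ c : β → AlgebraicClosure k, (∀ Q ∈ 𝔭, MvPolynomial.aeval c Q = 0) →
        ∃ (u : Place k E) (ρ : u.resField →ₐ[k] AlgebraicClosure k),
          ∀ j, u.val (ξ j) ≤ 1 ∧ ρ (u.res (ξ j)) = c j := by
  classical
  let κ := AlgebraicClosure k
  let R := MvPolynomial β (AlgebraicClosure k) ⧸ 𝔭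
  haveI : IsDomain R := Ideal.Quotient.isDomain 𝔭
  let K := FractionRing R
  let i : R →ₐ[AlgebraicClosure k] K := IsScalarTower.toAlgHom (AlgebraicClosure k) R K
  have hi : Function.Injective i := IsFractionRing.injective R K
  haveI : Algebra.IsAlgebraic R K := IsLocalization.isAlgebraic K (nonZeroDivisors R)
  have htrK : Algebra.trdeg (AlgebraicClosure k) K = 1 := by
    have h := trdeg_add_eq (AlgebraicClosure k) R (A := K)
    rw [htr, trdeg_eq_zero (R := R) (A := K), add_zero] at h
    exact h.symm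
  have htrk : Algebra.trdeg k K = 1 := by
    have h := trdeg_add_eq k (AlgebraicClosure k) (A := K)
    rw [trdeg_eq_zero (R := k) (A := AlgebraicClosure k), zero_add, htrK] at h
    exact h.symm
  let x : β → R := fun j => Ideal.Quotient.mk 𝔭 (MvPolynomial.X j)
  have hx : ∀ Q : MvPolynomial β (AlgebraicClosure k),
      MvPolynomial.aeval x Q = Ideal.Quotient.mk 𝔭 Q := by
    intro Q
    have h1 : MvPolynomial.aeval x = Ideal.Quotient.mkₐ (AlgebraicClosure k) 𝔭 := by
      apply MvPolynomial.algHom_ext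
      intro j
      rw [MvPolynomial.aeval_X]
      rfl
    rw [h1]
    rfl
  -- the coordinates generate, so one of them is transcendental
  obtain ⟨j₀, hj₀⟩ : ∃ j, Transcendental (AlgebraicClosure k) (i (x j)) := by
    by_contra hcon
    simp only [not_exists, Transcendental, not_not] at hcon
    have h1 : Algebra.IsAlgebraic (AlgebraicClosure k) R := by
      refine ⟨fun r => ?_⟩
      obtain ⟨Q, rfl⟩ := Ideal.Quotient.mk_surjective r
      rw [← hx]
      have h2 : MvPolynomial.aeval x Q ∈
          Algebra.adjoin (AlgebraicClosure k) (Set.range x) := by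
        rw [Algebra.adjoin_range_eq_range_aeval]
        exact ⟨Q, rfl⟩
      have h3 : Algebra.adjoin (AlgebraicClosure k) (Set.range x) ≤
          integralClosure (AlgebraicClosure k) R := by
        rw [Algebra.adjoin_le_iff]
        rintro _ ⟨j, rfl⟩
        have h4 : IsAlgebraic (AlgebraicClosure k) (x j) :=
          (isAlgebraic_algHom_iff i hi).1 (hcon j)
        exact h4.isIntegral
      have h5 : IsIntegral (AlgebraicClosure k) (MvPolynomial.aeval x Q) := h3 h2
      exact h5.isAlgebraic
    have h6 := trdeg_eq_zero (R := AlgebraicClosure k) (A := R)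
    rw [htr] at h6
    exact one_ne_zero h6
  have hj₀k : Transcendental k (i (x j₀)) := by
    intro h
    exact hj₀ (h.tower_top (AlgebraicClosure k))
  let S : Set K := Set.range fun j => i (x j)
  have hS : S.Finite := Set.finite_range _
  let ξ : β → IntermediateField.adjoin k S :=
    fun j => ⟨i (x j), IntermediateField.subset_adjoin k S ⟨j, rfl⟩⟩
  have hE := isFunctionField_adjoin htrk S hS (i (x j₀)) ⟨j₀, rfl⟩ hj₀k
  refine ⟨IntermediateField.adjoin k S, inferInstance, inferInstance, ξ, hE, ?_, ?_, ?_⟩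
  · intro Q
    have h1 : (IntermediateField.adjoin k S).val (MvPolynomial.aeval ξ Q) =
        i (MvPolynomial.aeval x (MvPolynomial.map (algebraMap k (AlgebraicClosure k)) Q)) := by
      rw [MvPolynomial.comp_aeval_apply, MvPolynomial.comp_aeval_apply,
        MvPolynomial.aeval_map_algebraMap]
      rfl
    constructor
    · intro h
      rw [h, map_zero] at h1
      have h2 := hi ((map_zero i).trans h1)
      rw [hx] at h2
      exact Ideal.Quotient.eq_zero_iff_mem.1 h2.symm
    · intro h
      rw [hx, Ideal.Quotient.eq_zero_iff_mem.2 h, map_zero] at h1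
      exact (map_eq_zero_iff _ (IntermediateField.adjoin k S).val.injective).1 h1
  · refine ⟨j₀, fun h => hj₀k (h.algebraMap (A := K))⟩
  · intro c hc
    let φ : R →ₐ[AlgebraicClosure k] AlgebraicClosure k :=
      Ideal.Quotient.liftₐ 𝔭 (MvPolynomial.aeval c) hc
    have hφ : ∀ j, φ (x j) = c j := by
      intro j
      change MvPolynomial.aeval c (MvPolynomial.X j) = c j
      rw [MvPolynomial.aeval_X]
    obtain ⟨O, red, hred0, hred⟩ := exists_red htrK i hi φ (x j₀) hj₀
    have hconst : ∀ a : k, ∃ h : algebraMap k K a ∈ O,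
        red ⟨algebraMap k K a, h⟩ = algebraMap k (AlgebraicClosure k) a := by
      intro a
      obtain ⟨h, h'⟩ := hred (algebraMap (AlgebraicClosure k) R
        (algebraMap k (AlgebraicClosure k) a))
      rw [φ.commutes] at h'
      have h3 : i (algebraMap (AlgebraicClosure k) R (algebraMap k (AlgebraicClosure k) a)) =
          algebraMap k K a := by
        rw [i.commutes, ← IsScalarTower.algebraMap_apply]
      have h4 : algebraMap k K a ∈ O := h3 ▸ h
      have h5 : (⟨algebraMap k K a, h4⟩ : O) = ⟨_, h⟩ := Subtype.ext h3.symm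
      exact ⟨h4, (congrArg red h5).trans h'⟩
    obtain ⟨u, ρ, hu, hρ⟩ := place_of_red htrk O red hred0 hconst S hS (i (x j₀)) ⟨j₀, rfl⟩ hj₀k
    refine ⟨u, ρ, fun j => ?_⟩
    obtain ⟨h, h'⟩ := hred (x j)
    refine ⟨(hu (ξ j)).2 h, ?_⟩
    rw [hρ (ξ j) h, ← hφ j, ← h']

end Pool.Agent.Helper30.BBGeo
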