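import Pool.Agent.Helper21.LR.Stmts

/-!
Splitting of the Chow form over a generic point of the first `r` hyperplanes
(module LR-S1 of MP_6358c9_nt).
-/

set_option autoImplicit false

open Pool.Agent.Helper21.LR MvPolynomial

namespace Pool.Agent.Helper30.LR

/-! ### Generic points -/

/-- vanishing at a generic point implies vanishing everywhere -/
lemma gen_vanish {m r : ℕ} (ξ : Fin m → ℂ) (k0 : Subfield ℂ) (hξ : ∀ j, ξ j ∈ k0)
    (u : Fin r × Fin m → ℂ) (hu : AlgebraicIndependent k0 u)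
    (G : MvPolynomial (Fin r × Fin (m+1)) ℤ) (h : aeval (thr ξ u) G = 0)
    (u' : Fin r × Fin m → ℂ) : aeval (thr ξ u') G = 0 := by
  let g0 : MvPolynomial (Fin r × Fin m) k0 :=
    aeval (R := ℤ) (fun ij : Fin r × Fin (m+1) =>
      Fin.cases (motive := fun _ => MvPolynomial (Fin r × Fin m) k0)
      (-∑ j, C (⟨ξ j, hξ j⟩ : k0) * X (ij.1, j)) (fun j => X (ij.1, j)) ij.2) G
  have key : ∀ v : Fin r × Fin m → ℂ, aeval (R := k0) v g0 = aeval (R := ℤ) (thr ξ v) G := by
    intro v
    have h1 : ((aeval (R := k0) v : MvPolynomial (Fin r × Fin m) k0 →ₐ[k0] ℂ).toRingHom.comp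
        (aeval (R := ℤ) (fun ij : Fin r × Fin (m+1) =>
      Fin.cases (motive := fun _ => MvPolynomial (Fin r × Fin m) k0)
      (-∑ j, C (⟨ξ j, hξ j⟩ : k0) * X (ij.1, j)) (fun j => X (ij.1, j)) ij.2) :
      MvPolynomial (Fin r × Fin (m+1)) ℤ →ₐ[ℤ] MvPolynomial (Fin r × Fin m) k0).toRingHom) =
      (aeval (R := ℤ) (thr ξ v) : MvPolynomial (Fin r × Fin (m+1)) ℤ →ₐ[ℤ] ℂ).toRingHom := by
      refine MvPolynomial.ringHom_ext (by intro n; simp) ?_
      rintro ⟨i, j⟩
      refine Fin.cases ?_ (fun j => ?_) j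
      · simp only [thr, AlgHom.toRingHom_eq_coe, RingHom.coe_comp, RingHom.coe_coe,
          Function.comp_apply, aeval_X, Fin.cases_zero, map_neg, map_sum, map_mul, aeval_C]
        congr 1
        refine Finset.sum_congr rfl fun j _ => ?_
        rw [mul_comm]
        rfl
      · simp [thr]
    exact congrArg (fun φ : MvPolynomial (Fin r × Fin (m+1)) ℤ →+* ℂ => φ G) h1
  have h0 : g0 = 0 := by
    have := key u
    rw [h] at this
    exact (AlgebraicIndependent.eq_zero_of_aeval_eq_zero hu) g0 this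
  rw [← key u', h0, map_zero]

/-- there are large algebraically independent families over a countable subfield -/
lemma exists_generic (k0 : Subfield ℂ) [Countable k0] (ι : Type) [Finite ι] :
    ∃ u : ι → ℂ, AlgebraicIndependent k0 u := by
  obtain ⟨s, hs⟩ := exists_isTranscendenceBasis k0 ℂ
  have h1 := IsAlgClosed.cardinal_le_max_transcendence_basis' (R := k0) (K' := ℂ) _ hs
  have hinf : Infinite s := by
    by_contra hfin
    rw [not_infinite_iff_finite] at hfin
    have h2 : Cardinal.mk s ≤ Cardinal.aleph0 := Cardinal.mk_le_aleph0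
    have h4 : Cardinal.mk ℂ ≤ Cardinal.aleph0 := h1.trans (by simp [h2])
    rw [Cardinal.mk_complex] at h4
    exact absurd h4 (not_le.2 Cardinal.aleph0_lt_continuum)
  let f : ι ↪ s := ((Finite.equivFin ι).toEmbedding.trans Fin.valEmbedding).trans
    (Infinite.natEmbedding s)
  exact ⟨fun i => (f i : ℂ), hs.1.comp f f.injective⟩

/-- the nonvanishing of integer polynomials at `U = thr ξ u`, `u` generic -/
lemma inj_of_chow {m r : ℕ} {ξ : Fin m → ℂ} {F : MvPolynomial (Fin (r+1) × Fin (m+1)) ℤ}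
    (hF : IsChow r ξ F) (k0 : Subfield ℂ) (hξ : ∀ j, ξ j ∈ k0)
    (u : Fin r × Fin m → ℂ) (hu : AlgebraicIndependent k0 u)
    (G : MvPolynomial (Fin r × Fin (m+1)) ℤ) (h : aeval (thr ξ u) G = 0) : G = 0 := by
  by_contra hG
  have hvan := gen_vanish ξ k0 hξ u hu G h
  -- `F` does not involve any variable
  have hdeg : ∀ ij : Fin (r+1) × Fin (m+1), F.degreeOf ij = 0 := by
    rintro ⟨i, j⟩
    let e : Fin r × Fin (m+1) → Fin (r+1) × Fin (m+1) := fun ij => (i.succAbove ij.1, ij.2)
    have he : Function.Injective e := by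
      rintro ⟨a, b⟩ ⟨a', b'⟩ hab
      simp only [e, Prod.mk.injEq] at hab
      exact Prod.ext (Fin.succAbove_right_injective hab.1) hab.2
    have hG' : rename e G ≠ 0 := by
      intro h0
      exact hG ((rename_injective e he) (by rw [h0, map_zero]))
    have hdvd : F ∣ rename e G := by
      rw [← hF.2]
      intro v
      rw [aeval_rename]
      have : (thr ξ v ∘ e) = thr ξ (fun ij => v (i.succAbove ij.1, ij.2)) := by
        funext ⟨a, b⟩
        refine Fin.cases ?_ (fun b => ?_) b <;> simp [thr, e]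
      rw [this]
      exact hvan _
    obtain ⟨H, hH⟩ := hdvd
    have hF0 : F ≠ 0 := hF.1
    have hH0 : H ≠ 0 := by
      rintro rfl
      exact hG' (by rw [hH, mul_zero])
    have h1 : (rename e G).degreeOf (i, j) = 0 := by
      classical
      by_contra hne
      have hmem : (i, j) ∈ (rename e G).vars := mem_vars_iff_degreeOf_ne_zero.2 hne
      have h3 := vars_rename e G hmem
      rw [Finset.mem_image] at h3
      obtain ⟨⟨a, b⟩, -, hab⟩ := h3
      simp only [e, Prod.mk.injEq] at hab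
      exact Fin.succAbove_ne i a hab.1
    have h2 : (rename e G).degreeOf (i, j) = F.degreeOf (i, j) + H.degreeOf (i, j) := by
      rw [hH]
      exact degreeOf_mul_eq hF0 hH0
    omega
  have htot : F.totalDegree = 0 := by
    rw [totalDegree_eq_zero_iff]
    intro d hd x
    have := monomial_le_degreeOf x hd
    rw [hdeg x] at this
    omega
  rw [totalDegree_eq_zero_iff_eq_C] at htot
  have h4 := (hF.2 F).2 dvd_rfl 0
  rw [htot] at h4
  rw [algHom_C] at h4
  have h5 : coeff 0 F = 0 := by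
    have h6 : ((coeff 0 F : ℤ) : ℂ) = 0 := h4
    exact_mod_cast h6
  exact hF.1 (by rw [htot, h5, C_0])

/-! ### Algebraicity -/

lemma isAlgebraic_of_dim {m r : ℕ} {ξ : Fin m → ℂ} (hdim : trd ξ = r) (u : Fin r × Fin m → ℂ)
    (hU : AlgebraicIndependent ℤ (thr ξ u)) (j : Fin m) :
    IsAlgebraic (Subfield.closure (Set.range (thr ξ u))) (ξ j) := by
  classical
  set T : Set ℂ := Set.range (thr ξ u) with hT
  set S : Set ℂ := Set.range ξ ∪ Set.range u with hS
  let M := AlgebraicIndependent.matroid ℤ ℂ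
  have hcl : ∀ s : Set ℂ, M.closure s = Subalgebra.algebraicClosure (Algebra.adjoin ℤ s) ℂ := fun s =>
    AlgebraicIndependent.matroid_closure_eq
  have hmemcl : ∀ (s : Set ℂ) (x : ℂ), x ∈ Algebra.adjoin ℤ s → x ∈ M.closure s := by
    intro s x hx
    rw [hcl]
    exact isAlgebraic_algebraMap (⟨x, hx⟩ : Algebra.adjoin ℤ s)
  have hTS : T ⊆ M.closure S := by
    rintro _ ⟨⟨i, j⟩, rfl⟩
    refine hmemcl S _ ?_
    refine Fin.cases ?_ (fun j => ?_) j
    · simp only [thr, Fin.cases_zero]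
      refine Subalgebra.neg_mem _ (Subalgebra.sum_mem _ fun j _ => Subalgebra.mul_mem _ ?_ ?_)
      · exact Algebra.subset_adjoin (Or.inr ⟨_, rfl⟩)
      · exact Algebra.subset_adjoin (Or.inl ⟨_, rfl⟩)
    · simp only [thr, Fin.cases_succ]
      exact Algebra.subset_adjoin (Or.inr ⟨_, rfl⟩)
  have hind : M.Indep T := by
    rw [AlgebraicIndependent.matroid_indep_iff]
    exact hU.to_subtype_range
  have hTcard : M.eRk T = (r * (m + 1) : ℕ) := by
    rw [hind.eRk_eq_encard, hT, ← Set.image_univ, hU.injective.encard_image]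
    simp
  have hScard : M.eRk (M.closure S) ≤ (r * (m + 1) : ℕ) := by
    rw [M.eRk_closure_eq]
    refine (M.eRk_union_le_eRk_add_encard _ _).trans ?_
    have h1 : M.eRk (Set.range ξ) = r := hdim
    have h2 : (Set.range u).encard ≤ (r * m : ℕ) := by
      rw [← Set.image_univ]
      refine (Set.encard_image_le _ _).trans ?_
      simp
    rw [h1]
    calc (r : ℕ∞) + (Set.range u).encard ≤ r + (r * m : ℕ) := by gcongr
      _ = (r * (m + 1) : ℕ) := by push_cast; ring
  have hfin : M.IsRkFinite T := by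
    rw [← Matroid.eRk_ne_top_iff, hTcard]
    exact ENat.natCast_ne_top _
  have hcc := hfin.closure_eq_closure_of_subset_of_eRk_ge_eRk hTS (by rw [hTcard]; exact hScard)
  have hξ : ξ j ∈ M.closure T := by
    rw [hcc]
    exact M.subset_closure_of_subset' (Set.Subset.refl _) (by simp [M])
      (hmemcl S _ (Algebra.subset_adjoin (Or.inl ⟨j, rfl⟩)))
  rw [hcl] at hξ
  have halg : IsAlgebraic (Algebra.adjoin ℤ T) (ξ j) := hξ
  let ι : Algebra.adjoin ℤ T →+* Subfield.closure T :=
    (algebraMap (Algebra.adjoin ℤ T) ℂ).codRestrict (Subfield.closure T) (by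
      rintro ⟨x, hx⟩
      change x ∈ Subfield.closure T
      refine Algebra.adjoin_induction (fun y hy => Subfield.subset_closure hy) (fun n => ?_)
        (fun _ _ _ _ h1 h2 => add_mem h1 h2) (fun _ _ _ _ h1 h2 => mul_mem h1 h2) hx
      simp)
  letI : Algebra (Algebra.adjoin ℤ T) (Subfield.closure T) := ι.toAlgebra
  haveI : IsScalarTower (Algebra.adjoin ℤ T) (Subfield.closure T) ℂ :=
    IsScalarTower.of_algebraMap_eq fun _ => rfl
  refine halg.extendScalars ?_
  intro x y hxy
  exact Subtype.ext (congrArg (Subtype.val : Subfield.closure T → ℂ) hxy)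

/-! ### Coefficients -/

/-- elements of the field generated by the `U i` are quotients of integer polynomials -/
lemma exists_frac {ι : Type} (U : ι → ℂ) {x : ℂ} (hx : x ∈ Subfield.closure (Set.range U)) :
    ∃ num den : MvPolynomial ι ℤ, den ≠ 0 ∧ aeval U den * x = aeval U num := by
  have hring : ∀ y ∈ Subring.closure (Set.range U), ∃ q : MvPolynomial ι ℤ, aeval U q = y := by
    intro y hy
    refine Subring.closure_induction (p := fun y _ => ∃ q : MvPolynomial ι ℤ, aeval U q = y)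
      ?_ ⟨0, map_zero _⟩ ⟨1, map_one _⟩ ?_ ?_ ?_ hy
    · rintro _ ⟨i, rfl⟩
      exact ⟨X i, aeval_X U i⟩
    · rintro _ _ _ _ ⟨p, rfl⟩ ⟨q, rfl⟩
      exact ⟨p + q, map_add _ _ _⟩
    · rintro _ _ ⟨p, rfl⟩
      exact ⟨-p, map_neg _ _⟩
    · rintro _ _ _ _ ⟨p, rfl⟩ ⟨q, rfl⟩
      exact ⟨p * q, map_mul _ _ _⟩
  obtain ⟨y, hy, z, hz, rfl⟩ := Subfield.mem_closure_iff.1 hx
  obtain ⟨num, hnum⟩ := hring y hy
  obtain ⟨den, hden⟩ := hring z hz
  by_cases hz0 : z = 0
  · exact ⟨0, 1, one_ne_zero, by rw [hz0]; simp⟩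
  · refine ⟨num, den, ?_, ?_⟩
    · rintro rfl
      exact hz0 (by rw [← hden, map_zero])
    · rw [hnum, hden]
      field_simp

/-- a polynomial with coefficients in `ℚ(U)` has a multiple with coefficients in `ℤ[U]` -/
lemma exists_clear {ι : Type} (U : ι → ℂ) {n : ℕ} (P : MvPolynomial (Fin n) ℂ)
    (hP : ∀ d, coeff d P ∈ Subfield.closure (Set.range U)) :
    ∃ (b : MvPolynomial ι ℤ) (P' : MvPolynomial (Fin n) (MvPolynomial ι ℤ)), b ≠ 0 ∧
      MvPolynomial.map (aeval U : MvPolynomial ι ℤ →ₐ[ℤ] ℂ).toRingHom P' = C (aeval U b) * P := by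
  classical
  choose num den hden heq using fun d => exists_frac U (hP d)
  refine ⟨∏ d ∈ P.support, den d,
    ∑ d ∈ P.support, monomial d (num d * ∏ e ∈ P.support.erase d, den e),
    Finset.prod_ne_zero_iff.2 fun d _ => hden d, ?_⟩
  obtain ⟨B, hB⟩ : ∃ B, B = aeval U (∏ d ∈ P.support, den d) := ⟨_, rfl⟩
  rw [← hB]
  conv_rhs => rw [P.as_sum]
  rw [map_sum, Finset.mul_sum]
  refine Finset.sum_congr rfl fun d hd => ?_
  rw [map_monomial, C_mul_monomial]
  congr 1
  change aeval U (num d * ∏ e ∈ P.support.erase d, den e) = _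
  rw [hB, map_mul, ← heq d, ← Finset.mul_prod_erase _ _ hd, map_mul]
  ring

/-- a polynomial with values in `k` at the points of `k` has coefficients in `k` -/
lemma coeff_mem_of_values {k : Subfield ℂ} {n : ℕ} (P : MvPolynomial (Fin n) ℂ)
    (h : ∀ w : Fin n → k, eval (fun i => (w i : ℂ)) P ∈ k) (d : Fin n →₀ ℕ) : coeff d P ∈ k := by
  classical
  by_contra hc
  have hc' : coeff d P ∉ LinearMap.range (Algebra.linearMap k ℂ) := by
    rintro ⟨x, hx⟩
    exact hc (by rw [← hx]; exact x.2)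
  obtain ⟨f, hf, hf0⟩ := Submodule.exists_dual_map_eq_bot_of_notMem hc' inferInstance
  have hfk : ∀ x : ℂ, x ∈ k → f x = 0 := by
    intro x hx
    have : f x ∈ Submodule.map f (LinearMap.range (Algebra.linearMap k ℂ)) :=
      ⟨x, ⟨⟨x, hx⟩, rfl⟩, rfl⟩
    rw [hf0] at this
    simpa using this
  let Q : MvPolynomial (Fin n) k := ∑ e ∈ P.support, monomial e (f (coeff e P))
  have hQ : Q = 0 := by
    haveI : Infinite k := inferInstance
    refine MvPolynomial.funext fun w => ?_
    rw [map_zero, map_sum]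
    have h1 := hfk _ (h w)
    rw [MvPolynomial.eval_eq', map_sum] at h1
    rw [← h1]
    refine Finset.sum_congr rfl fun e _ => ?_
    rw [eval_monomial]
    have h2 : (coeff e P * ∏ i, (w i : ℂ) ^ e i) = (∏ i, (w i) ^ e i : k) • coeff e P := by
      rw [Subfield.smul_def, smul_eq_mul, mul_comm]
      push_cast
      rfl
    rw [h2, map_smul, smul_eq_mul, mul_comm]
    congr 1
    rw [Finsupp.prod_fintype _ _ (by simp)]
  have h3 : coeff d Q = f (coeff d P) := by
    simp only [Q, coeff_sum, coeff_monomial]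
    rw [Finset.sum_ite_eq' P.support d (fun e => f (coeff e P))]
    split_ifs with hd
    · rfl
    · rw [notMem_support_iff.1 hd, map_zero]
  rw [hQ, coeff_zero] at h3
  exact hf h3.symm

/-! ### Regrouping of variables -/

/-- `F` as a polynomial in the coefficients of the first form -/
noncomputable def regroup (m r : ℕ) : MvPolynomial (Fin (r+1) × Fin (m+1)) ℤ →ₐ[ℤ]
    MvPolynomial (Fin (m+1)) (MvPolynomial (Fin r × Fin (m+1)) ℤ) :=
  aeval (fun ij => Fin.cases (motive := fun _ =>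
    MvPolynomial (Fin (m+1)) (MvPolynomial (Fin r × Fin (m+1)) ℤ))
    (X ij.2) (fun i => C (X (i, ij.2))) ij.1)

/-- the inverse of `regroup` -/
noncomputable def ungroup (m r : ℕ) :
    MvPolynomial (Fin (m+1)) (MvPolynomial (Fin r × Fin (m+1)) ℤ) →+*
    MvPolynomial (Fin (r+1) × Fin (m+1)) ℤ :=
  eval₂Hom (rename (fun ij : Fin r × Fin (m+1) => (ij.1.succ, ij.2)) :
    MvPolynomial (Fin r × Fin (m+1)) ℤ →ₐ[ℤ] MvPolynomial (Fin (r+1) × Fin (m+1)) ℤ).toRingHom
    (fun j => X (0, j))

lemma ungroup_regroup {m r : ℕ} (G : MvPolynomial (Fin (r+1) × Fin (m+1)) ℤ) :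
    ungroup m r (regroup m r G) = G := by
  have h : (ungroup m r).comp (regroup m r).toRingHom = RingHom.id _ := by
    refine MvPolynomial.ringHom_ext (by intro n; simp) ?_
    rintro ⟨i, j⟩
    refine Fin.cases ?_ (fun i => ?_) i <;> simp [regroup, ungroup]
  exact congrArg (fun φ : MvPolynomial (Fin (r+1) × Fin (m+1)) ℤ →+* _ => φ G) h

lemma regroup_ungroup {m r : ℕ} (G : MvPolynomial (Fin (m+1)) (MvPolynomial (Fin r × Fin (m+1)) ℤ)) :
    regroup m r (ungroup m r G) = G := by
  have h : (regroup m r).toRingHom.comp (ungroup m r) = RingHom.id _ := by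
    refine MvPolynomial.ringHom_ext ?_ (by intro j; simp [regroup, ungroup])
    intro g
    have h2 : ((regroup m r).toRingHom.comp ((ungroup m r).comp C)) =
        (C : MvPolynomial (Fin r × Fin (m+1)) ℤ →+* _) := by
      refine MvPolynomial.ringHom_ext (by intro n; simp) ?_
      rintro ⟨i, j⟩
      simp [regroup, ungroup]
    exact congrArg (fun φ : MvPolynomial (Fin r × Fin (m+1)) ℤ →+* _ => φ g) h2
  exact congrArg (fun φ : MvPolynomial (Fin (m+1)) (MvPolynomial (Fin r × Fin (m+1)) ℤ) →+* _ =>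
    φ G) h

/-- the specialisation of the last `r` forms -/
noncomputable def spec {m r : ℕ} (U : Fin r × Fin (m+1) → ℂ) :
    MvPolynomial (Fin (m+1)) (MvPolynomial (Fin r × Fin (m+1)) ℤ) →+* MvPolynomial (Fin (m+1)) ℂ :=
  MvPolynomial.map (aeval U : MvPolynomial (Fin r × Fin (m+1)) ℤ →ₐ[ℤ] ℂ).toRingHom

lemma eval_spec_regroup {m r : ℕ} (U : Fin r × Fin (m+1) → ℂ) (w : Fin (m+1) → ℂ)
    (G : MvPolynomial (Fin (r+1) × Fin (m+1)) ℤ) :
    eval w (spec U (regroup m r G)) = aeval (consU w U) G := by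
  have h : ((eval w).comp ((spec U).comp (regroup m r).toRingHom)) =
      (aeval (consU w U) : MvPolynomial (Fin (r+1) × Fin (m+1)) ℤ →ₐ[ℤ] ℂ).toRingHom := by
    refine MvPolynomial.ringHom_ext (by intro n; simp) ?_
    rintro ⟨i, j⟩
    refine Fin.cases ?_ (fun i => ?_) i <;> simp [regroup, spec, consU]
  exact congrArg (fun φ : MvPolynomial (Fin (r+1) × Fin (m+1)) ℤ →+* _ => φ G) h

/-! ### Linear forms -/

/-- the linear form `X_0 + ∑ p_j X_(j+1)` -/
noncomputable def lin {m : ℕ} (p : Fin m → ℂ) : MvPolynomial (Fin (m+1)) ℂ :=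
  X 0 + ∑ j, C (p j) * X j.succ

lemma eval_lin {m : ℕ} (p : Fin m → ℂ) (w : Fin (m+1) → ℂ) :
    eval w (lin p) = w 0 + ∑ j : Fin m, w j.succ * p j := by
  simp [lin, mul_comm]

lemma eval_prod_lin {m : ℕ} {ι : Type} [Fintype ι] (p : ι → Fin m → ℂ) (w : Fin (m+1) → ℂ) :
    eval w (∏ σ, lin (p σ)) = ∏ σ, (w 0 + ∑ j : Fin m, w j.succ * p σ j) := by
  rw [map_prod]
  exact Finset.prod_congr rfl fun σ _ => eval_lin _ _

lemma prod_lin_dvd {m : ℕ} {ι : Type} [Fintype ι] (p : ι → Fin m → ℂ) (hp : Function.Injective p)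
    (P : MvPolynomial (Fin (m+1)) ℂ) (hP : P ≠ 0)
    (h : ∀ σ, ∀ w : Fin m → ℤ, eval (Fin.cases (motive := fun _ => ℂ)
      (-∑ j, (w j : ℂ) * p σ j) (fun j => (w j : ℂ))) P = 0) :
    ∏ σ, lin (p σ) ∣ P := by
  classical
  let θ : ι → MvPolynomial (Fin m) ℂ := fun σ => -∑ j, C (p σ j) * X j
  have hθ : Function.Injective θ := by
    intro σ τ hστ
    refine hp (funext fun j => ?_)
    have h1 := congrArg (eval (Pi.single j (1 : ℂ))) hστ
    simp only [θ, map_neg, map_sum, map_mul, eval_C, eval_X, neg_inj] at h1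
    simpa [Pi.single_apply] using h1
  let f := finSuccEquiv ℂ m P
  have hf0 : f ≠ 0 := by
    intro h0
    exact hP ((finSuccEquiv ℂ m).injective (by rw [map_zero]; exact h0))
  have hroot : ∀ σ, f.eval (θ σ) = 0 := by
    intro σ
    refine funext_set (fun _ => Set.range (Int.cast : ℤ → ℂ))
      (fun _ => Set.infinite_range_of_injective Int.cast_injective) fun x hx => ?_
    choose w hw using fun i => hx i (Set.mem_univ i)
    have hxw : x = fun i => (w i : ℂ) := funext fun i => (hw i).symm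
    rw [map_zero, eval_polynomial_eval_finSuccEquiv, hxw, ← h σ w]
    congr 2
    funext i
    refine Fin.cases ?_ (fun i => ?_) i
    · simp [θ, mul_comm]
    · simp
  have hdvd : ((Finset.univ.val.map θ).map (fun a => Polynomial.X - Polynomial.C a)).prod ∣ f := by
    rw [Multiset.prod_X_sub_C_dvd_iff_le_roots hf0]
    rw [Multiset.le_iff_subset (Finset.univ.nodup.map hθ)]
    intro a ha
    rw [Multiset.mem_map] at ha
    obtain ⟨σ, -, rfl⟩ := ha
    rw [Polynomial.mem_roots hf0]
    exact hroot σ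
  have hprod : ((Finset.univ.val.map θ).map (fun a => Polynomial.X - Polynomial.C a)).prod =
      finSuccEquiv ℂ m (∏ σ, lin (p σ)) := by
    rw [Multiset.map_map, map_prod]
    refine Finset.prod_congr rfl fun σ _ => ?_
    have hC : ∀ c : ℂ, finSuccEquiv ℂ m (C c) = Polynomial.C (C c) := by
      intro c
      simp [finSuccEquiv_apply]
    simp only [Function.comp_apply, θ, lin, map_add, finSuccEquiv_X_zero, map_sum, map_mul,
      finSuccEquiv_X_succ, map_neg, sub_neg_eq_add, hC]
  rw [hprod] at hdvd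
  obtain ⟨g, hg⟩ := hdvd
  refine ⟨(finSuccEquiv ℂ m).symm g, (finSuccEquiv ℂ m).injective ?_⟩
  rw [map_mul, AlgEquiv.apply_symm_apply]
  exact hg

/-! ### The main theorem -/

lemma consU_thr {m r : ℕ} (ξ w : Fin m → ℂ) (u : Fin r × Fin m → ℂ) :
    consU (Fin.cases (motive := fun _ => ℂ) (-∑ j, w j * ξ j) w) (thr ξ u) =
      thr ξ (fun ij : Fin (r+1) × Fin m => Fin.cases (motive := fun _ => ℂ) (w ij.2)
        (fun i => u (i, ij.2)) ij.1) := by
  funext ⟨i, j⟩
  refine Fin.cases ?_ (fun i => ?_) i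
  · refine Fin.cases ?_ (fun j => ?_) j <;> simp [consU, thr]
  · refine Fin.cases ?_ (fun j => ?_) j <;> simp [consU, thr]

lemma ringHom_aeval {ι : Type} {A B : Type} [CommRing A] [CommRing B] (φ : A →+* B) (x : ι → A)
    (Q : MvPolynomial ι ℤ) : aeval (fun i => φ (x i)) Q = φ (aeval x Q) := by
  have h : (aeval (fun i => φ (x i)) : MvPolynomial ι ℤ →ₐ[ℤ] B).toRingHom =
      φ.comp (aeval x : MvPolynomial ι ℤ →ₐ[ℤ] A).toRingHom := by
    refine MvPolynomial.ringHom_ext (by intro n; simp) (by intro i; simp)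
  exact congrArg (fun ψ : MvPolynomial ι ℤ →+* B => ψ Q) h

theorem genSplit : SGenSplit := by
  intro m r ξ F hF
  classical
  set k0 : Subfield ℂ := Subfield.closure (Set.range ξ) with hk0
  have hξ : ∀ j, ξ j ∈ k0 := fun j => Subfield.subset_closure ⟨j, rfl⟩
  haveI : Countable k0 := by
    rw [← Cardinal.mk_le_aleph0_iff]
    refine (Subfield.cardinalMk_closure_le_max (Set.range ξ)).trans ?_
    exact max_le Cardinal.mk_le_aleph0 le_rfl
  obtain ⟨v, hv⟩ := exists_generic k0 (Fin (r+1) × Fin m)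
  let u : Fin r × Fin m → ℂ := fun ij => v (ij.1.succ, ij.2)
  have hu : AlgebraicIndependent k0 u := hv.comp (fun ij : Fin r × Fin m => (ij.1.succ, ij.2)) (by
    rintro ⟨a, b⟩ ⟨a', b'⟩ hab
    simp only [Prod.mk.injEq] at hab
    exact Prod.ext (Fin.succ_injective _ hab.1) hab.2)
  set U : Fin r × Fin (m+1) → ℂ := thr ξ u with hUdef
  have hinj : ∀ G : MvPolynomial (Fin r × Fin (m+1)) ℤ, aeval U G = 0 → G = 0 :=
    inj_of_chow hF.chow k0 hξ u hu
  have hU : AlgebraicIndependent ℤ U := algebraicIndependent_iff.2 hinj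
  set k : Subfield ℂ := Subfield.closure (Set.range U) with hk
  have halg : ∀ j, IsAlgebraic k (ξ j) := isAlgebraic_of_dim hF.dim u hU
  let L : IntermediateField k ℂ := IntermediateField.adjoin k (Set.range ξ)
  haveI : FiniteDimensional k L := by
    haveI : Finite (Set.range ξ) := inferInstance
    refine IntermediateField.finiteDimensional_adjoin ?_
    rintro _ ⟨j, rfl⟩
    exact (halg j).isIntegral
  let ξL : Fin m → L := fun j => ⟨ξ j, IntermediateField.subset_adjoin k _ ⟨j, rfl⟩⟩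
  let p' : (L →ₐ[k] ℂ) → Fin m → ℂ := fun σ j => σ (ξL j)
  let Uk : Fin r × Fin (m+1) → k := fun ij => ⟨U ij, Subfield.subset_closure ⟨ij, rfl⟩⟩
  have hp' : Function.Injective p' := by
    intro σ τ h
    refine IntermediateField.algHom_ext_of_eq_adjoin (F := k) (E := ℂ) (S := L)
      (s := Set.range ξ) rfl ?_
    rintro _ ⟨j, rfl⟩
    exact congrFun h j
  have hinc : ∀ i, U (i, 0) + ∑ j : Fin m, U (i, j.succ) * ξ j = 0 := by
    intro i
    simp [hUdef, thr]
  have hinc' : ∀ (σ : L →ₐ[k] ℂ) i, U (i, 0) + ∑ j : Fin m, U (i, j.succ) * p' σ j = 0 := by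
    intro σ i
    have h1 : algebraMap k L (Uk (i, 0)) + ∑ j : Fin m, algebraMap k L (Uk (i, j.succ)) * ξL j =
        0 := by
      apply Subtype.ext
      push_cast
      exact hinc i
    have h2 := congrArg σ h1
    simp only [map_add, map_sum, map_mul, map_zero, AlgHom.commutes] at h2
    exact h2
  have hξL : ∀ Q : MvPolynomial (Fin m) ℤ, ((aeval ξL Q : L) : ℂ) = aeval ξ Q := fun Q =>
    (ringHom_aeval (algebraMap L ℂ) ξL Q).symm
  have hσQ : ∀ (σ : L →ₐ[k] ℂ) (Q : MvPolynomial (Fin m) ℤ), aeval (p' σ) Q = σ (aeval ξL Q) :=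
    fun σ Q => ringHom_aeval σ.toRingHom ξL Q
  have hconj : ∀ (σ : L →ₐ[k] ℂ) (Q : MvPolynomial (Fin m) ℤ),
      aeval (p' σ) Q = 0 ↔ aeval ξ Q = 0 := by
    intro σ Q
    rw [hσQ, map_eq_zero, ← hξL]
    norm_cast
  have hnorm : ∀ x : L, ∏ σ : L →ₐ[k] ℂ, σ x ∈ k := by
    intro x
    rw [← Algebra.norm_eq_prod_embeddings k ℂ x]
    exact (Algebra.norm k x).2
  -- the specialised Chow form
  let FU : MvPolynomial (Fin (m+1)) ℂ := spec U (regroup m r F)
  have hFUe : ∀ w : Fin (m+1) → ℂ, eval w FU = aeval (consU w U) F := fun w =>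
    eval_spec_regroup U w F
  have hspec : Function.Injective (spec (m := m) U) := by
    refine map_injective _ ?_
    intro x y hxy
    have := hinj (x - y) (by rw [map_sub]; exact sub_eq_zero.2 hxy)
    exact sub_eq_zero.1 this
  have hFU0 : FU ≠ 0 := by
    intro h0
    have h1 : regroup m r F = 0 := hspec (by rw [map_zero]; exact h0)
    have h2 := ungroup_regroup F
    rw [h1, map_zero] at h2
    exact hF.chow.1 h2.symm
  have hthr0 : ∀ w : Fin m → ℂ, aeval (consU (Fin.cases (motive := fun _ => ℂ)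
      (-∑ j, w j * ξ j) w) U) F = 0 := by
    intro w
    rw [hUdef, consU_thr]
    exact (hF.chow.2 F).2 dvd_rfl _
  have hvan : ∀ (σ : L →ₐ[k] ℂ) (w : Fin m → ℤ), eval (Fin.cases (motive := fun _ => ℂ)
      (-∑ j, (w j : ℂ) * p' σ j) (fun j => (w j : ℂ))) FU = 0 := by
    intro σ w
    rw [hFUe]
    let vL : Fin (r+1) × Fin (m+1) → L := fun ij => Fin.cases (motive := fun _ => L)
      (Fin.cases (motive := fun _ => L) (-∑ j, (w j : L) * ξL j) (fun j => (w j : L)) ij.2)
      (fun i => algebraMap k L (Uk (i, ij.2))) ij.1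
    have h1 : (fun ij => algebraMap L ℂ (vL ij)) = consU (Fin.cases (motive := fun _ => ℂ)
        (-∑ j, (w j : ℂ) * ξ j) (fun j => (w j : ℂ))) U := by
      funext ⟨i, j⟩
      refine Fin.cases ?_ (fun i => ?_) i
      · refine Fin.cases ?_ (fun j => ?_) j
        · simp only [vL, consU, Fin.cases_zero, map_neg, map_sum, map_mul, map_intCast]
          rfl
        · simp [vL, consU]
      · simp only [vL, consU, Fin.cases_succ]
        rfl
    have h2 : (fun ij => σ.toRingHom (vL ij)) = consU (Fin.cases (motive := fun _ => ℂ)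
        (-∑ j, (w j : ℂ) * p' σ j) (fun j => (w j : ℂ))) U := by
      funext ⟨i, j⟩
      refine Fin.cases ?_ (fun i => ?_) i
      · refine Fin.cases ?_ (fun j => ?_) j
        · simp only [vL, consU, Fin.cases_zero, map_neg, map_sum, map_mul, map_intCast]
          rfl
        · simp [vL, consU]
      · simp only [vL, consU, Fin.cases_succ]
        exact σ.commutes _
    rw [← h2, ringHom_aeval]
    have h3 := hthr0 (fun j => (w j : ℂ))
    rw [← h1, ringHom_aeval, map_eq_zero] at h3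
    rw [h3, map_zero]
  let N : MvPolynomial (Fin (m+1)) ℂ := ∏ σ, lin (p' σ)
  have hNe : ∀ w, eval w N = ∏ σ, (w 0 + ∑ j : Fin m, w j.succ * p' σ j) := eval_prod_lin p'
  obtain ⟨h, hh⟩ : N ∣ FU := prod_lin_dvd p' hp' FU hFU0 hvan
  have hN0 : N ≠ 0 := by
    rintro h0
    exact hFU0 (by rw [hh, h0, zero_mul])
  have hNk : ∀ d, coeff d N ∈ k := by
    refine coeff_mem_of_values N fun w => ?_
    rw [hNe]
    have : ∀ σ : L →ₐ[k] ℂ, ((w 0 : ℂ) + ∑ j : Fin m, (w j.succ : ℂ) * p' σ j) =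
        σ (algebraMap k L (w 0) + ∑ j : Fin m, algebraMap k L (w j.succ) * ξL j) := by
      intro σ
      simp only [map_add, map_sum, map_mul, AlgHom.commutes]
      rfl
    rw [Finset.prod_congr rfl fun σ _ => this σ]
    exact hnorm _
  obtain ⟨b, P', hb, hP'⟩ := exists_clear U N hNk
  have hbU : aeval U b ≠ 0 := fun h0 => hb (hinj b h0)
  have hFd : F ∣ ungroup m r P' := by
    rw [← hF.chow.2]
    refine gen_vanish ξ k0 hξ v hv _ ?_
    have h1 : thr ξ v = consU (Fin.cases (motive := fun _ => ℂ)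
      (-∑ j, v (0, j) * ξ j) (fun j => v (0, j))) U := by
      rw [hUdef, consU_thr]
      congr 1
      funext ⟨i, j⟩
      refine Fin.cases ?_ (fun i => ?_) i <;> rfl
    rw [h1, ← eval_spec_regroup, regroup_ungroup]
    change eval _ (MvPolynomial.map _ P') = 0
    rw [hP', map_mul, hNe]
    have h2 : ∏ σ : L →ₐ[k] ℂ, ((Fin.cases (motive := fun _ => ℂ)
      (-∑ j, v (0, j) * ξ j) (fun j => v (0, j)) (0 : Fin (m+1))) + ∑ j : Fin m,
        (Fin.cases (motive := fun _ => ℂ)
      (-∑ j, v (0, j) * ξ j) (fun j => v (0, j)) j.succ) * p' σ j) = 0 := by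
      refine Finset.prod_eq_zero (Finset.mem_univ (IntermediateField.val L)) ?_
      simp only [Fin.cases_zero, Fin.cases_succ]
      exact neg_add_cancel _
    rw [h2, mul_zero]
  obtain ⟨H, hH⟩ := hFd
  have hCb : C (aeval U b) = h * spec U (regroup m r H) := by
    have h1 : P' = regroup m r F * regroup m r H := by
      rw [← map_mul, ← hH, regroup_ungroup]
    have h2 : C (aeval U b) * N = FU * spec U (regroup m r H) := by
      rw [← hP', h1]
      exact map_mul (spec U) _ _
    rw [hh, mul_assoc, mul_comm] at h2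
    exact mul_left_cancel₀ hN0 h2
  have hne : h ≠ 0 ∧ spec U (regroup m r H) ≠ 0 := by
    constructor
    · rintro rfl
      rw [zero_mul] at hCb
      exact hbU (C_eq_zero.1 hCb)
    · intro h0
      rw [h0, mul_zero] at hCb
      exact hbU (C_eq_zero.1 hCb)
  have hconst : h = C (coeff 0 h) := by
    rw [← totalDegree_eq_zero_iff_eq_C]
    have h1 := congrArg totalDegree hCb
    rw [totalDegree_C, totalDegree_mul_of_isDomain hne.1 hne.2] at h1
    omega
  set c : ℂ := coeff 0 h with hc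
  let a : MvPolynomial (Fin r × Fin (m+1)) ℤ := aeval (R := ℤ)
    (fun ij : Fin (r+1) × Fin (m+1) => Fin.cases (motive := fun _ =>
      MvPolynomial (Fin r × Fin (m+1)) ℤ) (if ij.2 = 0 then 1 else 0)
      (fun i => X (i, ij.2)) ij.1) F
  have ha : aeval U a = c := by
    have h1 : aeval U a = aeval (consU (fun j => if j = 0 then 1 else 0) U) F := by
      have h2 := ringHom_aeval (aeval U : MvPolynomial (Fin r × Fin (m+1)) ℤ →ₐ[ℤ] ℂ).toRingHom
        (fun ij : Fin (r+1) × Fin (m+1) => Fin.cases (motive := fun _ =>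
          MvPolynomial (Fin r × Fin (m+1)) ℤ) (if ij.2 = 0 then 1 else 0)
          (fun i => X (i, ij.2)) ij.1) F
      refine Eq.trans h2.symm ?_
      congr 2
      funext ⟨i, j⟩
      refine Fin.cases ?_ (fun i => ?_) i
      · simp only [consU, Fin.cases_zero]
        split_ifs <;> simp
      · simp [consU]
    rw [h1, ← hFUe, hh, map_mul, hNe, hconst, eval_C]
    simp [Fin.succ_ne_zero]
  let e := Fintype.equivFin (L →ₐ[k] ℂ)
  refine ⟨⟨U, Fintype.card (L →ₐ[k] ℂ), fun s => p' (e.symm s), a, hinj, ?_, ?_, ?_, ?_, ?_⟩⟩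
  · exact Fintype.card_pos_iff.2 ⟨IntermediateField.val L⟩
  · exact fun s Q => hconj _ Q
  · exact fun s i => hinc' _ i
  · intro w
    rw [← hFUe, hh, map_mul, hNe, hconst, eval_C, ha, mul_comm]
    congr 1
    exact (Equiv.prod_comp e.symm (fun σ => (w 0 + ∑ j : Fin m, w j.succ * p' σ j))).symm
  · intro Q
    obtain ⟨num, den, hden, heq⟩ := exists_frac U (hnorm (aeval ξL Q))
    refine ⟨num, den, hden, ?_⟩
    rw [← heq]
    congr 1
    rw [Equiv.prod_comp e.symm (fun σ => aeval (p' σ) Q)]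
    exact Finset.prod_congr rfl fun σ _ => hσQ σ Q

end Pool.Agent.Helper30.LR
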