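import Pool.Agent.Helper27.SE.Defs

/-!
Sign vectors of polynomials along a circle of the unit sphere (MP_d38fbf_co, module SE-ARC).
-/

set_option autoImplicit false

open Pool.Agent.Helper27.SE Polynomial

namespace Pool.Agent.Helper30.SE

/-! ### Rational functions with denominator a power of `1 + t ^ 2` -/

/-- `g t * (1 + t ^ 2) ^ m` is a polynomial of degree at most `2 m`. -/
def Rat (m : ℕ) (g : ℝ → ℝ) : Prop :=
  ∃ p : ℝ[X], p.natDegree ≤ 2 * m ∧ ∀ t, g t * (1 + t ^ 2) ^ m = p.eval t

lemma natDegree_den (m : ℕ) : ((1 + X ^ 2 : ℝ[X]) ^ m).natDegree ≤ 2 * m := by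
  refine natDegree_pow_le.trans ?_
  have : (1 + X ^ 2 : ℝ[X]).natDegree ≤ 2 := by compute_degree
  calc m * (1 + X ^ 2 : ℝ[X]).natDegree ≤ m * 2 := Nat.mul_le_mul_left _ this
    _ = 2 * m := by ring

lemma Rat.mono {m n : ℕ} {g : ℝ → ℝ} (h : Rat m g) (hmn : m ≤ n) : Rat n g := by
  obtain ⟨p, hp, he⟩ := h
  refine ⟨p * (1 + X ^ 2) ^ (n - m), ?_, ?_⟩
  · refine natDegree_mul_le.trans ?_
    have := natDegree_den (n - m)
    omega
  · intro t
    rw [eval_mul, ← he t, eval_pow, eval_add, eval_one, eval_pow, eval_X, mul_assoc, ← pow_add]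
    congr 2
    omega

lemma Rat.const (c : ℝ) : Rat 0 (fun _ => c) := by
  refine ⟨C c, by simp, by intro t; simp⟩

lemma Rat.add {m : ℕ} {g h : ℝ → ℝ} (hg : Rat m g) (hh : Rat m h) :
    Rat m (fun t => g t + h t) := by
  obtain ⟨p, hp, he⟩ := hg
  obtain ⟨q, hq, hf⟩ := hh
  refine ⟨p + q, ?_, ?_⟩
  · exact (natDegree_add_le _ _).trans (max_le hp hq)
  · intro t
    rw [add_mul, he, hf, eval_add]

lemma Rat.mul {m n : ℕ} {g h : ℝ → ℝ} (hg : Rat m g) (hh : Rat n h) :
    Rat (m + n) (fun t => g t * h t) := by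
  obtain ⟨p, hp, he⟩ := hg
  obtain ⟨q, hq, hf⟩ := hh
  refine ⟨p * q, ?_, ?_⟩
  · refine natDegree_mul_le.trans ?_
    omega
  · intro t
    rw [eval_mul, ← he, ← hf, pow_add]
    ring

lemma Rat.pow {m : ℕ} {g : ℝ → ℝ} (hg : Rat m g) (k : ℕ) :
    Rat (m * k) (fun t => g t ^ k) := by
  induction k with
  | zero => simpa using Rat.const 1
  | succ k ih =>
    have := ih.mul hg
    simpa [pow_succ, Nat.mul_succ] using this

lemma Rat.sum {ι : Type*} {m : ℕ} (s : Finset ι) {g : ι → ℝ → ℝ} (hg : ∀ i ∈ s, Rat m (g i)) :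
    Rat m (fun t => ∑ i ∈ s, g i t) := by
  classical
  induction s using Finset.induction_on with
  | empty => simpa using (Rat.const 0).mono (Nat.zero_le m)
  | insert a s ha ih =>
    have h1 := hg a (Finset.mem_insert_self a s)
    have h2 := ih (fun i hi => hg i (Finset.mem_insert_of_mem hi))
    have := h1.add h2
    simpa [Finset.sum_insert ha] using this

lemma Rat.eval {g : ℝ → ℝ} (hg : Rat 1 g) {k : ℕ} (f : ℝ[X]) (hf : f.natDegree ≤ k) :
    Rat k (fun t => f.eval (g t)) := by
  have : (fun t => f.eval (g t)) = fun t => ∑ i ∈ Finset.range (k + 1), f.coeff i * g t ^ i := by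
    funext t
    exact eval_eq_sum_range' (Nat.lt_succ_of_le hf) _
  rw [this]
  refine Rat.sum _ ?_
  intro i hi
  have hi' : i ≤ k := by
    have := Finset.mem_range.mp hi
    omega
  have h1 := (Rat.const (f.coeff i)).mul (hg.pow i)
  exact h1.mono (by omega)

lemma Rat.ev {α : ℝ → E3} (h0 : Rat 1 (fun t => α t 0)) (h1 : Rat 1 (fun t => α t 1)) {k : ℕ}
    {f : ℝ[X][X]} (hf : BD k f) : Rat (2 * k) (fun t => ev f (α t)) := by
  have : (fun t => Pool.Agent.Helper27.SE.ev f (α t)) = fun t => ∑ i ∈ Finset.range (k + 1),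
      (f.coeff i).eval (α t 0) * (α t 1) ^ i := by
    funext t
    unfold Pool.Agent.Helper27.SE.ev Polynomial.evalEval
    rw [eval_eq_sum_range' (Nat.lt_succ_of_le hf.1), eval_finsetSum]
    refine Finset.sum_congr rfl ?_
    intro i _
    simp
  rw [this]
  refine Rat.sum _ ?_
  intro i hi
  have hi' : i ≤ k := by
    have := Finset.mem_range.mp hi
    omega
  have h2 := (h0.eval (f.coeff i) (hf.2 i)).mul (h1.pow i)
  exact h2.mono (by omega)

/-! ### The one dimensional count -/

lemma card_image_le_of_factor {A B D : Type*} [DecidableEq B] [DecidableEq D]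
    (S : Finset A) (f : A → B) (g : A → D)
    (h : ∀ a ∈ S, ∀ b ∈ S, g a = g b → f a = f b) : (S.image f).card ≤ (S.image g).card := by
  classical
  rcases S.eq_empty_or_nonempty with rfl | ⟨a0, ha0⟩
  · simp
  let k : D → B := fun d => if hd : ∃ a ∈ S, g a = d then f hd.choose else f a0
  have hk : ∀ a ∈ S, k (g a) = f a := by
    intro a ha
    have hd : ∃ b ∈ S, g b = g a := ⟨a, ha, rfl⟩
    have : k (g a) = f hd.choose := by
      simp only [k]
      rw [dif_pos hd]
    rw [this]
    exact h _ hd.choose_spec.1 _ ha hd.choose_spec.2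
  have : S.image f = (S.image g).image k := by
    rw [Finset.image_image]
    refine Finset.image_congr ?_
    intro a ha
    exact (hk a ha).symm
  rw [this]
  exact Finset.card_image_le

lemma sign_const (p : ℝ[X]) (x y : ℝ) (hxy : x ≤ y)
    (h : ∀ z, x ≤ z → z ≤ y → p.eval z ≠ 0) : 0 < p.eval x ↔ 0 < p.eval y := by
  have hc : ContinuousOn (fun z => p.eval z) (Set.Icc x y) := p.continuous.continuousOn
  constructor
  · intro hx
    by_contra hy
    have hy' : p.eval y ≤ 0 := not_lt.mp hy
    have := intermediate_value_Icc' hxy hc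
    obtain ⟨z, hz, hz0⟩ := this ⟨hy', hx.le⟩
    exact h z hz.1 hz.2 hz0
  · intro hy
    by_contra hx
    have hx' : p.eval x ≤ 0 := not_lt.mp hx
    have := intermediate_value_Icc hxy hc
    obtain ⟨z, hz, hz0⟩ := this ⟨hx', hy.le⟩
    exact h z hz.1 hz.2 hz0

open Classical in
lemma oneD {ι : Type*} [Fintype ι] (p : ι → ℝ[X]) (hp : ∀ i, p i ≠ 0) (T : Finset ℝ) :
    (T.filter (fun t => ∃ i, (p i).eval t = 0)).card ≤ ∑ i, (p i).natDegree ∧
    ((T.filter (fun t => ∀ i, (p i).eval t ≠ 0)).image
      (fun t i => decide (0 < (p i).eval t))).card ≤ ∑ i, (p i).natDegree + 1 := by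
  set R : Finset ℝ := (∏ i, p i).roots.toFinset with hR
  have hne : (∏ i, p i) ≠ 0 := Finset.prod_ne_zero_iff.mpr (fun i _ => hp i)
  have hcard : R.card ≤ ∑ i, (p i).natDegree := by
    calc R.card ≤ Multiset.card (∏ i, p i).roots := Multiset.toFinset_card_le _
      _ ≤ (∏ i, p i).natDegree := card_roots' _
      _ ≤ ∑ i, (p i).natDegree := natDegree_prod_le _ _
  have hmem : ∀ t, t ∈ R ↔ ∃ i, (p i).eval t = 0 := by
    intro t
    rw [hR, Multiset.mem_toFinset, mem_roots hne, IsRoot.def, eval_prod, Finset.prod_eq_zero_iff]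
    simp
  constructor
  · refine (Finset.card_le_card ?_).trans hcard
    intro t ht
    exact (hmem t).mpr (Finset.mem_filter.mp ht).2
  · have h1 : ((T.filter (fun t => ∀ i, (p i).eval t ≠ 0)).image
        (fun t i => decide (0 < (p i).eval t))).card ≤
        ((T.filter (fun t => ∀ i, (p i).eval t ≠ 0)).image
        (fun t => (R.filter (fun r => r < t)).card)).card := by
      refine card_image_le_of_factor _ _ _ ?_
      have key : ∀ a b : ℝ, a ≤ b → (∀ i, (p i).eval a ≠ 0) → (∀ i, (p i).eval b ≠ 0) →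
          (R.filter (fun r => r < a)).card = (R.filter (fun r => r < b)).card →
          (fun i => decide (0 < (p i).eval a)) = (fun i => decide (0 < (p i).eval b)) := by
        intro a b hab ha hb hc
        have hsub : R.filter (fun r => r < a) ⊆ R.filter (fun r => r < b) := by
          intro r hr
          rw [Finset.mem_filter] at hr ⊢
          exact ⟨hr.1, hr.2.trans_le hab⟩
        have heq := Finset.eq_of_subset_of_card_le hsub hc.ge
        funext i
        have : 0 < (p i).eval a ↔ 0 < (p i).eval b := by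
          refine sign_const (p i) a b hab ?_
          intro z hz1 hz2 hz0
          have hzR : z ∈ R := (hmem z).mpr ⟨i, hz0⟩
          rcases hz2.eq_or_lt with h | h
          · exact hb i (h ▸ hz0)
          · have : z ∈ R.filter (fun r => r < b) := Finset.mem_filter.mpr ⟨hzR, h⟩
            rw [← heq, Finset.mem_filter] at this
            exact absurd this.2 (not_lt.mpr hz1)
        simp [this]
      intro a ha b hb hc
      rw [Finset.mem_filter] at ha hb
      rcases le_total a b with hab | hab
      · exact key a b hab ha.2 hb.2 hc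
      · exact (key b a hab hb.2 ha.2 hc.symm).symm
    refine h1.trans ?_
    have h2 : (T.filter (fun t => ∀ i, (p i).eval t ≠ 0)).image
        (fun t => (R.filter (fun r => r < t)).card) ⊆ Finset.range (R.card + 1) := by
      intro n hn
      rw [Finset.mem_image] at hn
      obtain ⟨t, _, rfl⟩ := hn
      rw [Finset.mem_range]
      exact Nat.lt_succ_of_le (Finset.card_filter_le _ _)
    refine (Finset.card_le_card h2).trans ?_
    rw [Finset.card_range]
    omega

/-! ### The parametrisation of the circle -/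

open scoped RealInnerProductSpace in
lemma frame (s : E3) (hs : s ≠ 0) : ∃ u w : E3, ⟪u, u⟫ = 1 ∧ ⟪w, w⟫ = 1 ∧ ⟪u, w⟫ = 0 ∧
    ⟪s, u⟫ = 0 ∧ ⟪s, w⟫ = 0 ∧ ∀ v : E3, ⟪s, v⟫ = 0 → v = ⟪u, v⟫ • u + ⟪w, v⟫ • w := by
  have hfr : Module.finrank ℝ (ℝ ∙ s)ᗮ = 2 := by
    haveI : Fact (Module.finrank ℝ E3 = 2 + 1) := ⟨by simp⟩
    exact Submodule.finrank_orthogonal_span_singleton hs
  let b : OrthonormalBasis (Fin 2) ℝ (ℝ ∙ s)ᗮ :=
    (stdOrthonormalBasis ℝ (ℝ ∙ s)ᗮ).reindex (finCongr hfr)
  have hb := b.orthonormal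
  have hmem : ∀ x : (ℝ ∙ s)ᗮ, ⟪s, (x : E3)⟫ = 0 := by
    intro x
    exact (Submodule.mem_orthogonal_singleton_iff_inner_right.mp x.2)
  refine ⟨b 0, b 1, ?_, ?_, ?_, hmem _, hmem _, ?_⟩
  · have := (orthonormal_iff_ite.mp hb) 0 0
    rw [Submodule.coe_inner] at this
    rw [this]; simp
  · have := (orthonormal_iff_ite.mp hb) 1 1
    rw [Submodule.coe_inner] at this
    rw [this]; simp
  · have := (orthonormal_iff_ite.mp hb) 0 1
    rw [Submodule.coe_inner] at this
    rw [this]; simp
  · intro v hv
    have hv' : v ∈ (ℝ ∙ s)ᗮ := Submodule.mem_orthogonal_singleton_iff_inner_right.mpr hv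
    have h := b.sum_repr' ⟨v, hv'⟩
    have h2 := congrArg (Subtype.val) h
    rw [Fin.sum_univ_two] at h2
    simpa using h2.symm

open scoped RealInnerProductSpace in
lemma param (s : E3) (hs : s ≠ 0) : (∃ c : E3, ∀ a, On s a → a = c) ∨
    ∃ (α : ℝ → E3) (c : E3), (∀ t, On s (α t)) ∧ Function.Injective α ∧
      (∀ a, On s a → a = c ∨ ∃ t, α t = a) ∧ (∀ i : Fin 3, Rat 1 (fun t => α t i)) := by
  obtain ⟨u, w, huu, hww, huw, hsu, hsw, hspan⟩ := frame s hs
  have hwu : ⟪w, u⟫ = 0 := by rw [real_inner_comm]; exact huw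
  have hus : ⟪u, s⟫ = 0 := by rw [real_inner_comm]; exact hsu
  have hws : ⟪w, s⟫ = 0 := by rw [real_inner_comm]; exact hsw
  -- the decomposition
  have hdec : ∀ a, On s a → ∃ x y : ℝ, a = (1 / 2 : ℝ) • s + x • u + y • w ∧
      x ^ 2 + y ^ 2 = 1 - ⟪s, s⟫ / 4 := by
    intro a ha
    have ha1 : ⟪a, a⟫ = 1 := by
      rw [real_inner_self_eq_norm_sq, ha.1]; norm_num
    have ha2 : ⟪s - a, s - a⟫ = 1 := by
      rw [real_inner_self_eq_norm_sq, ha.2]; norm_num
    have ha3 : ⟪s, a⟫ = ⟪s, s⟫ / 2 := by
      rw [inner_sub_left, inner_sub_right, inner_sub_right, real_inner_comm s a, ha1] at ha2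
      linarith
    have hv := hspan (a - (1 / 2 : ℝ) • s) (by
      rw [inner_sub_right, inner_smul_right, ha3]; ring)
    refine ⟨⟪u, a - (1 / 2 : ℝ) • s⟫, ⟪w, a - (1 / 2 : ℝ) • s⟫, ?_, ?_⟩
    · rw [add_assoc, ← hv]; abel
    · set x := ⟪u, a - (1 / 2 : ℝ) • s⟫ with hx
      set y := ⟪w, a - (1 / 2 : ℝ) • s⟫ with hy
      have h1 : ⟪a - (1 / 2 : ℝ) • s, a - (1 / 2 : ℝ) • s⟫ = x ^ 2 + y ^ 2 := by
        rw [hv]
        simp only [inner_add_left, inner_add_right, inner_smul_left, inner_smul_right, huu, hww,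
          huw, hwu]
        simp
        ring
      rw [← h1]
      rw [inner_sub_left, inner_sub_right, inner_sub_right, inner_smul_left, inner_smul_left,
        inner_smul_right, inner_smul_right, ha1, real_inner_comm s a, ha3]
      simp
      ring
  by_cases hρ : 1 - ⟪s, s⟫ / 4 ≤ 0
  · left
    refine ⟨(1 / 2 : ℝ) • s, ?_⟩
    intro a ha
    obtain ⟨x, y, h1, h2⟩ := hdec a ha
    have hx : x = 0 := by nlinarith [sq_nonneg x, sq_nonneg y]
    have hy : y = 0 := by nlinarith [sq_nonneg x, sq_nonneg y]
    rw [h1, hx, hy]; simp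
  · right
    have hρ' : 0 < 1 - ⟪s, s⟫ / 4 := not_le.mp hρ
    obtain ⟨ρ, hρpos, hρsq⟩ : ∃ ρ : ℝ, 0 < ρ ∧ ρ ^ 2 = 1 - ⟪s, s⟫ / 4 :=
      ⟨Real.sqrt (1 - ⟪s, s⟫ / 4), Real.sqrt_pos.mpr hρ', Real.sq_sqrt hρ'.le⟩
    have hden : ∀ t : ℝ, (1 + t ^ 2) ≠ 0 := by intro t; positivity
    have hOn : ∀ x y : ℝ, x ^ 2 + y ^ 2 = 1 - ⟪s, s⟫ / 4 →
        On s ((1 / 2 : ℝ) • s + x • u + y • w) := by
      intro x y hxy
      constructor
      · have : ‖(1 / 2 : ℝ) • s + x • u + y • w‖ ^ 2 = 1 := by
          rw [← real_inner_self_eq_norm_sq]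
          simp only [inner_add_left, inner_add_right, inner_smul_left, inner_smul_right, huu, hww,
            huw, hwu, hsu, hsw, hus, hws]
          rw [real_inner_self_eq_norm_sq] at hxy
          simp
          linarith
        nlinarith [norm_nonneg ((1 / 2 : ℝ) • s + x • u + y • w)]
      · have h0 : s - ((1 / 2 : ℝ) • s + x • u + y • w) =
            (1 / 2 : ℝ) • s + (-x) • u + (-y) • w := by
          module
        have : ‖s - ((1 / 2 : ℝ) • s + x • u + y • w)‖ ^ 2 = 1 := by
          rw [h0, ← real_inner_self_eq_norm_sq]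
          simp only [inner_add_left, inner_add_right, inner_smul_left, inner_smul_right, huu, hww,
            huw, hwu, hsu, hsw, hus, hws]
          rw [real_inner_self_eq_norm_sq] at hxy
          simp
          linarith
        nlinarith [norm_nonneg (s - ((1 / 2 : ℝ) • s + x • u + y • w))]
    refine ⟨fun t => (1 / 2 : ℝ) • s + (ρ * ((1 - t ^ 2) / (1 + t ^ 2))) • u +
      (ρ * (2 * t / (1 + t ^ 2))) • w, (1 / 2 : ℝ) • s + (-ρ) • u, ?_, ?_, ?_, ?_⟩
    · intro t
      refine hOn _ _ ?_
      rw [← hρsq]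
      have := hden t
      field_simp
      ring
    · intro t t' htt
      have e1 : ρ * ((1 - t ^ 2) / (1 + t ^ 2)) = ρ * ((1 - t' ^ 2) / (1 + t' ^ 2)) := by
        have := congrArg (fun z => ⟪u, z⟫) htt
        simpa only [inner_add_right, inner_smul_right, huu, huw, hus, mul_zero, mul_one, zero_add,
          add_zero] using this
      have e2 : ρ * (2 * t / (1 + t ^ 2)) = ρ * (2 * t' / (1 + t' ^ 2)) := by
        have := congrArg (fun z => ⟪w, z⟫) htt
        simpa only [inner_add_right, inner_smul_right, hww, hwu, hws, mul_zero, mul_one, zero_add,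
          add_zero] using this
      have e1' := mul_left_cancel₀ hρpos.ne' e1
      have e2' := mul_left_cancel₀ hρpos.ne' e2
      have h1 := hden t
      have h2 := hden t'
      rw [div_eq_div_iff h1 h2] at e1' e2'
      have h3 : t ^ 2 = t' ^ 2 := by nlinarith
      rw [h3] at e2'
      have := mul_right_cancel₀ h2 e2'
      linarith
    · intro a ha
      obtain ⟨x, y, h1, h2⟩ := hdec a ha
      rw [← hρsq] at h2
      by_cases hx : ρ + x = 0
      · left
        have hx' : x = -ρ := by linarith
        have hy : y = 0 := by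
          have : y ^ 2 = 0 := by rw [hx'] at h2; nlinarith
          exact pow_eq_zero_iff (two_ne_zero) |>.mp this
        rw [h1, hx', hy]; simp
      · right
        refine ⟨y / (ρ + x), ?_⟩
        have hd : (ρ + x) ^ 2 + y ^ 2 = 2 * ρ * (ρ + x) := by nlinarith
        have hd2 : (ρ + x) ^ 2 - y ^ 2 = 2 * x * (ρ + x) := by nlinarith
        have g1 : 1 + (y / (ρ + x)) ^ 2 = 2 * ρ / (ρ + x) := by
          rw [div_pow, eq_div_iff hx]
          have : (1 + y ^ 2 / (ρ + x) ^ 2) * (ρ + x) = ((ρ + x) ^ 2 + y ^ 2) / (ρ + x) := by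
            field_simp
          rw [this, hd]
          field_simp
        have g2 : 1 - (y / (ρ + x)) ^ 2 = 2 * x / (ρ + x) := by
          rw [div_pow, eq_div_iff hx]
          have : (1 - y ^ 2 / (ρ + x) ^ 2) * (ρ + x) = ((ρ + x) ^ 2 - y ^ 2) / (ρ + x) := by
            field_simp
          rw [this, hd2]
          field_simp
        have hρ0 := hρpos.ne'
        have f1 : ρ * ((1 - (y / (ρ + x)) ^ 2) / (1 + (y / (ρ + x)) ^ 2)) = x := by
          rw [g1, g2]
          field_simp
        have f2 : ρ * (2 * (y / (ρ + x)) / (1 + (y / (ρ + x)) ^ 2)) = y := by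
          rw [g1]
          field_simp
        simp only [f1, f2]
        exact h1.symm
    · intro i
      refine ⟨C (s i / 2) * (1 + X ^ 2) + C (ρ * u i) * (1 - X ^ 2) + C (2 * ρ * w i) * X, ?_, ?_⟩
      · compute_degree
      · intro t
        have := hden t
        simp
        field_simp

/-! ### The two theorems -/

lemma On.symm {s a : E3} (h : On s a) : On s (s - a) := by
  refine ⟨h.2, ?_⟩
  rw [sub_sub_cancel]
  exact h.1

lemma pos_iff_of_mul {x y d : ℝ} (hd : 0 < d) (h : x * d = y) : (0 < x ↔ 0 < y) := by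
  rw [← h]
  exact (mul_pos_iff_of_pos_right hd).symm

lemma zero_iff_of_mul {x y d : ℝ} (hd : 0 < d) (h : x * d = y) : (x = 0 ↔ y = 0) := by
  rw [← h]
  constructor
  · intro h; rw [h, zero_mul]
  · intro h
    rcases mul_eq_zero.mp h with h | h
    · exact h
    · exact absurd h hd.ne'

open Classical in
theorem arc1 {J : ℕ} (P : Fin J → ℝ[X][X]) (k : Fin J → ℕ) (hk : ∀ i, BD (k i) (P i))
    (s : E3) (hs : s ≠ 0) (hfin : ∀ i, {a : E3 | On s a ∧ ev (P i) a = 0}.Finite)
    (X : Finset E3) (hX : ∀ a ∈ X, On s a) :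
    (X.filter (fun a => ¬ (Good P a ∧ Good P (s - a)))).card ≤ 8 * (∑ i, k i) + 2 ∧
    ((X.filter (fun a => Good P a ∧ Good P (s - a))).image
      (fun a => (lab P a, lab P (s - a)))).card ≤ 8 * (∑ i, k i) + 2 := by
  rcases param s hs with ⟨c, hc⟩ | ⟨α, c, hOn, hinj, hsurj, hrat⟩
  · have hX1 : X.card ≤ 1 := Finset.card_le_one.mpr (fun a ha b hb =>
      (hc a (hX a ha)).trans (hc b (hX b hb)).symm)
    constructor
    · have := Finset.card_filter_le X (fun a => ¬ (Good P a ∧ Good P (s - a)))
      omega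
    · have h1 := Finset.card_filter_le X (fun a => (Good P a ∧ Good P (s - a)))
      have h2 := Finset.card_image_le (s := X.filter (fun a => Good P a ∧ Good P (s - a)))
        (f := fun a => (lab P a, lab P (s - a)))
      omega
  · -- the polynomials
    have hrat' : ∀ i : Fin 3, Rat 1 (fun t => (s - α t) i) := by
      intro i
      obtain ⟨p, hp, he⟩ := hrat i
      refine ⟨C (s i) * (1 + Polynomial.X ^ 2) - p, ?_, ?_⟩
      · refine (natDegree_sub_le _ _).trans (max_le ?_ hp)
        compute_degree
      · intro t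
        have := he t
        simp only [pow_one] at this
        simp [← this]
        ring
    have h1 : ∀ i, Rat (2 * k i) (fun t => ev (P i) (α t)) := fun i =>
      Rat.ev (hrat 0) (hrat 1) (hk i)
    have h2 : ∀ i, Rat (2 * k i) (fun t => ev (P i) (s - α t)) := fun i =>
      Rat.ev (α := fun t => s - α t) (hrat' 0) (hrat' 1) (hk i)
    choose p hp hpe using h1
    choose q hq hqe using h2
    have hden : ∀ (t : ℝ) (m : ℕ), 0 < (1 + t ^ 2) ^ m := by intro t m; positivity
    have hp0 : ∀ i, p i ≠ 0 := by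
      intro i h0
      have : Set.range α ⊆ {a : E3 | On s a ∧ ev (P i) a = 0} := by
        rintro _ ⟨t, rfl⟩
        refine ⟨hOn t, ?_⟩
        have := hpe i t
        rw [h0, eval_zero] at this
        exact (zero_iff_of_mul (hden t _) this).mpr rfl
      exact (Set.infinite_range_of_injective hinj) ((hfin i).subset this)
    have hinj' : Function.Injective (fun t => s - α t) := by
      intro t t' h
      exact hinj (sub_right_injective h)
    have hq0 : ∀ i, q i ≠ 0 := by
      intro i h0
      have : Set.range (fun t => s - α t) ⊆ {a : E3 | On s a ∧ ev (P i) a = 0} := by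
        rintro _ ⟨t, rfl⟩
        refine ⟨On.symm (hOn t), ?_⟩
        have := hqe i t
        rw [h0, eval_zero] at this
        exact (zero_iff_of_mul (hden t _) this).mpr rfl
      exact (Set.infinite_range_of_injective hinj') ((hfin i).subset this)
    let r : Fin J ⊕ Fin J → ℝ[X] := Sum.elim p q
    have hr0 : ∀ i, r i ≠ 0 := by
      rintro (i | i)
      · exact hp0 i
      · exact hq0 i
    have hdeg : ∑ i, (r i).natDegree ≤ 8 * ∑ i, k i := by
      rw [Fintype.sum_sum_type]
      simp only [r, Sum.elim_inl, Sum.elim_inr]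
      rw [Finset.mul_sum, ← Finset.sum_add_distrib]
      refine Finset.sum_le_sum ?_
      intro i _
      have := hp i
      have := hq i
      omega
    let T : Finset ℝ := X.preimage α hinj.injOn
    have hT : ∀ t, t ∈ T ↔ α t ∈ X := by
      intro t
      simp [T]
    obtain ⟨c1, c2⟩ := oneD r hr0 T
    have hgood : ∀ t, (Good P (α t) ∧ Good P (s - α t)) ↔ ∀ i, (r i).eval t ≠ 0 := by
      intro t
      constructor
      · rintro ⟨g1, g2⟩ (i | i)
        · exact fun h => g1 i ((zero_iff_of_mul (hden t _) (hpe i t)).mpr h)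
        · exact fun h => g2 i ((zero_iff_of_mul (hden t _) (hqe i t)).mpr h)
      · intro g
        exact ⟨fun i h => g (Sum.inl i) ((zero_iff_of_mul (hden t _) (hpe i t)).mp h),
          fun i h => g (Sum.inr i) ((zero_iff_of_mul (hden t _) (hqe i t)).mp h)⟩
    constructor
    · have hsub : X.filter (fun a => ¬ (Good P a ∧ Good P (s - a))) ⊆
          insert c ((T.filter (fun t => ∃ i, (r i).eval t = 0)).image α) := by
        intro a ha
        rw [Finset.mem_filter] at ha
        rw [Finset.mem_insert, Finset.mem_image]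
        rcases hsurj a (hX a ha.1) with h | ⟨t, rfl⟩
        · exact Or.inl h
        · refine Or.inr ⟨t, ?_, rfl⟩
          rw [Finset.mem_filter]
          refine ⟨(hT t).mpr ha.1, ?_⟩
          have := ha.2
          rw [hgood] at this
          push Not at this
          exact this
      have e1 := Finset.card_le_card hsub
      have e2 := Finset.card_insert_le c ((T.filter (fun t => ∃ i, (r i).eval t = 0)).image α)
      have e3 := Finset.card_image_le (s := T.filter (fun t => ∃ i, (r i).eval t = 0)) (f := α)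
      omega
    · have hsub : (X.filter (fun a => Good P a ∧ Good P (s - a))).image
            (fun a => (lab P a, lab P (s - a))) ⊆
          insert (lab P c, lab P (s - c)) ((T.filter (fun t => ∀ i, (r i).eval t ≠ 0)).image
            (fun t => (lab P (α t), lab P (s - α t)))) := by
        intro l hl
        rw [Finset.mem_image] at hl
        obtain ⟨a, ha, rfl⟩ := hl
        rw [Finset.mem_filter] at ha
        rw [Finset.mem_insert, Finset.mem_image]
        rcases hsurj a (hX a ha.1) with h | ⟨t, rfl⟩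
        · exact Or.inl (by rw [h])
        · refine Or.inr ⟨t, ?_, rfl⟩
          rw [Finset.mem_filter]
          exact ⟨(hT t).mpr ha.1, (hgood t).mp ha.2⟩
      have e1 := Finset.card_le_card hsub
      have e2 := Finset.card_insert_le (lab P c, lab P (s - c))
        ((T.filter (fun t => ∀ i, (r i).eval t ≠ 0)).image
            (fun t => (lab P (α t), lab P (s - α t))))
      have e3 : ((T.filter (fun t => ∀ i, (r i).eval t ≠ 0)).image
            (fun t => (lab P (α t), lab P (s - α t)))).card ≤
          ((T.filter (fun t => ∀ i, (r i).eval t ≠ 0)).image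
            (fun t i => decide (0 < (r i).eval t))).card := by
        refine card_image_le_of_factor _ _ _ ?_
        intro a _ b _ hab
        have h3 : ∀ i, (0 < (r i).eval a ↔ 0 < (r i).eval b) := by
          intro i
          have := congrFun hab i
          simpa using this
        refine Prod.ext ?_ ?_
        · funext i
          have h4 := h3 (Sum.inl i)
          have h5 := pos_iff_of_mul (hden a _) (hpe i a)
          have h6 := pos_iff_of_mul (hden b _) (hpe i b)
          have : (0 < ev (P i) (α a) ↔ 0 < ev (P i) (α b)) := h5.trans (h4.trans h6.symm)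
          simp [lab, this]
        · funext i
          have h4 := h3 (Sum.inr i)
          have h5 := pos_iff_of_mul (hden a _) (hqe i a)
          have h6 := pos_iff_of_mul (hden b _) (hqe i b)
          have : (0 < ev (P i) (s - α a) ↔ 0 < ev (P i) (s - α b)) := h5.trans (h4.trans h6.symm)
          simp [lab, this]
      omega

open Classical in
theorem arc2 {J : ℕ} (P : Fin J → ℝ[X][X]) (k : Fin J → ℕ) (hk : ∀ i, BD (k i) (P i))
    (s : E3) (hs : s ≠ 0) (X : Finset E3) (hX : ∀ a ∈ X, On s a) (hg : ∀ a ∈ X, Good P a) :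
    (X.image (lab P)).card ≤ 8 * (∑ i, k i) + 2 := by
  rcases param s hs with ⟨c, hc⟩ | ⟨α, c, hOn, hinj, hsurj, hrat⟩
  · have hX1 : X.card ≤ 1 := Finset.card_le_one.mpr (fun a ha b hb =>
      (hc a (hX a ha)).trans (hc b (hX b hb)).symm)
    have h2 := Finset.card_image_le (s := X) (f := lab P)
    omega
  · have h1 : ∀ i, Rat (2 * k i) (fun t => ev (P i) (α t)) := fun i =>
      Rat.ev (hrat 0) (hrat 1) (hk i)
    choose p hp hpe using h1
    have hden : ∀ (t : ℝ) (m : ℕ), 0 < (1 + t ^ 2) ^ m := by intro t m; positivity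
    by_cases hp0 : ∀ i, p i ≠ 0
    · have hdeg : ∑ i, (p i).natDegree ≤ 8 * ∑ i, k i := by
        rw [Finset.mul_sum]
        refine Finset.sum_le_sum ?_
        intro i _
        have := hp i
        omega
      let T : Finset ℝ := X.preimage α hinj.injOn
      have hT : ∀ t, t ∈ T ↔ α t ∈ X := by
        intro t
        simp [T]
      obtain ⟨c1, c2⟩ := oneD p hp0 T
      have hsub : X.image (lab P) ⊆
          insert (lab P c) ((T.filter (fun t => ∀ i, (p i).eval t ≠ 0)).image
            (fun t => lab P (α t))) := by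
        intro l hl
        rw [Finset.mem_image] at hl
        obtain ⟨a, ha, rfl⟩ := hl
        rw [Finset.mem_insert, Finset.mem_image]
        rcases hsurj a (hX a ha) with h | ⟨t, rfl⟩
        · exact Or.inl (by rw [h])
        · refine Or.inr ⟨t, ?_, rfl⟩
          rw [Finset.mem_filter]
          exact ⟨(hT t).mpr ha, fun i h => hg _ ha i
            ((zero_iff_of_mul (hden t _) (hpe i t)).mpr h)⟩
      have e1 := Finset.card_le_card hsub
      have e2 := Finset.card_insert_le (lab P c)
        ((T.filter (fun t => ∀ i, (p i).eval t ≠ 0)).image (fun t => lab P (α t)))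
      have e3 : ((T.filter (fun t => ∀ i, (p i).eval t ≠ 0)).image
            (fun t => lab P (α t))).card ≤
          ((T.filter (fun t => ∀ i, (p i).eval t ≠ 0)).image
            (fun t i => decide (0 < (p i).eval t))).card := by
        refine card_image_le_of_factor _ _ _ ?_
        intro a _ b _ hab
        funext i
        have h3 : (0 < (p i).eval a ↔ 0 < (p i).eval b) := by
          have := congrFun hab i
          simpa using this
        have h5 := pos_iff_of_mul (hden a _) (hpe i a)
        have h6 := pos_iff_of_mul (hden b _) (hpe i b)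
        have : (0 < ev (P i) (α a) ↔ 0 < ev (P i) (α b)) := h5.trans (h3.trans h6.symm)
        simp [lab, this]
      have e4 : ((T.filter (fun t => ∀ i, (p i).eval t ≠ 0)).image
            (fun t i => decide (0 < (p i).eval t))).card ≤ ∑ i, (p i).natDegree + 1 := by
        convert c2
      omega
    · push Not at hp0
      obtain ⟨i, hi⟩ := hp0
      have hz : ∀ t, ev (P i) (α t) = 0 := by
        intro t
        have := hpe i t
        rw [hi, eval_zero] at this
        exact (zero_iff_of_mul (hden t _) this).mpr rfl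
      have hXc : ∀ a ∈ X, a = c := by
        intro a ha
        rcases hsurj a (hX a ha) with h | ⟨t, rfl⟩
        · exact h
        · exact absurd (hz t) (hg _ ha i)
      have hX1 : X.card ≤ 1 := Finset.card_le_one.mpr (fun a ha b hb =>
        (hXc a ha).trans (hXc b hb).symm)
      have h2 := Finset.card_image_le (s := X) (f := lab P)
      omega

end Pool.Agent.Helper30.SE
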