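import Pool.Agent.Helper30.FCore

set_option autoImplicit false

open Complex Metric Set Filter Topology Real

namespace Pool.Agent.Helper30.Fuchs

theorem split_sum (a : ℕ → ℂ) (S : ℂ) (h : HasSum a S) (T : Finset ℕ) (M : ℝ) (hM0 : 0 ≤ M)
    (hM : ∀ k ∉ T, ‖a k‖ ≤ M * (1 / 2) ^ k) : ‖S - ∑ k ∈ T, a k‖ ≤ 2 * M := by
  have h1 : HasSum (fun k => if k ∈ T then a k else 0) (∑ k ∈ T, a k) := by
    have h0 : ∑ k ∈ T, (if k ∈ T then a k else 0) = ∑ k ∈ T, a k :=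
      Finset.sum_congr rfl (fun k hk => if_pos hk)
    rw [← h0]
    exact hasSum_sum_of_ne_finset_zero (fun k hk => if_neg hk)
  have h2 := h.sub h1
  have h3 : HasSum (fun k : ℕ => M * (1 / 2 : ℝ) ^ k) (2 * M) := by
    have := (hasSum_geometric_two).mul_left M
    rwa [mul_comm] at this
  rw [← h2.tsum_eq]
  apply tsum_of_norm_bounded h3
  intro k
  by_cases hk : k ∈ T
  · simp only [hk, if_true, sub_self, norm_zero]
    positivity
  · simp only [hk, if_false, sub_zero]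
    exact hM k hk

theorem posLog_le_of_le_exp {x y : ℝ} (hx : 0 ≤ x) (hy : 0 ≤ y) (h : x ≤ Real.exp y) : log⁺ x ≤ y := by
  rw [posLog_apply]
  apply max_le hy
  rcases hx.eq_or_lt with h0 | h0
  · rw [← h0, Real.log_zero]; exact hy
  · rwa [Real.log_le_iff_le_exp h0]

theorem Pp_le (g : ℂ → ℂ) (hg : Differentiable ℂ g) (r M : ℝ) (hr : 0 < r) (hM : 0 ≤ M)
    (h : ∀ z : ℂ, ‖z‖ = r → ‖g z‖ ≤ Real.exp M) : Pp g r ≤ M := by
  rw [Pp]
  apply circleAverage_mono_on_of_le_circle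
  · exact (cont_posLog_norm g hg).continuousOn.circleIntegrable hr.le
  · intro z hz
    apply posLog_le_of_le_exp (norm_nonneg _) hM
    apply h
    rw [abs_of_pos hr] at hz
    simpa using hz

theorem main_A (g : ℂ → ℂ) (hg : Differentiable ℂ g) (hne : ∃ w, g w ≠ 0)
    (hP : Tendsto (Pp g) atTop atTop)
    (hA : ∀ η : ℝ, 0 < η → ∃ r₁, ∀ r, r₁ ≤ r → |Am g r - Pp g r| ≤ η * Pp g r)
    (σ K R₀ : ℝ) (hσ : 0 ≤ σ) (hK : ∀ r, R₀ ≤ r → Pp g r ≤ K * r ^ σ) :
    ∃ n : ℕ, 1 ≤ n ∧ (n : ℝ) ≤ σ ∧ ∀ κ : ℝ, 0 < κ → ∃ C : ℝ, 0 ≤ C ∧ ∀ r₀ : ℝ, ∃ r, r₀ ≤ r ∧ 0 < r ∧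
      0 < Pp g r ∧ ∃ c : ℂ, (1 - κ) * Pp g r ≤ ‖c‖ ∧
        (∀ z : ℂ, ‖z‖ = r → ‖g z‖ ≤ Real.exp ((c * (z / r) ^ n).re + κ * Pp g r)) ∧
        (∀ z : ℂ, ‖z‖ ≤ 2 * r → ‖g z‖ ≤ Real.exp (C * Pp g r)) := by
  obtain ⟨ρ, hρ0, hρσ, hpeak⟩ := polya_peaks (Pp g) (Pp_continuous g hg) hP σ K R₀ hσ hK
  -- the basic consequence of peaks
  have base : ∀ κ : ℝ, 0 < κ → ∃ C : ℝ, 0 ≤ C ∧ ∀ r₀ : ℝ, ∃ r, r₀ ≤ r ∧ 0 < r ∧ 0 < Pp g r ∧
      ∃ R' : ℝ, ∃ H : ℂ → ℂ, 4 * r < R' ∧ DifferentiableOn ℂ H (ball 0 R') ∧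
      (∀ z : ℂ, ‖z‖ ≤ 2 * r → ‖g z‖ ≤ Real.exp (H z).re) ∧
      |(H 0).re| ≤ κ / 2 * Pp g r ∧
      (∀ k : ℕ, 1 ≤ k → (k : ℝ) ≠ ρ → ‖tc H k‖ * r ^ k ≤ κ / 2 * Pp g r * (1 / 2) ^ k) ∧
      (∀ z : ℂ, ‖z‖ ≤ 2 * r → ‖g z‖ ≤ Real.exp (C * Pp g r)) := by
    intro κ hκ
    obtain ⟨A, η, hA4, hη0, hη1, c1, c2, c3⟩ := choose_params ρ κ hρ0 hκ
    refine ⟨26 * (2 * A) ^ ρ, by positivity, fun r₀ => ?_⟩
    obtain ⟨r₁, hr₁⟩ := hA η hη0
    obtain ⟨r, hr, hr0, hPr, hwin⟩ := hpeak (2 * A) (by linarith) (max r₀ (2 * A * r₁))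
    have hrr₁ : ∀ t, r / (2 * A) ≤ t → r₁ ≤ t := by
      intro t ht
      refine le_trans ?_ ht
      rw [le_div_iff₀ (by linarith)]
      have := (le_max_right _ _).trans hr
      linarith
    obtain ⟨R', H, hR', hH, hle, d1, d2, d3, d4⟩ := peak_core g hg hne A η ρ r hA4 hη0.le hη1 hρ0 hr0 hPr
      hwin (fun t ht => hr₁ t (hrr₁ t ht))
    refine ⟨r, (le_max_left _ _).trans hr, hr0, hPr, R', H, hR', hH, hle, ?_, ?_, ?_⟩
    · exact d1.trans (mul_le_mul_of_nonneg_right c1 hPr.le)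
    · intro k hk hkρ
      rcases lt_or_gt_of_ne hkρ with h | h
      · refine (d3 k hk h).trans ?_
        have := mul_le_mul_of_nonneg_right (c3 k h) hPr.le
        linarith
      · refine (d2 k hk h).trans ?_
        have := mul_le_mul_of_nonneg_right (c2 k h) hPr.le
        linarith
    · intro z hz
      refine (hle z hz).trans (Real.exp_le_exp.2 ?_)
      have hs := hasSum_tc H R' hH z (by linarith)
      have h1 := split_sum _ _ hs {0} (12 * (2 * A) ^ ρ * Pp g r) (by positivity) (by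
        intro k hk
        have hk1 : 1 ≤ k := by
          rw [Finset.mem_singleton] at hk
          omega
        rw [norm_mul, norm_pow]
        calc ‖tc H k‖ * ‖z‖ ^ k ≤ ‖tc H k‖ * (2 * r) ^ k := by gcongr
          _ = ‖tc H k‖ * (4 * r) ^ k * (1 / 2) ^ k := by
              rw [mul_assoc, ← mul_pow]
              congr 2
              ring
          _ ≤ _ := mul_le_mul_of_nonneg_right (d4 k hk1) (by positivity))
      rw [Finset.sum_singleton, pow_zero, mul_one, tc_zero] at h1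
      have h2 : (H z).re - (H 0).re ≤ ‖H z - H 0‖ := by
        rw [← Complex.sub_re]; exact Complex.re_le_norm _
      have h3 := (le_abs_self _).trans d1
      have h4 : 2 * η * (2 * A) ^ ρ * Pp g r ≤ 2 * 1 * (2 * A) ^ ρ * Pp g r := by gcongr
      linarith
  -- ρ is a positive natural number
  obtain ⟨n, hn1, hnρ⟩ : ∃ n : ℕ, 1 ≤ n ∧ (n : ℝ) = ρ := by
    by_contra hcon
    push Not at hcon
    obtain ⟨C, _, hC⟩ := base (1 / 4) (by norm_num)
    obtain ⟨r, _, hr0, hPr, R', H, hR', hH, hle, e1, e2, _⟩ := hC 0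
    have h1 : Pp g r ≤ 3 / 8 * Pp g r := by
      apply Pp_le g hg r _ hr0 (by positivity)
      intro z hz
      refine (hle z (by linarith)).trans (Real.exp_le_exp.2 ?_)
      have hs := hasSum_tc H R' hH z (by linarith)
      have h1 := split_sum _ _ hs {0} (1 / 4 / 2 * Pp g r) (by positivity) (by
        intro k hk
        have hk1 : 1 ≤ k := by
          rw [Finset.mem_singleton] at hk
          omega
        rw [norm_mul, norm_pow, hz]
        exact e2 k hk1 (hcon k hk1))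
      rw [Finset.sum_singleton, pow_zero, mul_one, tc_zero] at h1
      have h2 : (H z).re - (H 0).re ≤ ‖H z - H 0‖ := by
        rw [← Complex.sub_re]; exact Complex.re_le_norm _
      have h3 := (le_abs_self _).trans e1
      linarith
    linarith
  refine ⟨n, hn1, by rw [hnρ]; exact hρσ, fun κ hκ => ?_⟩
  obtain ⟨C, hC0, hC⟩ := base (κ / 2) (by positivity)
  refine ⟨C, hC0, fun r₀ => ?_⟩
  obtain ⟨r, hr, hr0, hPr, R', H, hR', hH, hle, e1, e2, e3⟩ := hC r₀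
  have hkey : ∀ z : ℂ, ‖z‖ = r → (H z).re ≤ (tc H n * r ^ n * (z / r) ^ n).re + κ * Pp g r := by
    intro z hz
    have hs := hasSum_tc H R' hH z (by linarith)
    have h1 := split_sum _ _ hs {0, n} (κ / 2 / 2 * Pp g r) (by positivity) (by
      intro k hk
      have hk1 : 1 ≤ k ∧ k ≠ n := by
        rw [Finset.mem_insert, Finset.mem_singleton] at hk
        omega
      rw [norm_mul, norm_pow, hz]
      exact e2 k hk1.1 (by
        rw [← hnρ]
        intro h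
        exact hk1.2 (by exact_mod_cast h)))
    rw [Finset.sum_pair (by omega), pow_zero, mul_one, tc_zero] at h1
    have h2 : (H z).re - ((H 0).re + (tc H n * z ^ n).re) ≤ ‖H z - (H 0 + tc H n * z ^ n)‖ := by
      rw [← Complex.add_re, ← Complex.sub_re]; exact Complex.re_le_norm _
    have h3 := (le_abs_self _).trans e1
    have h4 : tc H n * r ^ n * (z / r) ^ n = tc H n * z ^ n := by
      have : (r : ℂ) ≠ 0 := by exact_mod_cast hr0.ne'
      rw [div_pow]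
      field_simp
    rw [h4]
    have h5 : 0 ≤ κ * Pp g r := by positivity
    linarith
  refine ⟨r, hr, hr0, hPr, tc H n * r ^ n, ?_, ?_, e3⟩
  · have h1 : Pp g r ≤ ‖tc H n * (r : ℂ) ^ n‖ + κ * Pp g r := by
      apply Pp_le g hg r _ hr0 (by positivity)
      intro z hz
      refine (hle z (by linarith)).trans (Real.exp_le_exp.2 ((hkey z hz).trans ?_))
      gcongr
      refine (Complex.re_le_norm _).trans ?_
      rw [norm_mul, norm_pow (z / r : ℂ), norm_div, hz, Complex.norm_real, Real.norm_of_nonneg hr0.le,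
        div_self hr0.ne', one_pow, mul_one]
    linarith
  · intro z hz
    exact (hle z (by linarith)).trans (Real.exp_le_exp.2 (hkey z hz))

end Pool.Agent.Helper30.Fuchs
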