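import Mathlib

set_option autoImplicit false

open Finset

namespace Pool.Agent.Helper30.Fuchs

/-- geometric decomposition -/
theorem geo_count (Λ : Set ℕ) (D ξ R : ℝ) (hξ0 : 0 < ξ) (hξ1 : ξ < 1) (hR : 0 ≤ R)
    (h : ∀ r : ℝ, R ≤ r → ∀ F : Finset ℕ, (∀ k ∈ F, k ∈ Λ ∧ ξ * r < k ∧ (k : ℝ) ≤ r) →
      (F.card : ℝ) ≤ D * (1 - ξ) * r) (m : ℕ) :
    ∀ r : ℝ, R ≤ ξ ^ m * r → ∀ F : Finset ℕ, (∀ k ∈ F, k ∈ Λ ∧ ξ ^ m * r < k ∧ (k : ℝ) ≤ r) →
      (F.card : ℝ) ≤ D * (1 - ξ ^ m) * r := by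
  classical
  induction m with
  | zero =>
    intro r _ F hF
    have : F = ∅ := by
      apply Finset.eq_empty_of_forall_notMem
      intro k hk
      have := hF k hk
      simp only [pow_zero, one_mul] at this
      linarith [this.2.1, this.2.2]
    simp [this]
  | succ m ih =>
    intro r hr F hF
    have hr0 : 0 ≤ r := by
      by_contra hneg
      push Not at hneg
      have : ξ ^ (m + 1) * r < 0 := mul_neg_of_pos_of_neg (by positivity) hneg
      linarith
    have hpow : ξ ^ (m + 1) * r ≤ r := by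
      have : ξ ^ (m + 1) ≤ 1 := pow_le_one₀ hξ0.le hξ1.le
      nlinarith
    have hr' : R ≤ r := hr.trans hpow
    have h1 := h r hr' (F.filter (fun k : ℕ => ξ * r < (k : ℝ))) (by
      intro k hk
      rw [Finset.mem_filter] at hk
      exact ⟨(hF k hk.1).1, hk.2, (hF k hk.1).2.2⟩)
    have heq : ξ ^ m * (ξ * r) = ξ ^ (m + 1) * r := by rw [pow_succ]; ring
    have h2 := ih (ξ * r) (by rw [heq]; exact hr) (F.filter (fun k : ℕ => ¬ ξ * r < (k : ℝ))) (by
      intro k hk
      rw [Finset.mem_filter, not_lt] at hk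
      refine ⟨(hF k hk.1).1, ?_, hk.2⟩
      rw [heq]
      exact (hF k hk.1).2.1)
    have h3 := Finset.card_filter_add_card_filter_not (s := F) (fun k : ℕ => ξ * r < (k : ℝ))
    have h4 : (F.card : ℝ) = ((F.filter (fun k : ℕ => ξ * r < (k : ℝ))).card : ℝ) +
        ((F.filter (fun k : ℕ => ¬ ξ * r < (k : ℝ))).card : ℝ) := by exact_mod_cast h3.symm
    rw [h4]
    have h5 : D * (1 - ξ ^ (m + 1)) * r = D * (1 - ξ) * r + D * (1 - ξ ^ m) * (ξ * r) := by
      rw [pow_succ]; ring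
    linarith

theorem block_count (Λ : Set ℕ) (D : ℝ) (ξ₀ : ℝ) (hξ₀ : ξ₀ < 1)
    (h : ∀ ξ : ℝ, ξ₀ < ξ → ξ < 1 → ∃ R : ℝ, ∀ r : ℝ, R ≤ r → ∀ F : Finset ℕ,
      (∀ k ∈ F, k ∈ Λ ∧ ξ * r < k ∧ (k : ℝ) ≤ r) → (F.card : ℝ) ≤ D * (1 - ξ) * r)
    (a b : ℝ) (ha : 0 < a) (hab : a < b) :
    ∃ N₀ : ℕ, ∀ N ≥ N₀, ∀ F : Finset ℕ, (∀ k ∈ F, k ∈ Λ ∧ a * N < k ∧ (k : ℝ) ≤ b * N) →
      (F.card : ℝ) ≤ D * (b - a) * N := by
  have hb : 0 < b := ha.trans hab
  have hq0 : 0 < a / b := by positivity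
  have hq1 : a / b < 1 := by rw [div_lt_one hb]; exact hab
  -- choose m
  have hlim : Filter.Tendsto (fun m : ℕ => (a / b) ^ (1 / ((m : ℝ) + 1))) Filter.atTop (nhds 1) := by
    have h1 := Filter.Tendsto.rpow (tendsto_const_nhds (x := a / b))
      (tendsto_one_div_add_atTop_nhds_zero_nat (𝕜 := ℝ)) (Or.inl hq0.ne')
    simpa using h1
  obtain ⟨m, hm⟩ := (hlim.eventually (lt_mem_nhds (max_lt hξ₀ one_half_lt_one))).exists
  set ξ := (a / b) ^ (1 / ((m : ℝ) + 1)) with hξ
  have hξ0 : 0 < ξ := Real.rpow_pos_of_pos hq0 _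
  have hξ1 : ξ < 1 := Real.rpow_lt_one hq0.le hq1 (by positivity)
  have hξm : ξ ^ (m + 1) = a / b := by
    rw [hξ, ← Real.rpow_natCast, ← Real.rpow_mul hq0.le]
    have : 1 / ((m : ℝ) + 1) * ((m + 1 : ℕ) : ℝ) = 1 := by push_cast; field_simp
    rw [this, Real.rpow_one]
  obtain ⟨R, hR⟩ := h ξ (lt_of_le_of_lt (le_max_left _ _) hm) hξ1
  obtain ⟨N₀, hN₀⟩ := exists_nat_ge (max R 0 / a)
  refine ⟨N₀, fun N hN F hF => ?_⟩
  have h1 := geo_count Λ D ξ (max R 0) hξ0 hξ1 (le_max_right _ _)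
    (fun r hr => hR r ((le_max_left _ _).trans hr)) (m + 1) (b * N) (by
      rw [hξm]
      have h2 : (N₀ : ℝ) ≤ N := by exact_mod_cast hN
      rw [div_le_iff₀ ha] at hN₀
      have h3 : a / b * (b * N) = a * N := by field_simp
      rw [h3]
      nlinarith) F (by
      intro k hk
      rw [hξm]
      have h3 : a / b * (b * N) = a * N := by field_simp
      rw [h3]
      exact hF k hk)
  rw [hξm] at h1
  have h4 : D * (1 - a / b) * (b * N) = D * (b - a) * N := by field_simp
  rw [h4] at h1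
  exact h1

theorem blocks (Λ : Set ℕ) (D D' : ℝ) (hD0 : 0 ≤ D) (hD : D < D') (hD1 : D' ≤ 1) (ξ₀ : ℝ) (hξ₀ : ξ₀ < 1)
    (h : ∀ ξ : ℝ, ξ₀ < ξ → ξ < 1 → ∃ R : ℝ, ∀ r : ℝ, R ≤ r → ∀ F : Finset ℕ,
      (∀ k ∈ F, k ∈ Λ ∧ ξ * r < k ∧ (k : ℝ) ≤ r) → (F.card : ℝ) ≤ D * (1 - ξ) * r)
    (K : ℕ) (hK : 0 < K) :
    ∃ N₀ : ℕ, ∀ N ≥ N₀, ∀ j < K,
      ∀ F : Finset ℕ, (∀ k ∈ F, k ∈ insert 0 Λ ∧ ((j : ℝ) * N / K ≤ k) ∧ (k : ℝ) < (j + 1) * N / K) →
      (F.card : ℝ) ≤ D' * N / K := by
  classical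
  have hK' : (0 : ℝ) < K := by exact_mod_cast hK
  have key : ∀ j : ℕ, ∃ N₀ : ℕ, ∀ N ≥ N₀,
      ∀ F : Finset ℕ, (∀ k ∈ F, k ∈ insert 0 Λ ∧ ((j : ℝ) * N / K ≤ k) ∧ (k : ℝ) < (j + 1) * N / K) →
      (F.card : ℝ) ≤ D' * N / K := by
    intro j
    rcases Nat.eq_zero_or_pos j with hj | hj
    · -- first block
      subst hj
      set a : ℝ := (D' - D) / (2 * K) with ha
      have ha0 : 0 < a := by have : 0 < D' - D := by linarith
                             positivity
      have hab : a < 1 / K := by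
        rw [ha, div_lt_div_iff₀ (by positivity) hK']
        nlinarith
      obtain ⟨N₁, hN₁⟩ := block_count Λ D ξ₀ hξ₀ h a (1 / K) ha0 hab
      obtain ⟨N₂, hN₂⟩ := exists_nat_ge (1 / a)
      refine ⟨max N₁ N₂, fun N hN F hF => ?_⟩
      have hNN1 := le_trans (le_max_left _ _) hN
      have hNN2 : (N₂ : ℝ) ≤ N := by exact_mod_cast le_trans (le_max_right _ _) hN
      have h1 := hN₁ N hNN1 (F.filter (fun k : ℕ => a * N < (k : ℝ))) (by
        intro k hk
        rw [Finset.mem_filter] at hk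
        have h2 := hF k hk.1
        refine ⟨?_, hk.2, ?_⟩
        · rcases h2.1 with h3 | h3
          · rw [h3] at hk
            have : a * N < 0 := by simpa using hk.2
            have : 0 ≤ a * N := by positivity
            linarith
          · exact h3
        · have := h2.2.2.le
          rw [Nat.cast_zero, zero_add, one_mul] at this
          calc (k : ℝ) ≤ N / K := this
            _ = 1 / K * N := by ring)
      have h2 : ((F.filter (fun k : ℕ => ¬ a * N < (k : ℝ))).card : ℝ) ≤ a * N + 1 := by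
        have h3 : F.filter (fun k : ℕ => ¬ a * N < (k : ℝ)) ⊆ Finset.range (⌊a * N⌋₊ + 1) := by
          intro k hk
          rw [Finset.mem_filter, not_lt] at hk
          rw [Finset.mem_range, Nat.lt_succ_iff]
          exact Nat.le_floor hk.2
        have h4 := Finset.card_le_card h3
        rw [Finset.card_range] at h4
        have h5 : (⌊a * N⌋₊ : ℝ) ≤ a * N := Nat.floor_le (by positivity)
        have h6 : ((F.filter (fun k : ℕ => ¬ a * N < (k : ℝ))).card : ℝ) ≤ ((⌊a * N⌋₊ + 1 : ℕ) : ℝ) := by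
          exact_mod_cast h4
        push_cast at h6
        linarith
      have h3 := Finset.card_filter_add_card_filter_not (s := F) (fun k : ℕ => a * N < (k : ℝ))
      have h4 : (F.card : ℝ) = ((F.filter (fun k : ℕ => a * N < (k : ℝ))).card : ℝ) +
          ((F.filter (fun k : ℕ => ¬ a * N < (k : ℝ))).card : ℝ) := by exact_mod_cast h3.symm
      rw [h4]
      have h5 : 1 ≤ a * N := by
        rw [div_le_iff₀ ha0] at hN₂
        nlinarith
      have h6 : D' * N / K = D * N / K + 2 * (a * N) := by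
        rw [ha]; field_simp; ring
      rw [h6]
      have h7 : D * (1 / K - a) * N ≤ D * N / K := by
        have : D * (1 / K - a) * N = D * N / K - D * (a * N) := by ring
        rw [this]
        have : 0 ≤ D * (a * N) := by positivity
        linarith
      linarith
    · have hj' : (0 : ℝ) < j := by exact_mod_cast hj
      have hab : (j : ℝ) / K < (j + 1) / K := by
        rw [div_lt_div_iff_of_pos_right hK']; linarith
      obtain ⟨N₁, hN₁⟩ := block_count Λ D ξ₀ hξ₀ h (j / K) ((j + 1) / K) (by positivity) hab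
      obtain ⟨N₂, hN₂⟩ := exists_nat_ge (K / (D' - D))
      refine ⟨max N₁ (max N₂ (K + 1)), fun N hN F hF => ?_⟩
      have hNN1 := le_trans (le_max_left _ _) hN
      have hNN2 : (N₂ : ℝ) ≤ N := by
        exact_mod_cast le_trans ((le_max_left _ _).trans (le_max_right _ _)) hN
      have hNN3 : K + 1 ≤ N := le_trans ((le_max_right _ _).trans (le_max_right _ _)) hN
      have hN0 : (0 : ℝ) < N := by exact_mod_cast (by omega : 0 < N)
      have h1 := hN₁ N hNN1 (F.filter (fun k : ℕ => (j : ℝ) / K * N < (k : ℝ))) (by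
        intro k hk
        rw [Finset.mem_filter] at hk
        have h2 := hF k hk.1
        refine ⟨?_, hk.2, ?_⟩
        · rcases h2.1 with h3 | h3
          · rw [h3] at hk
            have h4 : (j : ℝ) / K * N < 0 := by simpa using hk.2
            have h5 : 0 ≤ (j : ℝ) / K * N := by positivity
            linarith
          · exact h3
        · have := h2.2.2.le
          calc (k : ℝ) ≤ (j + 1) * N / K := this
            _ = (j + 1) / K * N := by ring)
      have h2 : (F.filter (fun k : ℕ => ¬ (j : ℝ) / K * N < (k : ℝ))).card ≤ 1 := by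
        apply Finset.card_le_one.2
        intro x hx y hy
        rw [Finset.mem_filter, not_lt] at hx hy
        have hx1 := (hF x hx.1).2.1
        have hy1 := (hF y hy.1).2.1
        have heq : (j : ℝ) * N / K = (j : ℝ) / K * N := by ring
        rw [heq] at hx1 hy1
        have : (x : ℝ) = y := by linarith [hx.2, hy.2]
        exact_mod_cast this
      have h3 := Finset.card_filter_add_card_filter_not (s := F) (fun k : ℕ => (j : ℝ) / K * N < (k : ℝ))
      have h4 : (F.card : ℝ) = ((F.filter (fun k : ℕ => (j : ℝ) / K * N < (k : ℝ))).card : ℝ) +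
          ((F.filter (fun k : ℕ => ¬ (j : ℝ) / K * N < (k : ℝ))).card : ℝ) := by exact_mod_cast h3.symm
      have h2' : ((F.filter (fun k : ℕ => ¬ (j : ℝ) / K * N < (k : ℝ))).card : ℝ) ≤ 1 := by
        exact_mod_cast h2
      rw [h4]
      have h5 : 1 ≤ (D' - D) * N / K := by
        rw [le_div_iff₀ hK', one_mul]
        have h6 : 0 < D' - D := by linarith
        rw [div_le_iff₀ h6] at hN₂
        nlinarith
      have h6 : D * ((j + 1) / K - j / K) * N = D * N / K := by field_simp; ring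
      have h7 : D' * N / K = D * N / K + (D' - D) * N / K := by ring
      rw [h6] at h1
      rw [h7]
      linarith
  choose f hf using key
  refine ⟨(range K).sup f, fun N hN j hj F hF => hf j N ?_ F hF⟩
  exact (Finset.le_sup (f := f) (mem_range.2 hj)).trans hN

end Pool.Agent.Helper30.Fuchs
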