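import Pool.Agent.Helper30.FCoeff
import Pool.Agent.Helper30.FBlock

set_option autoImplicit false

open Finset Filter Topology

namespace Pool.Agent.Helper30.Fuchs

theorem exists_large (A c κ : ℝ) (hκ : 0 < κ) :
    ∃ P₀ : ℝ, ∀ P ≥ P₀, A * P * (A * P + c) * Real.exp (-(κ * P)) + 2 * Real.exp (-(κ * P)) < 1 := by
  have h0 : Tendsto (fun P : ℝ => κ * P) atTop atTop := tendsto_id.const_mul_atTop hκ
  have h1 := (Real.tendsto_pow_mul_exp_neg_atTop_nhds_zero 2).comp h0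
  have h2 := (Real.tendsto_pow_mul_exp_neg_atTop_nhds_zero 1).comp h0
  have h3 := (Real.tendsto_pow_mul_exp_neg_atTop_nhds_zero 0).comp h0
  have h4 : Tendsto (fun P : ℝ => (A / κ) ^ 2 * ((κ * P) ^ 2 * Real.exp (-(κ * P))) +
      A * c / κ * ((κ * P) ^ 1 * Real.exp (-(κ * P))) + 2 * ((κ * P) ^ 0 * Real.exp (-(κ * P)))) atTop
      (𝓝 ((A / κ) ^ 2 * 0 + A * c / κ * 0 + 2 * 0)) :=
    ((h1.const_mul _).add (h2.const_mul _)).add (h3.const_mul _)
  have h5 := h4.eventually (gt_mem_nhds (show (A / κ) ^ 2 * 0 + A * c / κ * 0 + 2 * 0 < (1 : ℝ) by norm_num))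
  obtain ⟨P₀, hP₀⟩ := eventually_atTop.1 h5
  refine ⟨P₀, fun P hP => ?_⟩
  have h6 := hP₀ P hP
  have h7 : A * P * (A * P + c) * Real.exp (-(κ * P)) + 2 * Real.exp (-(κ * P)) =
      (A / κ) ^ 2 * ((κ * P) ^ 2 * Real.exp (-(κ * P))) +
      A * c / κ * ((κ * P) ^ 1 * Real.exp (-(κ * P))) + 2 * ((κ * P) ^ 0 * Real.exp (-(κ * P))) := by
    field_simp
  rw [h7]
  exact h6

theorem main_B (Λ : Set ℕ) (D D₂ : ℝ) (hD0 : 0 ≤ D) (hD : D < D₂) (hD1 : D₂ ≤ 1) (ξ₀ : ℝ) (hξ₀ : ξ₀ < 1)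
    (h : ∀ ξ : ℝ, ξ₀ < ξ → ξ < 1 → ∃ R : ℝ, ∀ r : ℝ, R ≤ r → ∀ F : Finset ℕ,
      (∀ k ∈ F, k ∈ Λ ∧ ξ * r < k ∧ (k : ℝ) ≤ r) → (F.card : ℝ) ≤ D * (1 - ξ) * r)
    (C κ : ℝ) (hC : 0 ≤ C) (hκ : 0 < κ) :
    ∃ P₀ : ℝ, ∀ P ≥ P₀, ∀ (b : ℕ → ℂ) (x₀ : ℝ), (∀ k, k ∉ insert 0 Λ → b k = 0) →
      (∀ k, ‖b k‖ ≤ (1 / 2) ^ k * Real.exp (C * P)) →
      (∀ x, x₀ ≤ x → x ≤ x₀ + D₂ → ‖∑' k, b k * ee x ^ k‖ ≤ Real.exp (-(κ * P))) →
      ∑' k, ‖b k‖ < 1 := by
  classical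
  set D' := (D + D₂) / 2 with hD'
  have hDD' : D < D' := by rw [hD']; linarith
  have hD'D₂ : D' < D₂ := by rw [hD']; linarith
  have hlog : 0 < Real.log 2 := Real.log_pos one_lt_two
  set B : ℝ := (C + κ) / Real.log 2 with hB
  have hBpos : 0 < B := by positivity
  set ε : ℝ := κ / (8 * (B + 1)) with hε
  have hεpos : 0 < ε := by positivity
  obtain ⟨N₀, hN₀⟩ := density_lemma (insert 0 Λ) D' D₂ (by linarith) hD'D₂ hD1
    (fun K hK => blocks Λ D D' hD0 hDD' (by linarith) ξ₀ hξ₀ h K hK) hεpos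
  obtain ⟨P₁, hP₁⟩ := exists_large (B + 1) 3 (3 / 4 * κ) (by positivity)
  refine ⟨max P₁ (max 1 (N₀ / B)), fun P hP b x₀ hb0 hbb hbarc => ?_⟩
  have hPP₁ : P₁ ≤ P := le_trans (le_max_left _ _) hP
  have hP1 : 1 ≤ P := le_trans ((le_max_left _ _).trans (le_max_right _ _)) hP
  have hPN : N₀ / B ≤ P := le_trans ((le_max_right _ _).trans (le_max_right _ _)) hP
  set N : ℕ := ⌈B * P⌉₊ with hN
  have hBP : 0 < B * P := by positivity
  have hNge : B * P ≤ N := Nat.le_ceil _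
  have hNle : (N : ℝ) ≤ (B + 1) * P := by
    have := (Nat.ceil_lt_add_one hBP.le).le
    rw [hN]; nlinarith
  have hNpos : 0 < N := Nat.ceil_pos.2 hBP
  have hNN₀ : N₀ ≤ N := by
    have : (N₀ : ℝ) ≤ N := by
      rw [div_le_iff₀ hBpos] at hPN
      linarith
    exact_mod_cast this
  have hεN : ε * N ≤ κ * P / 8 := by
    have h1 : ε * N ≤ ε * ((B + 1) * P) := mul_le_mul_of_nonneg_left hNle hεpos.le
    have h2 : ε * ((B + 1) * P) = κ * P / 8 := by rw [hε]; field_simp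
    linarith
  have hgeo : Summable fun k : ℕ => ((1 : ℝ) / 2) ^ k * Real.exp (C * P) :=
    (summable_geometric_of_lt_one (by norm_num) (by norm_num)).mul_right _
  have hbs : Summable fun k => ‖b k‖ := Summable.of_nonneg_of_le (fun _ => norm_nonneg _) hbb hgeo
  have htail : ∑' k, ‖b (k + N)‖ ≤ 2 * Real.exp (-(κ * P)) := by
    have h1 : ∀ k, ‖b (k + N)‖ ≤ ((1 : ℝ) / 2) ^ k * Real.exp (-(κ * P)) := by
      intro k
      refine (hbb (k + N)).trans ?_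
      rw [pow_add, mul_assoc]
      apply mul_le_mul_of_nonneg_left _ (by positivity)
      have h2 : ((1 : ℝ) / 2) ^ N = Real.exp (-(N * Real.log 2)) := by
        rw [Real.exp_neg, mul_comm, Real.exp_mul, Real.exp_log two_pos, Real.rpow_natCast]
        rw [one_div, inv_pow]
      rw [h2, ← Real.exp_add]
      apply Real.exp_le_exp.2
      have h3 : B * P * Real.log 2 = (C + κ) * P := by rw [hB]; field_simp
      have h4 : B * P * Real.log 2 ≤ N * Real.log 2 := mul_le_mul_of_nonneg_right hNge hlog.le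
      linarith
    have h2 : Summable fun k : ℕ => ((1 : ℝ) / 2) ^ k * Real.exp (-(κ * P)) :=
      (summable_geometric_of_lt_one (by norm_num) (by norm_num)).mul_right _
    calc ∑' k, ‖b (k + N)‖ ≤ ∑' k : ℕ, ((1 : ℝ) / 2) ^ k * Real.exp (-(κ * P)) :=
          ((summable_nat_add_iff N).2 hbs).tsum_le_tsum h1 h2
      _ = 2 * Real.exp (-(κ * P)) := by
          rw [tsum_mul_right, tsum_geometric_two]
  have hcoef : ∀ n < N, ‖b n‖ ≤ (N + 3) * Real.exp (-(3 / 4 * κ * P)) := by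
    intro n hn
    obtain ⟨Z, hZN, hnZ, hZcov, hZcard, hZup, hZlow⟩ := hN₀ N hNN₀ n hn
    have hq : (Z.card : ℝ) / N ≤ D₂ := by
      rw [div_le_iff₀ (by exact_mod_cast hNpos)]; exact hZcard
    have hcb := coeff_bound b hbs N n hn Z (by
      intro k hk hkn hkZ
      apply hb0
      intro hkΛ
      exact hkZ (hZcov k hk hkΛ hkn)) (Real.exp (ε * N)) (Real.exp (-(κ * P))) (2 * Real.exp (-(κ * P)))
      x₀ (Real.exp_pos _).le hZup (fun x hx1 hx2 => hbarc x hx1 (by linarith)) htail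
    have h1 : ‖b n‖ * Real.exp (-(ε * N)) ≤ Real.exp (ε * N) *
        ((Z.card + 1) * Real.exp (-(κ * P)) + 2 * Real.exp (-(κ * P))) :=
      (mul_le_mul_of_nonneg_left hZlow (norm_nonneg _)).trans hcb
    have hZN' : (Z.card : ℝ) ≤ N := by
      have : D₂ * N ≤ 1 * N := mul_le_mul_of_nonneg_right hD1 (by positivity)
      linarith
    have h2 : ‖b n‖ ≤ Real.exp (ε * N) * (Real.exp (ε * N) * ((N + 3) * Real.exp (-(κ * P)))) := by
      have h3 : ‖b n‖ = Real.exp (ε * N) * (‖b n‖ * Real.exp (-(ε * N))) := by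
        rw [mul_comm (‖b n‖), ← mul_assoc, ← Real.exp_add]; simp
      rw [h3]
      apply mul_le_mul_of_nonneg_left _ (Real.exp_pos _).le
      refine h1.trans ?_
      apply mul_le_mul_of_nonneg_left _ (Real.exp_pos _).le
      have := Real.exp_pos (-(κ * P))
      nlinarith
    refine h2.trans ?_
    have h4 : Real.exp (ε * N) ≤ Real.exp (κ * P / 8) := Real.exp_le_exp.2 hεN
    calc Real.exp (ε * N) * (Real.exp (ε * N) * ((N + 3) * Real.exp (-(κ * P))))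
        ≤ Real.exp (κ * P / 8) * (Real.exp (κ * P / 8) * ((N + 3) * Real.exp (-(κ * P)))) := by
          gcongr
      _ = (N + 3) * (Real.exp (κ * P / 8) * (Real.exp (κ * P / 8) * Real.exp (-(κ * P)))) := by ring
      _ = (N + 3) * Real.exp (-(3 / 4 * κ * P)) := by
          rw [← Real.exp_add, ← Real.exp_add]; congr 2; ring
  have hsum := hbs.sum_add_tsum_nat_add N
  rw [← hsum]
  have h1 : ∑ k ∈ range N, ‖b k‖ ≤ N * ((N + 3) * Real.exp (-(3 / 4 * κ * P))) := by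
    refine (Finset.sum_le_sum fun k hk => hcoef k (mem_range.1 hk)).trans ?_
    rw [Finset.sum_const, card_range, nsmul_eq_mul]
  have h2 := hP₁ P hPP₁
  have h3 : (N : ℝ) * ((N + 3) * Real.exp (-(3 / 4 * κ * P))) ≤
      (B + 1) * P * ((B + 1) * P + 3) * Real.exp (-(3 / 4 * κ * P)) := by
    rw [← mul_assoc]
    gcongr
  have h4 : Real.exp (-(κ * P)) ≤ Real.exp (-(3 / 4 * κ * P)) := by
    apply Real.exp_le_exp.2
    nlinarith
  linarith

end Pool.Agent.Helper30.Fuchs
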