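import Pool.Agent.Helper30.FDens

set_option autoImplicit false

open Finset

namespace Pool.Agent.Helper30.Fuchs

theorem coeff_le_of_circle (Q : Polynomial ℂ) {M : ℝ} (hM0 : 0 ≤ M)
    (hM : ∀ z : ℂ, ‖z‖ = 1 → ‖Q.eval z‖ ≤ M) (j : ℕ) : ‖Q.coeff j‖ ≤ M := by
  by_cases hj : j ∈ Q.support
  · have h1 : ‖Q.coeff j‖ ^ 2 ≤ ∑ i ∈ Q.support, ‖Q.coeff i‖ ^ 2 :=
      Finset.single_le_sum (f := fun i => ‖Q.coeff i‖ ^ 2) (fun _ _ => sq_nonneg _) hj
    rw [Polynomial.sum_sq_norm_coeff_eq_circleAverage] at h1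
    have h2 : Real.circleAverage (fun θ ↦ ‖Q.eval θ‖ ^ 2) 0 1 ≤ M ^ 2 := by
      apply Real.circleAverage_mono_on_of_le_circle
      · apply Continuous.intervalIntegrable
        have := Q.continuous
        fun_prop
      · intro x hx
        simp only [mem_sphere_iff_norm, sub_zero, abs_one] at hx
        have := hM x hx
        exact pow_le_pow_left₀ (norm_nonneg _) this 2
    exact le_of_sq_le_sq (h1.trans h2) hM0
  · rw [Polynomial.notMem_support_iff.1 hj, norm_zero]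
    exact hM0

theorem coeff_bound (b : ℕ → ℂ) (hb : Summable fun k => ‖b k‖) (N n : ℕ) (hn : n < N)
    (Z : Finset ℕ) (hzero : ∀ k < N, k ≠ n → k ∉ Z → b k = 0) (M m t x₀ : ℝ) (hM0 : 0 ≤ M)
    (hM : ∀ ζ : ℂ, ‖ζ‖ = 1 → ∏ z ∈ Z, ‖ζ - ee ((z : ℝ) / N)‖ ≤ M)
    (hm : ∀ x, x₀ ≤ x → x ≤ x₀ + Z.card / N → ‖∑' k, b k * ee x ^ k‖ ≤ m)
    (ht : ∑' k, ‖b (k + N)‖ ≤ t) :
    ‖b n‖ * ∏ z ∈ Z, ‖ee ((n : ℝ) / N) - ee ((z : ℝ) / N)‖ ≤ M * ((Z.card + 1) * m + t) := by
  classical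
  have hN' : (0 : ℝ) < N := by exact_mod_cast (by omega : 0 < N)
  set Q : Polynomial ℂ := ∏ z ∈ Z, (Polynomial.X - Polynomial.C (ee ((z : ℝ) / N))) with hQ
  have hQe : ∀ ζ, Q.eval ζ = ∏ z ∈ Z, (ζ - ee ((z : ℝ) / N)) := by
    intro ζ
    rw [hQ, Polynomial.eval_prod]
    simp
  have hQn : ∀ ζ, ‖Q.eval ζ‖ = ∏ z ∈ Z, ‖ζ - ee ((z : ℝ) / N)‖ := by
    intro ζ
    rw [hQe, norm_prod]
  have hdeg : Q.natDegree = Z.card := by
    rw [hQ, Polynomial.natDegree_prod_of_monic]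
    · simp
    · intro z _; exact Polynomial.monic_X_sub_C _
  have hcoef : ∀ j, ‖Q.coeff j‖ ≤ M := fun j =>
    coeff_le_of_circle Q hM0 (fun z hz => by rw [hQn]; exact hM z hz) j
  -- the series
  have hsum : ∀ x : ℝ, Summable fun k => b k * ee x ^ k := by
    intro x
    apply Summable.of_norm
    refine hb.congr fun k => ?_
    rw [norm_mul, norm_pow, norm_ee, one_pow, mul_one]
  have hkey : ∑ j ∈ range (Z.card + 1), Q.coeff j * ∑' k, b k * ee (x₀ + j / N) ^ k =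
      ∑' k, b k * ee x₀ ^ k * Q.eval (ee ((k : ℝ) / N)) := by
    have h1 : ∀ j ∈ range (Z.card + 1), Q.coeff j * ∑' k, b k * ee (x₀ + j / N) ^ k =
        ∑' k, b k * ee x₀ ^ k * (Q.coeff j * ee ((k : ℝ) / N) ^ j) := by
      intro j _
      rw [← tsum_mul_left]
      congr 1
      funext k
      rw [ee_add, mul_pow]
      have : ee ((j : ℝ) / N) ^ k = ee ((k : ℝ) / N) ^ j := by
        rw [ee_pow, ee_pow]; congr 1; ring
      rw [this]
      ring
    rw [Finset.sum_congr rfl h1, ← Summable.tsum_finsetSum]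
    · congr 1
      funext k
      rw [← Finset.mul_sum, Polynomial.eval_eq_sum_range, hdeg]
    · intro j _
      have h2 := ((hsum (x₀ + j / N)).mul_left (Q.coeff j))
      refine h2.congr fun k => ?_
      rw [ee_add, mul_pow]
      have : ee ((j : ℝ) / N) ^ k = ee ((k : ℝ) / N) ^ j := by
        rw [ee_pow, ee_pow]; congr 1; ring
      rw [this]
      ring
  have hQM : ∀ k : ℕ, ‖Q.eval (ee ((k : ℝ) / N))‖ ≤ M := by
    intro k
    rw [hQn]
    exact hM _ (norm_ee _)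
  have hsum2 : Summable fun k => b k * ee x₀ ^ k * Q.eval (ee ((k : ℝ) / N)) := by
    apply Summable.of_norm_bounded (g := fun k => ‖b k‖ * M) (hb.mul_right M)
    intro k
    rw [norm_mul, norm_mul, norm_pow, norm_ee, one_pow, mul_one]
    exact mul_le_mul_of_nonneg_left (hQM k) (norm_nonneg _)
  have hsplit := hsum2.sum_add_tsum_nat_add N
  have hhead : ∑ k ∈ range N, b k * ee x₀ ^ k * Q.eval (ee ((k : ℝ) / N)) =
      b n * ee x₀ ^ n * Q.eval (ee ((n : ℝ) / N)) := by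
    rw [Finset.sum_eq_single n]
    · intro k hk hkn
      rw [mem_range] at hk
      by_cases hkZ : k ∈ Z
      · have : Q.eval (ee ((k : ℝ) / N)) = 0 := by
          rw [hQe]
          exact Finset.prod_eq_zero hkZ (sub_self _)
        rw [this, mul_zero]
      · rw [hzero k hk hkn hkZ, zero_mul, zero_mul]
    · intro h
      exact absurd (mem_range.2 hn) h
  rw [hhead] at hsplit
  have htail : ‖∑' k, b (k + N) * ee x₀ ^ (k + N) * Q.eval (ee (((k + N : ℕ) : ℝ) / N))‖ ≤ M * t := by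
    have hb' : Summable fun k => ‖b (k + N)‖ := (summable_nat_add_iff N).2 hb
    have h1 : ∀ k, ‖b (k + N) * ee x₀ ^ (k + N) * Q.eval (ee (((k + N : ℕ) : ℝ) / N))‖ ≤
        M * ‖b (k + N)‖ := by
      intro k
      rw [norm_mul, norm_mul, norm_pow, norm_ee, one_pow, mul_one, mul_comm]
      exact mul_le_mul_of_nonneg_right (hQM (k + N)) (norm_nonneg _)
    have h2 : Summable fun k => M * ‖b (k + N)‖ := hb'.mul_left M
    refine (tsum_of_norm_bounded h2.hasSum h1).trans ?_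
    rw [tsum_mul_left]
    exact mul_le_mul_of_nonneg_left ht hM0
  have hlhs : ‖∑ j ∈ range (Z.card + 1), Q.coeff j * ∑' k, b k * ee (x₀ + j / N) ^ k‖ ≤
      (Z.card + 1) * (M * m) := by
    refine (norm_sum_le _ _).trans ?_
    have h1 : ∀ j ∈ range (Z.card + 1), ‖Q.coeff j * ∑' k, b k * ee (x₀ + j / N) ^ k‖ ≤ M * m := by
      intro j hj
      rw [mem_range] at hj
      rw [norm_mul]
      have h2 := hm (x₀ + j / N) (by have : (0 : ℝ) ≤ j / N := by positivity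
                                     linarith) (by
        have : (j : ℝ) ≤ Z.card := by exact_mod_cast (by omega : j ≤ Z.card)
        have : (j : ℝ) / N ≤ Z.card / N := by gcongr
        linarith)
      exact mul_le_mul (hcoef j) h2 (norm_nonneg _) hM0
    refine (Finset.sum_le_sum h1).trans ?_
    rw [Finset.sum_const, card_range, nsmul_eq_mul]
    push_cast
    exact le_rfl
  rw [hkey, ← hsplit] at hlhs
  have h3 : ‖b n * ee x₀ ^ n * Q.eval (ee ((n : ℝ) / N))‖ = ‖b n‖ * ∏ z ∈ Z, ‖ee ((n : ℝ) / N) - ee ((z : ℝ) / N)‖ := by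
    rw [norm_mul, norm_mul, norm_pow, norm_ee, one_pow, mul_one, hQn]
  rw [← h3]
  have h4 := norm_sub_norm_le (b n * ee x₀ ^ n * Q.eval (ee ((n : ℝ) / N)))
    (-(∑' k, b (k + N) * ee x₀ ^ (k + N) * Q.eval (ee (((k + N : ℕ) : ℝ) / N))))
  rw [sub_neg_eq_add, norm_neg] at h4
  push_cast at h4 htail hlhs ⊢
  linarith

end Pool.Agent.Helper30.Fuchs
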