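import Pool.Agent.Helper30.FProx

set_option autoImplicit false

open Complex Metric Set Filter Topology Real

namespace Pool.Agent.Helper30.Fuchs

theorem peak_core (g : ℂ → ℂ) (hg : Differentiable ℂ g) (hne : ∃ w, g w ≠ 0) (A η ρ r : ℝ)
    (hA : 4 ≤ A) (hη0 : 0 ≤ η) (hη1 : η ≤ 1) (hρ : 0 ≤ ρ) (hr : 0 < r) (hPr : 0 < Pp g r)
    (hwin : ∀ t, r / (2 * A) ≤ t → t ≤ 2 * A * r → Pp g t ≤ 2 * (t / r) ^ ρ * Pp g r)
    (hη : ∀ t, r / (2 * A) ≤ t → |Am g t - Pp g t| ≤ η * Pp g t) :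
    ∃ R' : ℝ, ∃ H : ℂ → ℂ, 4 * r < R' ∧ DifferentiableOn ℂ H (ball 0 R') ∧
      (∀ z : ℂ, ‖z‖ ≤ 2 * r → ‖g z‖ ≤ Real.exp (H z).re) ∧
      |(H 0).re| ≤ 2 * η * (2 * A) ^ ρ * Pp g r ∧
      (∀ k : ℕ, 1 ≤ k → ρ < k → ‖tc H k‖ * r ^ k ≤ 12 * A ^ (ρ - k) * Pp g r) ∧
      (∀ k : ℕ, 1 ≤ k → (k : ℝ) < ρ → ‖tc H k‖ * r ^ k ≤
        (16 * A ^ ((k : ℝ) - ρ) + 4 * η * (2 * A) ^ ((k : ℝ) + ρ)) * Pp g r) ∧
      (∀ k : ℕ, 1 ≤ k → ‖tc H k‖ * (4 * r) ^ k ≤ 12 * (2 * A) ^ ρ * Pp g r) := by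
  have hA0 : 0 < A := by linarith
  obtain ⟨R, hR1, hR2, hRz⟩ := zero_free g hg hne (A * r) (2 * A * r) (by nlinarith [mul_pos hA0 hr])
  have hR0 : 0 < R := lt_trans (mul_pos hA0 hr) hR1
  obtain ⟨s, hs1, hs2, hsz⟩ := zero_free g hg hne (r / (2 * A)) (r / A) (by
    apply div_lt_div_of_pos_left hr hA0; linarith)
  have hs0 : 0 < s := lt_trans (by positivity) hs1
  have hsr : s < r := lt_of_lt_of_le hs2 (div_le_self hr.le (by linarith))
  have hrR : 4 * r < R := lt_of_le_of_lt (by nlinarith) hR1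
  obtain ⟨R', hRR, H, hH, hle, heq⟩ := harmonic_majorant g hg R hR0 hRz
  obtain ⟨f1, f2, f3⟩ := maj_facts g hg R R' hR0 hRR hRz H hH hle heq
  have f3s := f3 s hs0 (by linarith) hsz
  have hlow : r / (2 * A) ≤ r := div_le_self hr.le (by linarith)
  have hPR := hwin R (by linarith) hR2.le
  have hPs := hwin s hs1.le (by nlinarith)
  have hηR := hη R (by linarith)
  have hηs := hη s hs1.le
  have hPR0 := Pp_nonneg g R
  have hPs0 := Pp_nonneg g s
  set p := Pp g r with hp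
  -- bounds on ratio
  have hx1 : A ≤ R / r := by rw [le_div_iff₀ hr]; exact hR1.le
  have hx2 : R / r ≤ 2 * A := by rw [div_le_iff₀ hr]; exact hR2.le
  have hx0 : 0 < R / r := by positivity
  have hPR' : Pp g R ≤ 2 * (2 * A) ^ ρ * p := by
    refine hPR.trans ?_
    gcongr
  have hAmR : Am g R ≤ 2 * Pp g R := by
    have := (abs_le.1 hηR).2
    nlinarith
  have hAms : Am g s ≤ 2 * Pp g s := by
    have := (abs_le.1 hηs).2
    nlinarith
  have hH0 : |(H 0).re| ≤ 2 * η * (2 * A) ^ ρ * p := by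
    rw [f1, abs_sub_comm]
    refine hηR.trans ?_
    calc η * Pp g R ≤ η * (2 * (2 * A) ^ ρ * p) := mul_le_mul_of_nonneg_left hPR' hη0
      _ = _ := by ring
  have hcR : ∀ k : ℕ, 1 ≤ k → ‖tc H k‖ * R ^ k ≤ 6 * Pp g R := by
    intro k hk
    have := tc_bound H R' R hR0 hRR hH k hk
    rw [f2] at this
    linarith
  refine ⟨R', H, by linarith, hH, fun z hz => hle z (by linarith), hH0, ?_, ?_, ?_⟩
  · intro k hk hρk
    have h1 : ‖tc H k‖ * r ^ k = ‖tc H k‖ * R ^ k * (R / r) ^ (-(k : ℝ)) := by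
      rw [Real.rpow_neg hx0.le, Real.rpow_natCast, div_pow]
      field_simp
    have h2 : (R / r) ^ ρ * (R / r) ^ (-(k : ℝ)) ≤ A ^ (ρ - k) := by
      rw [← Real.rpow_add hx0, ← sub_eq_add_neg]
      exact Real.rpow_le_rpow_of_nonpos hA0 hx1 (by linarith)
    calc ‖tc H k‖ * r ^ k = ‖tc H k‖ * R ^ k * (R / r) ^ (-(k : ℝ)) := h1
      _ ≤ 6 * (2 * (R / r) ^ ρ * p) * (R / r) ^ (-(k : ℝ)) := by
          apply mul_le_mul_of_nonneg_right _ (by positivity)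
          refine (hcR k hk).trans ?_
          linarith
      _ = 12 * ((R / r) ^ ρ * (R / r) ^ (-(k : ℝ))) * p := by ring
      _ ≤ _ := by gcongr
  · intro k hk hρk
    have hy1 : A ≤ r / s := by
      rw [le_div_iff₀ hs0]
      rw [lt_div_iff₀ hA0] at hs2
      linarith
    have hy2 : r / s ≤ 2 * A := by
      rw [div_le_iff₀ hs0]
      rw [div_lt_iff₀ (by positivity)] at hs1
      linarith
    have hy0 : 0 < r / s := by positivity
    have h1 : ‖tc H k‖ * r ^ k = ‖tc H k‖ * s ^ k * (r / s) ^ k := by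
      rw [div_pow]
      field_simp
    have h2 : ‖tc H k‖ * s ^ k ≤ 4 * η * (2 * A) ^ ρ * p + 16 * (r / s) ^ (-ρ) * p := by
      have h3 := tc_bound H R' s hs0 (by linarith) hH k hk
      have h4 : (H 0).re ≤ 2 * η * (2 * A) ^ ρ * p := (le_abs_self _).trans hH0
      have h5 : (s / r) ^ ρ = (r / s) ^ (-ρ) := by
        rw [Real.rpow_neg hy0.le, ← Real.inv_rpow hy0.le, inv_div]
      rw [h5] at hPs
      nlinarith
    have h6 : (r / s) ^ k ≤ (2 * A) ^ (k : ℝ) := by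
      rw [Real.rpow_natCast]
      gcongr
    have h7 : (r / s) ^ (-ρ) * (r / s) ^ k ≤ A ^ ((k : ℝ) - ρ) := by
      rw [← Real.rpow_natCast (r / s) k, ← Real.rpow_add hy0, neg_add_eq_sub]
      exact Real.rpow_le_rpow_of_nonpos hA0 hy1 (by linarith)
    calc ‖tc H k‖ * r ^ k = ‖tc H k‖ * s ^ k * (r / s) ^ k := h1
      _ ≤ (4 * η * (2 * A) ^ ρ * p + 16 * (r / s) ^ (-ρ) * p) * (r / s) ^ k :=
          mul_le_mul_of_nonneg_right h2 (by positivity)
      _ = 4 * η * (2 * A) ^ ρ * p * (r / s) ^ k + 16 * ((r / s) ^ (-ρ) * (r / s) ^ k) * p := by ring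
      _ ≤ 4 * η * (2 * A) ^ ρ * p * (2 * A) ^ (k : ℝ) + 16 * A ^ ((k : ℝ) - ρ) * p := by gcongr
      _ = _ := by
          rw [Real.rpow_add (by positivity : (0:ℝ) < 2 * A)]
          ring
  · intro k hk
    calc ‖tc H k‖ * (4 * r) ^ k ≤ ‖tc H k‖ * R ^ k := by gcongr
      _ ≤ 6 * Pp g R := hcR k hk
      _ ≤ 6 * (2 * (2 * A) ^ ρ * p) := by gcongr
      _ = _ := by ring

/-- choice of parameters -/
theorem choose_params (ρ κ : ℝ) (hρ : 0 ≤ ρ) (hκ : 0 < κ) :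
    ∃ A η : ℝ, 4 ≤ A ∧ 0 < η ∧ η ≤ 1 ∧ 2 * η * (2 * A) ^ ρ ≤ κ / 2 ∧
      (∀ k : ℕ, ρ < k → 12 * A ^ (ρ - k) ≤ κ / 2 * (1 / 2) ^ k) ∧
      (∀ k : ℕ, (k : ℝ) < ρ → 16 * A ^ ((k : ℝ) - ρ) + 4 * η * (2 * A) ^ ((k : ℝ) + ρ) ≤
        κ / 2 * (1 / 2) ^ k) := by
  -- a gap
  obtain ⟨δ, hδ0, hδ1, hδ2⟩ : ∃ δ : ℝ, 0 < δ ∧ (∀ k : ℕ, ρ < k → δ ≤ k - ρ) ∧
      (∀ k : ℕ, (k : ℝ) < ρ → δ ≤ ρ - k) := by
    set n := ⌊ρ⌋₊ with hn
    have hn1 : (n : ℝ) ≤ ρ := Nat.floor_le hρ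
    have hn2 : ρ < n + 1 := Nat.lt_floor_add_one ρ
    by_cases h : (n : ℝ) = ρ
    · refine ⟨1, one_pos, ?_, ?_⟩
      · intro k hk
        rw [← h] at hk ⊢
        have : n + 1 ≤ k := by exact_mod_cast hk
        have : ((n : ℝ) + 1) ≤ k := by exact_mod_cast this
        linarith
      · intro k hk
        rw [← h] at hk ⊢
        have : k + 1 ≤ n := by exact_mod_cast hk
        have : ((k : ℝ) + 1) ≤ n := by exact_mod_cast this
        linarith
    · have h1 : (n : ℝ) < ρ := lt_of_le_of_ne hn1 h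
      refine ⟨min (n + 1 - ρ) (ρ - n), lt_min (by linarith) (by linarith), ?_, ?_⟩
      · intro k hk
        have : n < k := by
          have : (n : ℝ) < k := lt_trans h1 hk
          exact_mod_cast this
        have : ((n : ℝ) + 1) ≤ k := by exact_mod_cast this
        exact (min_le_left _ _).trans (by linarith)
      · intro k hk
        have : k < n + 1 := by
          have : (k : ℝ) < n + 1 := lt_trans hk hn2
          exact_mod_cast this
        have : (k : ℝ) ≤ n := by exact_mod_cast (by omega : k ≤ n)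
        exact (min_le_right _ _).trans (by linarith)
  -- choose A
  have hlim : Tendsto (fun A : ℝ => A ^ (-(δ / 2))) atTop (𝓝 0) := tendsto_rpow_neg_atTop (by positivity)
  have h2ρ : (0:ℝ) < 2 ^ ρ := by positivity
  obtain ⟨A, hA, hA4⟩ := ((hlim.eventually (gt_mem_nhds (show (0:ℝ) < κ / (64 * 2 ^ ρ) by positivity))).and
    (eventually_ge_atTop (4 : ℝ))).exists
  have hA0 : 0 < A := by linarith
  set B : ℝ := (2 * A) ^ (2 * ρ) with hB
  have hB1 : 1 ≤ B := Real.one_le_rpow (by linarith) (by linarith)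
  have hBρ : (2 * A) ^ ρ ≤ B := Real.rpow_le_rpow_of_exponent_le (by linarith) (by linarith)
  have h2ρ1 : (1:ℝ) ≤ 2 ^ ρ := Real.one_le_rpow (by norm_num) hρ
  refine ⟨A, min 1 (κ / (32 * B * 2 ^ ρ)), hA4, lt_min one_pos (by positivity), min_le_left _ _, ?_, ?_, ?_⟩
  · have h1 : min 1 (κ / (32 * B * 2 ^ ρ)) ≤ κ / (32 * B * 2 ^ ρ) := min_le_right _ _
    calc 2 * min 1 (κ / (32 * B * 2 ^ ρ)) * (2 * A) ^ ρ ≤ 2 * (κ / (32 * B * 2 ^ ρ)) * B := by gcongr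
      _ = κ / (16 * 2 ^ ρ) := by field_simp; norm_num
      _ ≤ κ / 2 := by
          apply div_le_div_of_nonneg_left hκ.le (by norm_num)
          linarith
  · intro k hk
    have hd := hδ1 k hk
    have h1 : A ^ (ρ - k) ≤ A ^ (-(δ / 2)) * (2 ^ ρ * (1 / 2) ^ k) := by
      have e1 : A ^ (ρ - k) = A ^ ((ρ - k) / 2) * A ^ ((ρ - k) / 2) := by
        rw [← Real.rpow_add hA0]; congr 1; ring
      have e2 : A ^ ((ρ - k) / 2) ≤ A ^ (-(δ / 2)) :=
        Real.rpow_le_rpow_of_exponent_le (by linarith) (by linarith)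
      have e3 : A ^ ((ρ - k) / 2) ≤ 2 ^ ρ * (1 / 2) ^ k := by
        calc A ^ ((ρ - k) / 2) ≤ 4 ^ ((ρ - k) / 2) :=
              Real.rpow_le_rpow_of_nonpos (by norm_num) hA4 (by linarith)
          _ = 2 ^ ρ * (1 / 2) ^ k := by
              rw [show (4:ℝ) = 2 ^ (2:ℝ) by norm_num, ← Real.rpow_mul (by norm_num),
                show (2:ℝ) * ((ρ - k) / 2) = ρ - k by ring, Real.rpow_sub (by norm_num),
                Real.rpow_natCast, one_div, inv_pow]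
              rfl
      rw [e1]
      exact mul_le_mul e2 e3 (by positivity) (by positivity)
    calc 12 * A ^ (ρ - k) ≤ 12 * (κ / (64 * 2 ^ ρ) * (2 ^ ρ * (1 / 2) ^ k)) := by
          gcongr
          refine h1.trans ?_
          gcongr
      _ = (12 / 64 * κ) * (1 / 2) ^ k := by field_simp
      _ ≤ κ / 2 * (1 / 2) ^ k := by
          gcongr
          linarith
  · intro k hk
    have hd := hδ2 k hk
    have hone : (1:ℝ) ≤ 2 ^ ρ * (1 / 2) ^ k := by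
      rw [one_div, inv_pow, ← Real.rpow_natCast, ← Real.rpow_neg (by norm_num), ← Real.rpow_add (by norm_num)]
      exact Real.one_le_rpow (by norm_num) (by linarith)
    have h1 : A ^ ((k : ℝ) - ρ) ≤ κ / (64 * 2 ^ ρ) := by
      refine le_trans ?_ hA.le
      exact Real.rpow_le_rpow_of_exponent_le (by linarith) (by linarith)
    have h2 : (2 * A) ^ ((k : ℝ) + ρ) ≤ B :=
      Real.rpow_le_rpow_of_exponent_le (by linarith) (by linarith)
    have h3 : 16 * A ^ ((k : ℝ) - ρ) + 4 * min 1 (κ / (32 * B * 2 ^ ρ)) * (2 * A) ^ ((k : ℝ) + ρ) ≤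
        16 * (κ / (64 * 2 ^ ρ)) + 4 * (κ / (32 * B * 2 ^ ρ)) * B := by
      gcongr
      exact min_le_right _ _
    have h4 : 16 * (κ / (64 * 2 ^ ρ)) + 4 * (κ / (32 * B * 2 ^ ρ)) * B = (3 / 8 * κ) * (1 / 2 ^ ρ) := by
      field_simp
      norm_num
    have h5 : (1:ℝ) / 2 ^ ρ ≤ (1 / 2) ^ k := by
      rw [div_le_iff₀ h2ρ, mul_comm]
      exact hone
    rw [h4] at h3
    refine h3.trans ?_
    calc (3 / 8 * κ) * (1 / 2 ^ ρ) ≤ (3 / 8 * κ) * (1 / 2) ^ k := by gcongr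
      _ ≤ κ / 2 * (1 / 2) ^ k := by
          gcongr
          linarith

end Pool.Agent.Helper30.Fuchs
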