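import Mathlib

set_option autoImplicit false

open Finset

namespace Pool.Agent.Helper30.Fuchs

/-- `ee x = e^{2 π i x}` -/
noncomputable def ee (x : ℝ) : ℂ := Complex.exp (Complex.I * ((2 * Real.pi * x : ℝ) : ℂ))

theorem norm_ee (x : ℝ) : ‖ee x‖ = 1 := by
  rw [ee, mul_comm]
  exact Complex.norm_exp_ofReal_mul_I _

theorem ee_add (x y : ℝ) : ee (x + y) = ee x * ee y := by
  rw [ee, ee, ee, ← Complex.exp_add]
  congr 1
  push_cast
  ring

theorem ee_zero : ee 0 = 1 := by simp [ee]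

theorem ee_nat (n : ℕ) : ee n = 1 := by
  rw [ee]
  have : Complex.I * ((2 * Real.pi * (n : ℝ) : ℝ) : ℂ) = n * (2 * Real.pi * Complex.I) := by
    push_cast; ring
  rw [this]
  exact Complex.exp_nat_mul_two_pi_mul_I n

theorem ee_pow (x : ℝ) (n : ℕ) : ee x ^ n = ee (n * x) := by
  rw [ee, ee, ← Complex.exp_nat_mul]
  congr 1
  push_cast
  ring

theorem norm_ee_sub_one (x : ℝ) : ‖ee x - 1‖ = 2 * |Real.sin (Real.pi * x)| := by
  rw [ee, Complex.norm_exp_I_mul_ofReal_sub_one, Real.norm_eq_abs, abs_mul, abs_two]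
  congr 3
  ring

theorem norm_ee_sub_ee (x y : ℝ) : ‖ee x - ee y‖ = ‖ee (x - y) - 1‖ := by
  have h : ee x - ee y = ee y * (ee (x - y) - 1) := by
    rw [mul_sub, ← ee_add]
    simp
  rw [h, norm_mul, norm_ee, one_mul]

theorem norm_ee_sub_ee_le (x y : ℝ) : ‖ee x - ee y‖ ≤ 2 * Real.pi * |x - y| := by
  rw [norm_ee_sub_ee, ee]
  refine Real.norm_exp_I_mul_ofReal_sub_one_le.trans ?_
  rw [Real.norm_eq_abs, abs_mul, abs_of_pos (by positivity : 0 < 2 * Real.pi)]

theorem four_mul_le_norm {x : ℝ} (h0 : 0 ≤ x) (h1 : x ≤ 1 / 2) : 4 * x ≤ ‖ee x - 1‖ := by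
  rw [norm_ee_sub_one]
  have hpi := Real.pi_pos
  have h2 : 2 / Real.pi * (Real.pi * x) ≤ Real.sin (Real.pi * x) :=
    Real.mul_le_sin (by positivity) (by nlinarith)
  have h3 : 2 / Real.pi * (Real.pi * x) = 2 * x := by field_simp
  have h4 := le_abs_self (Real.sin (Real.pi * x))
  linarith

theorem four_mul_le_norm' {x : ℝ} (h0 : 1 / 2 ≤ x) (h1 : x ≤ 1) : 4 * (1 - x) ≤ ‖ee x - 1‖ := by
  have h := four_mul_le_norm (x := 1 - x) (by linarith) (by linarith)
  rw [norm_ee_sub_one] at h ⊢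
  have : Real.sin (Real.pi * (1 - x)) = Real.sin (Real.pi * x) := by
    rw [mul_sub, mul_one, Real.sin_pi_sub]
  rw [this] at h
  exact h

theorem isPrimitiveRoot_ee {q : ℕ} (hq : 0 < q) : IsPrimitiveRoot (ee (1 / q)) q := by
  have h := Complex.isPrimitiveRoot_exp q hq.ne'
  have : ee (1 / q) = Complex.exp (2 * Real.pi * Complex.I / q) := by
    rw [ee]
    congr 1
    push_cast
    ring
  rw [this]
  exact h

theorem prod_ee (q : ℕ) (hq : 0 < q) (z : ℂ) :
    ∏ m ∈ range q, (z - ee ((m : ℝ) / q)) = z ^ q - 1 := by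
  have h := Polynomial.X_pow_sub_one_eq_prod hq (isPrimitiveRoot_ee hq)
  have h2 := congrArg (Polynomial.eval z) h
  simp only [Polynomial.eval_sub, Polynomial.eval_pow, Polynomial.eval_X, Polynomial.eval_one,
    Polynomial.eval_prod, Polynomial.eval_C] at h2
  rw [h2]
  have him : Polynomial.nthRootsFinset q (1 : ℂ) = (range q).image (fun m => ee (1 / q) ^ m) := by
    symm
    apply Finset.eq_of_subset_of_card_le
    · intro x hx
      rw [Finset.mem_image] at hx
      obtain ⟨m, _, rfl⟩ := hx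
      rw [Polynomial.mem_nthRootsFinset hq]
      rw [← pow_mul, mul_comm, pow_mul, (isPrimitiveRoot_ee hq).pow_eq_one, one_pow]
    · rw [Finset.card_image_of_injOn, card_range]
      · exact (isPrimitiveRoot_ee hq).card_nthRootsFinset.le
      · intro a ha b hb hab
        exact (isPrimitiveRoot_ee hq).pow_inj (by simpa using ha) (by simpa using hb) hab
  rw [him, Finset.prod_image]
  · refine Finset.prod_congr rfl fun m _ => ?_
    rw [ee_pow]
    congr 2
    ring
  · intro a ha b hb hab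
    exact (isPrimitiveRoot_ee hq).pow_inj (by simpa using ha) (by simpa using hb) hab

/-- comparison of a point of the unit circle with the regular points, from outside -/
theorem norm_outer {z w : ℂ} (hz : ‖z‖ = 1) (hw : ‖w‖ = 1) {s : ℝ} (hs : 0 ≤ s) :
    s ≤ ‖(1 + s) * z - w‖ ∧ ‖z - w‖ ≤ ‖(1 + s) * z - w‖ := by
  have key : ‖(1 + s) * z - w‖ ^ 2 = s ^ 2 + (1 + s) * ‖z - w‖ ^ 2 := by
    have hz2 : Complex.normSq z = 1 := by rw [Complex.normSq_eq_norm_sq, hz]; norm_num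
    have hw2 : Complex.normSq w = 1 := by rw [Complex.normSq_eq_norm_sq, hw]; norm_num
    rw [← Complex.normSq_eq_norm_sq, ← Complex.normSq_eq_norm_sq]
    rw [Complex.normSq_apply] at hz2 hw2 ⊢
    rw [Complex.normSq_apply]
    simp only [Complex.sub_re, Complex.mul_re, Complex.add_re, Complex.one_re, Complex.ofReal_re,
      Complex.add_im, Complex.one_im, Complex.ofReal_im, Complex.sub_im, Complex.mul_im, add_zero,
      zero_mul, sub_zero]
    nlinarith
  have h1 := norm_nonneg ((1 + s) * z - w)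
  have h2 := norm_nonneg (z - w)
  constructor
  · apply le_of_sq_le_sq _ h1
    nlinarith [sq_nonneg ‖z - w‖]
  · apply le_of_sq_le_sq _ h1
    nlinarith [sq_nonneg ‖z - w‖, sq_nonneg s]

/-- Upper bound for a product over a slightly perturbed regular polygon. -/
theorem prod_upper (q : ℕ) (hq : 0 < q) (u : ℕ → ℂ) {δ : ℝ} (hδ : 0 < δ)
    (hu : ∀ m < q, ‖u m - ee ((m : ℝ) / q)‖ ≤ δ) {z : ℂ} (hz : ‖z‖ = 1) :
    ∏ m ∈ range q, ‖z - u m‖ ≤ 2 * Real.exp (2 * Real.sqrt δ * q) := by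
  set s := Real.sqrt δ with hs
  have hs0 : 0 < s := Real.sqrt_pos.2 hδ
  have hss : s * s = δ := Real.mul_self_sqrt hδ.le
  have h1 : ∀ m ∈ range q, ‖z - u m‖ ≤ (1 + s) * ‖(1 + s) * z - ee ((m : ℝ) / q)‖ := by
    intro m hm
    obtain ⟨h2, h3⟩ := norm_outer hz (norm_ee ((m : ℝ) / q)) hs0.le
    have h4 : ‖z - u m‖ ≤ ‖z - ee ((m : ℝ) / q)‖ + δ := by
      have h5 : z - u m = (z - ee ((m : ℝ) / q)) - (u m - ee ((m : ℝ) / q)) := by ring
      rw [h5]
      exact (norm_sub_le _ _).trans (by linarith [hu m (mem_range.1 hm)])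
    have h6 : δ ≤ s * ‖(1 + s) * z - ee ((m : ℝ) / q)‖ := by
      rw [← hss]; exact mul_le_mul_of_nonneg_left h2 hs0.le
    linarith
  refine (Finset.prod_le_prod (fun _ _ => norm_nonneg _) h1).trans ?_
  rw [Finset.prod_mul_distrib, Finset.prod_const, card_range, ← norm_prod, prod_ee q hq]
  have h7 : ‖((1 + s) * z) ^ q - 1‖ ≤ 2 * (1 + s) ^ q := by
    refine (norm_sub_le _ _).trans ?_
    rw [norm_pow, norm_mul, hz, mul_one, norm_one]
    have h8 : ‖(1 + s : ℂ)‖ = 1 + s := by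
      rw [← Complex.ofReal_one, ← Complex.ofReal_add, Complex.norm_real, Real.norm_eq_abs,
        abs_of_pos (by linarith)]
    rw [h8]
    have : (1 : ℝ) ≤ (1 + s) ^ q := one_le_pow₀ (by linarith)
    linarith
  have h9 : (1 + s) ^ q ≤ Real.exp (s * q) := by
    have := Real.add_one_le_exp s
    calc (1 + s) ^ q ≤ (Real.exp s) ^ q := pow_le_pow_left₀ (by linarith) (by linarith) q
      _ = Real.exp (s * q) := by rw [← Real.exp_nat_mul]; ring_nf
  calc (1 + s) ^ q * ‖((1 + s) * z) ^ q - 1‖ ≤ (1 + s) ^ q * (2 * (1 + s) ^ q) :=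
        mul_le_mul_of_nonneg_left h7 (by positivity)
    _ = 2 * ((1 + s) ^ q * (1 + s) ^ q) := by ring
    _ ≤ 2 * (Real.exp (s * q) * Real.exp (s * q)) := by gcongr
    _ = 2 * Real.exp (2 * s * q) := by rw [← Real.exp_add]; ring_nf

/-- Lower bound for the far part of a product over a slightly perturbed regular polygon. -/
theorem prod_lower (q : ℕ) (hq : 0 < q) (u : ℕ → ℂ) {δ τ : ℝ} (hδ : 0 < δ) (hτ : 0 < τ)
    (hδτ : 2 * δ + τ ≤ 1)
    (hu : ∀ m < q, ‖u m - ee ((m : ℝ) / q)‖ ≤ δ) {z : ℂ} (hz : ‖z‖ = 1) (hqδ : 1 ≤ q * δ) :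
    Real.exp (-(2 * δ / τ * q)) ≤ ∏ m ∈ (range q).filter (fun m => τ ≤ ‖z - u m‖), ‖z - u m‖ := by
  have hz0 : ∀ m < q, ‖(1 + δ) * z - ee ((m : ℝ) / q)‖ ≤ ‖z - u m‖ + 2 * δ := by
    intro m hm
    have h5 : (1 + δ) * z - ee ((m : ℝ) / q) = (z - u m) + (u m - ee ((m : ℝ) / q)) + δ * z := by ring
    rw [h5]
    refine (norm_add_le _ _).trans ?_
    have h6 : ‖(δ : ℂ) * z‖ = δ := by
      rw [norm_mul, hz, mul_one, Complex.norm_real, Real.norm_eq_abs, abs_of_pos hδ]
    have := norm_add_le (z - u m) (u m - ee ((m : ℝ) / q))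
    have := hu m hm
    linarith
  have h1 : ∀ m ∈ (range q).filter (fun m => τ ≤ ‖z - u m‖),
      ‖(1 + δ) * z - ee ((m : ℝ) / q)‖ ≤ Real.exp (2 * δ / τ) * ‖z - u m‖ := by
    intro m hm
    rw [mem_filter, mem_range] at hm
    have h2 := hz0 m hm.1
    have h3 : 2 * δ ≤ 2 * δ / τ * ‖z - u m‖ := by
      rw [div_mul_eq_mul_div, le_div_iff₀ hτ]
      nlinarith [hm.2]
    have h4 := Real.add_one_le_exp (2 * δ / τ)
    have h5 : 0 ≤ ‖z - u m‖ := norm_nonneg _
    nlinarith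
  have h2 : ∀ m ∈ (range q).filter (fun m => ¬ τ ≤ ‖z - u m‖),
      ‖(1 + δ) * z - ee ((m : ℝ) / q)‖ ≤ 1 := by
    intro m hm
    rw [mem_filter, mem_range, not_le] at hm
    have := hz0 m hm.1
    linarith [hm.2]
  have h3 : ∏ m ∈ range q, ‖(1 + δ) * z - ee ((m : ℝ) / q)‖ ≤
      ∏ m ∈ (range q).filter (fun m => τ ≤ ‖z - u m‖), (Real.exp (2 * δ / τ) * ‖z - u m‖) := by
    rw [← Finset.prod_filter_mul_prod_filter_not (range q) (fun m => τ ≤ ‖z - u m‖)]
    calc _ ≤ (∏ m ∈ (range q).filter (fun m => τ ≤ ‖z - u m‖), (Real.exp (2 * δ / τ) * ‖z - u m‖)) * 1 := by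
          apply mul_le_mul
          · exact Finset.prod_le_prod (fun _ _ => norm_nonneg _) h1
          · exact Finset.prod_le_one (fun _ _ => norm_nonneg _) h2
          · exact Finset.prod_nonneg fun _ _ => norm_nonneg _
          · exact Finset.prod_nonneg fun _ _ => by positivity
      _ = _ := mul_one _
  rw [← norm_prod, prod_ee q hq, Finset.prod_mul_distrib, Finset.prod_const] at h3
  have h4 : 1 ≤ ‖((1 + δ) * z) ^ q - 1‖ := by
    have h5 : ‖((1 + δ) * z) ^ q‖ = (1 + δ) ^ q := by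
      rw [norm_pow, norm_mul, hz, mul_one, ← Complex.ofReal_one, ← Complex.ofReal_add,
        Complex.norm_real, Real.norm_eq_abs, abs_of_pos (by linarith)]
    have h6 : 1 + q * δ ≤ (1 + δ) ^ q := one_add_mul_le_pow (by linarith) q
    have h7 := norm_sub_norm_le (((1 + δ) * z) ^ q) 1
    rw [h5, norm_one] at h7
    linarith
  have h5 : Real.exp (2 * δ / τ) ^ ((range q).filter (fun m => τ ≤ ‖z - u m‖)).card ≤
      Real.exp (2 * δ / τ * q) := by
    rw [← Real.exp_nat_mul]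
    apply Real.exp_le_exp.2
    have h6 : (((range q).filter (fun m => τ ≤ ‖z - u m‖)).card : ℝ) ≤ q := by
      have := Finset.card_filter_le (range q) (fun m => τ ≤ ‖z - u m‖)
      rw [card_range] at this
      exact_mod_cast this
    have h7 : 0 ≤ 2 * δ / τ := by positivity
    nlinarith
  have h6 : 0 ≤ ∏ m ∈ (range q).filter (fun m => τ ≤ ‖z - u m‖), ‖z - u m‖ :=
    Finset.prod_nonneg fun _ _ => norm_nonneg _
  rw [Real.exp_neg, inv_le_iff_one_le_mul₀ (Real.exp_pos _)]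
  calc 1 ≤ _ := h4
    _ ≤ _ := h3
    _ ≤ Real.exp (2 * δ / τ * q) * _ := mul_le_mul_of_nonneg_right h5 h6
    _ = _ := mul_comm _ _


/-- product bound for one side of the near points -/
theorem near_half (S : Finset ℕ) (f : ℕ → ℝ) (w : ℕ → ℕ) (N : ℕ) {τ : ℝ} (hN : 0 < N)
    (hτ : 0 < τ) (hτ1 : τ ≤ 1) (hw1 : ∀ z ∈ S, 1 ≤ w z) (hinj : Set.InjOn w S)
    (hf : ∀ z ∈ S, 4 * (w z : ℝ) / N ≤ f z) (hft : ∀ z ∈ S, f z < τ) :
    Real.exp (-(τ / 4 * (1 + Real.log (1 / τ)) * N)) ≤ ∏ z ∈ S, f z := by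
  classical
  have hN' : (0 : ℝ) < N := by exact_mod_cast hN
  set m := ⌊τ * N / 4⌋₊ with hm
  have hmle : (m : ℝ) ≤ τ * N / 4 := Nat.floor_le (by positivity)
  have himg : S.image w ⊆ Finset.Icc 1 m := by
    intro x hx
    rw [Finset.mem_image] at hx
    obtain ⟨z, hz, rfl⟩ := hx
    rw [Finset.mem_Icc]
    refine ⟨hw1 z hz, ?_⟩
    apply Nat.le_floor
    have h1 := (hf z hz).trans (hft z hz).le
    rw [div_le_iff₀ hN'] at h1
    linarith
  have h1 : ∏ z ∈ S, (4 * (w z : ℝ) / N) ≤ ∏ z ∈ S, f z :=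
    Finset.prod_le_prod (fun _ _ => by positivity) hf
  refine le_trans ?_ h1
  have h2 : ∏ z ∈ S, (4 * (w z : ℝ) / N) = ∏ x ∈ S.image w, (4 * (x : ℝ) / N) := by
    rw [Finset.prod_image hinj]
  rw [h2]
  have h3 : ∏ x ∈ Finset.Icc 1 m, (4 * (x : ℝ) / N) ≤ ∏ x ∈ S.image w, (4 * (x : ℝ) / N) := by
    rw [← Finset.prod_sdiff himg]
    have h4 : ∏ x ∈ Finset.Icc 1 m \ S.image w, (4 * (x : ℝ) / N) ≤ 1 := by
      apply Finset.prod_le_one
      · intro x _; positivity
      · intro x hx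
        rw [Finset.mem_sdiff, Finset.mem_Icc] at hx
        rw [div_le_one hN']
        have : (x : ℝ) ≤ m := by exact_mod_cast hx.1.2
        nlinarith
    have h5 : 0 ≤ ∏ x ∈ S.image w, (4 * (x : ℝ) / N) := Finset.prod_nonneg fun _ _ => by positivity
    nlinarith
  refine le_trans ?_ h3
  have h4 : ∏ x ∈ Finset.Icc 1 m, (4 * (x : ℝ) / N) = (4 / N) ^ m * m.factorial := by
    have : ∀ x : ℕ, 4 * (x : ℝ) / N = 4 / N * (x : ℝ) := fun x => by ring
    simp_rw [this]
    have hIcc : Finset.Icc 1 m = Finset.Ico 1 (m + 1) := by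
      ext x; simp only [Finset.mem_Icc, Finset.mem_Ico]; omega
    rw [Finset.prod_mul_distrib, Finset.prod_const, Nat.card_Icc, Nat.add_sub_cancel, hIcc,
      ← Finset.prod_Ico_id_eq_factorial]
    push_cast
    rfl
  rw [h4]
  have h5 := Real.pow_div_factorial_le_exp (x := N * τ / 4) (by positivity) m
  rw [div_le_iff₀ (by positivity)] at h5
  have h6 : τ ^ m * Real.exp (-(N * τ / 4)) ≤ (4 / N) ^ m * m.factorial := by
    have h7 : (4 / (N : ℝ)) ^ m * (N * τ / 4) ^ m = τ ^ m := by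
      rw [← mul_pow]; congr 1; field_simp
    calc τ ^ m * Real.exp (-(N * τ / 4))
        = (4 / (N : ℝ)) ^ m * ((N * τ / 4) ^ m * Real.exp (-(N * τ / 4))) := by rw [← h7]; ring
      _ ≤ (4 / (N : ℝ)) ^ m * (Real.exp (N * τ / 4) * m.factorial * Real.exp (-(N * τ / 4))) := by
          gcongr
      _ = (4 / (N : ℝ)) ^ m * m.factorial := by
          rw [mul_right_comm, ← Real.exp_add]; simp
  refine le_trans ?_ h6
  have h8 : Real.exp (Real.log τ * (τ * N / 4)) ≤ τ ^ m := by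
    rw [← Real.rpow_natCast, Real.rpow_def_of_pos hτ]
    apply Real.exp_le_exp.2
    have := Real.log_nonpos hτ.le hτ1
    nlinarith
  calc Real.exp (-(τ / 4 * (1 + Real.log (1 / τ)) * N))
      = Real.exp (Real.log τ * (τ * N / 4)) * Real.exp (-(N * τ / 4)) := by
        rw [← Real.exp_add, one_div, Real.log_inv]
        congr 1
        ring
    _ ≤ _ := by gcongr

theorem ee_add_one (x : ℝ) : ee (x + 1) = ee x := by
  rw [ee_add]
  have := ee_nat 1
  rw [Nat.cast_one] at this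
  rw [this, mul_one]

/-- product bound for the near points -/
theorem near_prod (S : Finset ℕ) (n N : ℕ) {τ : ℝ} (hn : n < N)
    (hτ : 0 < τ) (hτ1 : τ ≤ 1) (hS : ∀ z ∈ S, z < N) (hnS : n ∉ S)
    (hft : ∀ z ∈ S, ‖ee ((n : ℝ) / N) - ee ((z : ℝ) / N)‖ < τ) :
    Real.exp (-(τ / 2 * (1 + Real.log (1 / τ)) * N)) ≤
      ∏ z ∈ S, ‖ee ((n : ℝ) / N) - ee ((z : ℝ) / N)‖ := by
  classical
  have hN : 0 < N := by omega
  have hN' : (0 : ℝ) < N := by exact_mod_cast hN
  let w : ℕ → ℕ := fun z => if n < z then z - n else z + N - n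
  have hw1 : ∀ z ∈ S, 1 ≤ w z ∧ w z < N := by
    intro z hz
    have h1 := hS z hz
    have h2 : z ≠ n := fun h => hnS (h ▸ hz)
    simp only [w]
    split_ifs <;> omega
  have hinj : Set.InjOn w S := by
    intro a ha b hb hab
    have h1 := hS a ha
    have h2 := hS b hb
    simp only [w] at hab
    split_ifs at hab <;> omega
  have heq : ∀ z ∈ S, ‖ee ((n : ℝ) / N) - ee ((z : ℝ) / N)‖ = ‖ee ((w z : ℝ) / N) - 1‖ := by
    intro z hz
    rw [norm_sub_rev, norm_ee_sub_ee]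
    congr 2
    have h1 := hS z hz
    have h2 : z ≠ n := fun h => hnS (h ▸ hz)
    simp only [w]
    split_ifs with h
    · rw [Nat.cast_sub h.le]
      congr 1
      ring
    · rw [Nat.cast_sub (by omega), Nat.cast_add]
      rw [← ee_add_one]
      congr 1
      field_simp
      ring
  rw [← Finset.prod_filter_mul_prod_filter_not S (fun z => 2 * w z ≤ N)]
  have hA : Real.exp (-(τ / 4 * (1 + Real.log (1 / τ)) * N)) ≤
      ∏ z ∈ S.filter (fun z => 2 * w z ≤ N), ‖ee ((n : ℝ) / N) - ee ((z : ℝ) / N)‖ := by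
    apply near_half _ _ w N hN hτ hτ1
    · intro z hz; exact (hw1 z (Finset.mem_filter.1 hz).1).1
    · exact hinj.mono (by intro z hz; exact (Finset.mem_filter.1 hz).1)
    · intro z hz
      rw [Finset.mem_filter] at hz
      rw [heq z hz.1]
      have h1 : (w z : ℝ) / N ≤ 1 / 2 := by
        rw [div_le_div_iff₀ hN' two_pos]
        have : (2 * w z : ℕ) ≤ N := hz.2
        have h' : ((2 * w z : ℕ) : ℝ) ≤ N := by exact_mod_cast this
        push_cast at h'
        linarith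
      have h2 := four_mul_le_norm (x := (w z : ℝ) / N) (by positivity) h1
      calc 4 * (w z : ℝ) / N = 4 * ((w z : ℝ) / N) := by ring
        _ ≤ _ := h2
    · intro z hz; exact hft z (Finset.mem_filter.1 hz).1
  have hB : Real.exp (-(τ / 4 * (1 + Real.log (1 / τ)) * N)) ≤
      ∏ z ∈ S.filter (fun z => ¬ 2 * w z ≤ N), ‖ee ((n : ℝ) / N) - ee ((z : ℝ) / N)‖ := by
    apply near_half _ _ (fun z => N - w z) N hN hτ hτ1
    · intro z hz
      have := hw1 z (Finset.mem_filter.1 hz).1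
      omega
    · intro a ha b hb hab
      have ha' := (Finset.mem_filter.1 ha).1
      have hb' := (Finset.mem_filter.1 hb).1
      have h1 := hw1 a ha'
      have h2 := hw1 b hb'
      apply hinj ha' hb'
      simp only at hab
      omega
    · intro z hz
      rw [Finset.mem_filter] at hz
      rw [heq z hz.1]
      have hwz := hw1 z hz.1
      have h1 : 1 / 2 ≤ (w z : ℝ) / N := by
        rw [div_le_div_iff₀ two_pos hN']
        have h' : (N : ℝ) ≤ ((2 * w z : ℕ) : ℝ) := by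
          have : N ≤ 2 * w z := by omega
          exact_mod_cast this
        push_cast at h'
        linarith
      have h0 : (w z : ℝ) / N ≤ 1 := by
        rw [div_le_one hN']; exact_mod_cast hwz.2.le
      have h2 := four_mul_le_norm' h1 h0
      rw [Nat.cast_sub hwz.2.le]
      calc 4 * ((N : ℝ) - w z) / N = 4 * (1 - (w z : ℝ) / N) := by field_simp
        _ ≤ _ := h2
    · intro z hz; exact hft z (Finset.mem_filter.1 hz).1
  calc Real.exp (-(τ / 2 * (1 + Real.log (1 / τ)) * N))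
      = Real.exp (-(τ / 4 * (1 + Real.log (1 / τ)) * N)) *
        Real.exp (-(τ / 4 * (1 + Real.log (1 / τ)) * N)) := by
        rw [← Real.exp_add]; congr 1; ring
    _ ≤ _ := mul_le_mul hA hB (Real.exp_pos _).le (Finset.prod_nonneg fun _ _ => norm_nonneg _)

theorem prod_range_block {M : Type*} [CommMonoid M] (K p : ℕ) (hp : 0 < p) (G : ℕ → ℕ → M) :
    ∏ m ∈ range (K * p), G (m / p) (m % p) = ∏ j ∈ range K, ∏ i ∈ range p, G j i := by
  induction K with
  | zero => simp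
  | succ K ih =>
    rw [Nat.add_mul, one_mul, Finset.prod_range_add, ih, Finset.prod_range_succ]
    congr 1
    refine Finset.prod_congr rfl fun x hx => ?_
    rw [mem_range] at hx
    have h1 : (K * p + x) / p = K := by
      rw [Nat.mul_comm, Nat.mul_add_div hp, Nat.div_eq_of_lt hx, add_zero]
    have h2 : (K * p + x) % p = x := by
      rw [Nat.mul_comm, Nat.mul_add_mod, Nat.mod_eq_of_lt hx]
    rw [h1, h2]


theorem exists_enum (S : Finset ℕ) : ∃ e : ℕ → ℕ, (∀ i < S.card, e i ∈ S) ∧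
    ∀ {M : Type} [CommMonoid M] (F : ℕ → M), ∏ x ∈ S, F x = ∏ i ∈ range S.card, F (e i) := by
  classical
  refine ⟨fun i => if h : i < S.card then (S.equivFin.symm ⟨i, h⟩ : ℕ) else 0, ?_, ?_⟩
  · intro i hi
    simp only [hi, dif_pos]
    exact (S.equivFin.symm ⟨i, hi⟩).2
  · intro M _ F
    rw [← Finset.prod_coe_sort S F, ← S.equivFin.symm.prod_comp, Finset.prod_range]
    refine Finset.prod_congr rfl fun i _ => ?_
    simp [i.2]

/-- The density lemma: a set of exponents of local density less than `D₂` can be completed to a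
well distributed set. -/
theorem density_lemma (Λ : Set ℕ) (D' D₂ : ℝ) (hD : 0 ≤ D') (h2 : D' < D₂) (h3 : D₂ ≤ 1)
    (hΛ : ∀ K : ℕ, 0 < K → ∃ N₀ : ℕ, ∀ N ≥ N₀, ∀ j < K,
      ∀ F : Finset ℕ, (∀ k ∈ F, k ∈ Λ ∧ ((j : ℝ) * N / K ≤ k) ∧ (k : ℝ) < (j + 1) * N / K) →
      (F.card : ℝ) ≤ D' * N / K)
    {ε : ℝ} (hε : 0 < ε) :
    ∃ N₀ : ℕ, ∀ N ≥ N₀, ∀ n < N, ∃ Z : Finset ℕ, (∀ z ∈ Z, z < N) ∧ n ∉ Z ∧
      (∀ k < N, k ∈ Λ → k ≠ n → k ∈ Z) ∧ (Z.card : ℝ) ≤ D₂ * N ∧
      (∀ ζ : ℂ, ‖ζ‖ = 1 → ∏ z ∈ Z, ‖ζ - ee ((z : ℝ) / N)‖ ≤ Real.exp (ε * N)) ∧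
      Real.exp (-(ε * N)) ≤ ∏ z ∈ Z, ‖ee ((n : ℝ) / N) - ee ((z : ℝ) / N)‖ := by
  classical
  -- choose τ
  obtain ⟨τ, hτ0, hτ1, hτε⟩ : ∃ τ : ℝ, 0 < τ ∧ τ ≤ 1 / 2 ∧ τ / 2 * (1 + Real.log (1 / τ)) ≤ ε / 4 := by
    have hcont : Filter.Tendsto (fun τ : ℝ => τ / 2 - (Real.log τ * τ) / 2) (nhdsWithin 0 (Set.Ioi 0))
        (nhds (0 / 2 - 0 / 2)) := by
      apply Filter.Tendsto.sub
      · apply Filter.Tendsto.div_const
        exact Filter.Tendsto.mono_left Filter.tendsto_id nhdsWithin_le_nhds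
      · apply Filter.Tendsto.div_const
        have h := tendsto_log_mul_rpow_nhdsGT_zero zero_lt_one
        simpa only [Real.rpow_one] using h
    rw [zero_div, sub_zero] at hcont
    have h1 := hcont.eventually (gt_mem_nhds (show (0 : ℝ) < ε / 4 by positivity))
    have h2 : ∀ᶠ τ : ℝ in nhdsWithin 0 (Set.Ioi 0), τ ∈ Set.Ioc (0 : ℝ) (1 / 2) :=
      Ioc_mem_nhdsGT (by norm_num)
    obtain ⟨τ, h3, h4⟩ := (h1.and h2).exists
    refine ⟨τ, h4.1, h4.2, ?_⟩
    rw [one_div, Real.log_inv]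
    have : τ / 2 * (1 + -Real.log τ) = τ / 2 - (Real.log τ * τ) / 2 := by ring
    rw [this]
    exact h3.le
  -- choose K
  have hpi := Real.pi_pos
  obtain ⟨K, hK⟩ := exists_nat_gt (max (16 * Real.pi) (max (2 * Real.pi * (8 / (τ * ε)))
    (2 * Real.pi * (16 / ε ^ 2))))
  have hK1 : 16 * Real.pi < K := lt_of_le_of_lt (le_max_left _ _) hK
  have hK2 : 2 * Real.pi * (8 / (τ * ε)) < K :=
    lt_of_le_of_lt ((le_max_left _ _).trans (le_max_right _ _)) hK
  have hK3 : 2 * Real.pi * (16 / ε ^ 2) < K :=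
    lt_of_le_of_lt ((le_max_right _ _).trans (le_max_right _ _)) hK
  have hKpos : (0 : ℝ) < K := by linarith
  have hK0 : 0 < K := by exact_mod_cast hKpos
  set δ : ℝ := 2 * Real.pi / K with hδdef
  have hδ0 : 0 < δ := by positivity
  have hδ1 : 2 * δ + τ ≤ 1 := by
    have : 2 * δ ≤ 1 / 4 := by
      rw [hδdef, mul_div_assoc', div_le_iff₀ hKpos]; linarith
    linarith
  have hδ2 : 2 * δ / τ ≤ ε / 4 := by
    rw [div_le_iff₀ hτ0, hδdef, mul_div_assoc', div_le_iff₀ hKpos]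
    have h : 2 * Real.pi * (8 / (τ * ε)) * (τ * ε) = 2 * Real.pi * 8 := by field_simp
    have h' : 2 * Real.pi * (8 / (τ * ε)) * (τ * ε) ≤ K * (τ * ε) :=
      mul_le_mul_of_nonneg_right hK2.le (by positivity)
    nlinarith
  have hδ3 : 2 * Real.sqrt δ ≤ ε / 2 := by
    have h1 : δ ≤ (ε / 4) ^ 2 := by
      rw [hδdef, div_le_iff₀ hKpos]
      have h : 2 * Real.pi * (16 / ε ^ 2) * (ε ^ 2 / 16) = 2 * Real.pi := by field_simp
      have h' : 2 * Real.pi * (16 / ε ^ 2) * (ε ^ 2 / 16) ≤ K * (ε ^ 2 / 16) :=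
        mul_le_mul_of_nonneg_right hK3.le (by positivity)
      nlinarith
    have h2 : Real.sqrt δ ≤ ε / 4 := by
      rw [← Real.sqrt_sq (show (0 : ℝ) ≤ ε / 4 by positivity)]
      exact Real.sqrt_le_sqrt h1
    linarith
  obtain ⟨N₁, hN₁⟩ := hΛ K hK0
  obtain ⟨N₂, hN₂⟩ := exists_nat_gt (max ((K : ℝ) * 4 / (1 - D')) (max (2 * (K : ℝ) / (D₂ - D')) (Real.log 2 / (ε / 2))))
  refine ⟨max N₁ (max N₂ 1), fun N hN n hn => ?_⟩
  have hNN₁ : N₁ ≤ N := le_trans (le_max_left _ _) hN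
  have hNN₂ : N₂ ≤ N := le_trans ((le_max_left _ _).trans (le_max_right _ _)) hN
  have hN1 : 1 ≤ N := le_trans ((le_max_right _ _).trans (le_max_right _ _)) hN
  have hNpos : (0 : ℝ) < N := by exact_mod_cast hN1
  have hNN : (N₂ : ℝ) ≤ N := by exact_mod_cast hNN₂
  have hD1 : 0 < 1 - D' := by linarith
  have hD2 : 0 < D₂ - D' := by linarith
  have hN3 : (K : ℝ) * 4 < (1 - D') * N := by
    have : (K : ℝ) * 4 / (1 - D') < N := lt_of_lt_of_le (lt_of_le_of_lt (le_max_left _ _) hN₂) hNN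
    rw [div_lt_iff₀ hD1] at this
    linarith
  have hN4 : 2 * (K : ℝ) < (D₂ - D') * N := by
    have : 2 * (K : ℝ) / (D₂ - D') < N :=
      lt_of_lt_of_le (lt_of_le_of_lt ((le_max_left _ _).trans (le_max_right _ _)) hN₂) hNN
    rw [div_lt_iff₀ hD2] at this
    linarith
  have hN5 : Real.log 2 < ε / 2 * N := by
    have : Real.log 2 / (ε / 2) < N :=
      lt_of_lt_of_le (lt_of_le_of_lt ((le_max_right _ _).trans (le_max_right _ _)) hN₂) hNN
    rw [div_lt_iff₀ (by positivity)] at this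
    linarith
  -- the blocks
  let B : ℕ → Finset ℕ := fun j => Finset.Ico ⌈(j : ℝ) * N / K⌉₊ ⌈((j : ℝ) + 1) * N / K⌉₊
  have hB : ∀ j k, k ∈ B j ↔ ((j : ℝ) * N / K ≤ k ∧ (k : ℝ) < (j + 1) * N / K) := by
    intro j k
    simp only [B, Finset.mem_Ico, Nat.ceil_le, Nat.lt_ceil]
  set p : ℕ := ⌈D' * N / K⌉₊ + 1 with hp
  have hpos : 0 < p := by omega
  have hple : (p : ℝ) ≤ D' * N / K + 2 := by
    have := (Nat.ceil_lt_add_one (show 0 ≤ D' * N / K by positivity)).le
    rw [hp]; push_cast; linarith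
  have hex : ∀ j : ℕ, ∃ Zj : Finset ℕ, j < K → ((B j).filter (fun k => k ∈ Λ ∧ k ≠ n) ⊆ Zj ∧
      Zj ⊆ (B j).erase n ∧ Zj.card = p) := by
    intro j
    by_cases hj : j < K
    · have h1 : (B j).filter (fun k => k ∈ Λ ∧ k ≠ n) ⊆ (B j).erase n := by
        intro k hk
        rw [Finset.mem_filter] at hk
        exact Finset.mem_erase.2 ⟨hk.2.2, hk.1⟩
      have h2 : ((B j).filter (fun k => k ∈ Λ ∧ k ≠ n)).card ≤ p := by
        have h3 := hN₁ N hNN₁ j hj ((B j).filter (fun k => k ∈ Λ ∧ k ≠ n)) (by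
          intro k hk
          rw [Finset.mem_filter] at hk
          exact ⟨hk.2.1, ((hB j k).1 hk.1).1, ((hB j k).1 hk.1).2⟩)
        have h4 := Nat.le_ceil (D' * N / K)
        have h5 : ((((B j).filter (fun k => k ∈ Λ ∧ k ≠ n)).card : ℕ) : ℝ) ≤ ((p : ℕ) : ℝ) := by
          rw [hp]; push_cast; linarith
        exact_mod_cast h5
      have h3 : p ≤ ((B j).erase n).card := by
        have h4 : (B j).card - 1 ≤ ((B j).erase n).card := Finset.pred_card_le_card_erase
        have h5 : ((N : ℝ) / K - 1) ≤ ((B j).card : ℝ) := by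
          simp only [B, Nat.card_Ico]
          have h6 := Nat.le_ceil (((j : ℝ) + 1) * N / K)
          have h7 := (Nat.ceil_lt_add_one (show 0 ≤ (j : ℝ) * N / K by positivity)).le
          have h8 : ((⌈((j : ℝ) + 1) * N / K⌉₊ : ℕ) : ℝ) - ((⌈(j : ℝ) * N / K⌉₊ : ℕ) : ℝ) ≤
              ((⌈((j : ℝ) + 1) * N / K⌉₊ - ⌈(j : ℝ) * N / K⌉₊ : ℕ) : ℝ) := by
            rw [sub_le_iff_le_add]
            exact_mod_cast (by omega : ⌈((j : ℝ) + 1) * N / K⌉₊ ≤
              (⌈((j : ℝ) + 1) * N / K⌉₊ - ⌈(j : ℝ) * N / K⌉₊) + ⌈(j : ℝ) * N / K⌉₊)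
          have h9 : ((j : ℝ) + 1) * N / K = (j : ℝ) * N / K + N / K := by ring
          linarith
        have h10 : (p : ℝ) + 1 ≤ ((B j).card : ℝ) := by
          have h11 : D' * N / K + 4 < N / K := by
            rw [div_add' _ _ _ hKpos.ne', div_lt_div_iff_of_pos_right hKpos]
            nlinarith
          -- sharpen using the ceiling bound
          have := (Nat.ceil_lt_add_one (show 0 ≤ D' * N / K by positivity)).le
          rw [hp]; push_cast
          linarith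
        have h12 : p + 1 ≤ (B j).card := by exact_mod_cast h10
        omega
      obtain ⟨Zj, hZ1, hZ2, hZ3⟩ := Finset.exists_subsuperset_card_eq h1 h2 h3
      exact ⟨Zj, fun _ => ⟨hZ1, hZ2, hZ3⟩⟩
    · exact ⟨∅, fun h => absurd h hj⟩
  choose Zf hZf using hex
  choose e he1 he2 using fun j => exists_enum (Zf j)
  have hdisj : ∀ j₁ ∈ range K, ∀ j₂ ∈ range K, j₁ ≠ j₂ → Disjoint (Zf j₁) (Zf j₂) := by
    intro j₁ hj₁ j₂ hj₂ hne
    rw [Finset.disjoint_left]
    intro k hk1 hk2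
    have h1 := (hB _ _).1 (Finset.mem_of_mem_erase ((hZf j₁ (mem_range.1 hj₁)).2.1 hk1))
    have h2 := (hB _ _).1 (Finset.mem_of_mem_erase ((hZf j₂ (mem_range.1 hj₂)).2.1 hk2))
    have h3 : ∀ a b : ℕ, (a : ℝ) * N / K ≤ k → (k : ℝ) < (b + 1) * N / K → a ≤ b := by
      intro a b ha hb
      have h4 : (a : ℝ) * N / K < (b + 1) * N / K := lt_of_le_of_lt ha hb
      rw [div_lt_div_iff_of_pos_right hKpos] at h4
      have h5 : (a : ℝ) < b + 1 := lt_of_mul_lt_mul_right h4 hNpos.le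
      have h6 : a < b + 1 := by exact_mod_cast h5
      omega
    exact hne (le_antisymm (h3 _ _ h1.1 h2.2) (h3 _ _ h2.1 h1.2))
  let Z : Finset ℕ := (range K).biUnion Zf
  have hZmem : ∀ z ∈ Z, z < N ∧ z ≠ n := by
    intro z hz
    simp only [Z, Finset.mem_biUnion, mem_range] at hz
    obtain ⟨j, hj, hzj⟩ := hz
    have h1 := Finset.mem_erase.1 ((hZf j hj).2.1 hzj)
    have h2 := (hB _ _).1 h1.2
    refine ⟨?_, h1.1⟩
    have h3 : ((j : ℝ) + 1) * N / K ≤ N := by
      rw [div_le_iff₀ hKpos]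
      have : ((j : ℝ) + 1) ≤ K := by exact_mod_cast hj
      nlinarith
    have h4 : (z : ℝ) < N := lt_of_lt_of_le h2.2 h3
    exact_mod_cast h4
  have hcard : Z.card = K * p := by
    rw [Finset.card_biUnion hdisj, Finset.sum_congr rfl (fun j hj => (hZf j (mem_range.1 hj)).2.2),
      Finset.sum_const, card_range, smul_eq_mul]
  have hprod : ∀ {M : Type} [CommMonoid M] (F : ℕ → M), ∏ z ∈ Z, F z =
      ∏ m ∈ range (K * p), F (e (m / p) (m % p)) := by
    intro M _ F
    rw [prod_range_block K p hpos (fun j i => F (e j i)), Finset.prod_biUnion]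
    · refine Finset.prod_congr rfl fun j hj => ?_
      rw [he2 j F, (hZf j (mem_range.1 hj)).2.2]
    · intro a ha b hb hab
      exact hdisj a (by simpa using ha) b (by simpa using hb) hab
  set q := K * p with hq
  have hq0 : 0 < q := Nat.mul_pos hK0 hpos
  let u : ℕ → ℂ := fun m => ee ((e (m / p) (m % p) : ℝ) / N)
  have hu : ∀ m < q, ‖u m - ee ((m : ℝ) / q)‖ ≤ δ := by
    intro m hm
    refine (norm_ee_sub_ee_le _ _).trans ?_
    have hj : m / p < K := Nat.div_lt_of_lt_mul (by rw [mul_comm]; exact hm)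
    have hi : m % p < p := Nat.mod_lt _ hpos
    have h1 : e (m / p) (m % p) ∈ Zf (m / p) := by
      apply he1
      rw [(hZf _ hj).2.2]
      exact hi
    have h2 := (hB _ _).1 (Finset.mem_of_mem_erase ((hZf _ hj).2.1 h1))
    have hdm : (m : ℝ) = (m / p : ℕ) * p + (m % p : ℕ) := by
      exact_mod_cast (Nat.div_add_mod' m p).symm
    have hppos : (0 : ℝ) < p := by exact_mod_cast hpos
    have hi' : ((m % p : ℕ) : ℝ) < p := by exact_mod_cast hi
    have hqr : (q : ℝ) = K * p := by rw [hq]; push_cast; ring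
    have h3 : ((m / p : ℕ) : ℝ) / K ≤ (m : ℝ) / q ∧ (m : ℝ) / q ≤ (((m / p : ℕ) : ℝ) + 1) / K := by
      rw [hqr]
      constructor
      · rw [div_le_div_iff₀ hKpos (by positivity)]
        have : (0 : ℝ) ≤ ((m % p : ℕ) : ℝ) := by positivity
        nlinarith
      · rw [div_le_div_iff₀ (by positivity) hKpos]
        nlinarith
    have h4 : ((m / p : ℕ) : ℝ) / K ≤ (e (m / p) (m % p) : ℝ) / N ∧
        (e (m / p) (m % p) : ℝ) / N ≤ (((m / p : ℕ) : ℝ) + 1) / K := by
      constructor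
      · rw [div_le_div_iff₀ hKpos hNpos]
        have := h2.1
        rw [div_le_iff₀ hKpos] at this
        exact this
      · rw [div_le_div_iff₀ hNpos hKpos]
        have := h2.2.le
        rw [le_div_iff₀ hKpos] at this
        exact this
    have h5 : |(e (m / p) (m % p) : ℝ) / N - (m : ℝ) / q| ≤ 1 / K := by
      rw [abs_le]
      have h6 : (((m / p : ℕ) : ℝ) + 1) / K = ((m / p : ℕ) : ℝ) / K + 1 / K := by ring
      constructor <;> linarith [h3.1, h3.2, h4.1, h4.2]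
    calc 2 * Real.pi * |(e (m / p) (m % p) : ℝ) / N - (m : ℝ) / q| ≤ 2 * Real.pi * (1 / K) := by
          gcongr
      _ = δ := by rw [hδdef]; ring
  have hqN : (q : ℝ) ≤ N := by
    have h1 : Z ⊆ range N := fun z hz => mem_range.2 (hZmem z hz).1
    have h2 := Finset.card_le_card h1
    rw [hcard, card_range] at h2
    exact_mod_cast h2
  have hp' : (p : ℝ) ≤ D' * N / K + 2 := hple
  refine ⟨Z, fun z hz => (hZmem z hz).1, fun h => (hZmem n h).2 rfl, ?_, ?_, ?_, ?_⟩
  · intro k hk hkΛ hkn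
    -- the block of k
    have hkr : (k : ℝ) < N := by exact_mod_cast hk
    let j := ⌊(k : ℝ) * K / N⌋₊
    have hj1 : (j : ℝ) ≤ (k : ℝ) * K / N := Nat.floor_le (by positivity)
    have hj2 : (k : ℝ) * K / N < j + 1 := Nat.lt_floor_add_one _
    have hjK : j < K := by
      have : (j : ℝ) < K := by
        refine lt_of_le_of_lt hj1 ?_
        rw [div_lt_iff₀ hNpos]
        nlinarith
      exact_mod_cast this
    have hkB : k ∈ B j := by
      rw [hB]
      constructor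
      · rw [div_le_iff₀ hKpos]
        rw [le_div_iff₀ hNpos] at hj1
        exact hj1
      · rw [lt_div_iff₀ hKpos]
        rw [div_lt_iff₀ hNpos] at hj2
        exact hj2
    have := (hZf j hjK).1 (Finset.mem_filter.2 ⟨hkB, hkΛ, hkn⟩)
    exact Finset.mem_biUnion.2 ⟨j, mem_range.2 hjK, this⟩
  · rw [hcard, hq]
    push_cast
    have h1 : (K : ℝ) * p ≤ K * (D' * N / K + 2) := by gcongr
    have h2 : (K : ℝ) * (D' * N / K + 2) = D' * N + 2 * K := by field_simp
    linarith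
  · intro ζ hζ
    rw [hprod]
    refine (prod_upper q hq0 u hδ0 hu hζ).trans ?_
    have h1 : 2 * Real.sqrt δ * q ≤ ε / 2 * N := by
      have : 0 ≤ Real.sqrt δ := Real.sqrt_nonneg _
      nlinarith
    calc 2 * Real.exp (2 * Real.sqrt δ * q) ≤ 2 * Real.exp (ε / 2 * N) := by gcongr
      _ = Real.exp (Real.log 2) * Real.exp (ε / 2 * N) := by rw [Real.exp_log two_pos]
      _ = Real.exp (Real.log 2 + ε / 2 * N) := by rw [Real.exp_add]
      _ ≤ Real.exp (ε * N) := by
          apply Real.exp_le_exp.2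
          linarith
  · -- lower bound
    rw [← Finset.prod_filter_mul_prod_filter_not Z
      (fun z => τ ≤ ‖ee ((n : ℝ) / N) - ee ((z : ℝ) / N)‖)]
    have hnear := near_prod (Z.filter (fun z => ¬ τ ≤ ‖ee ((n : ℝ) / N) - ee ((z : ℝ) / N)‖)) n N hn hτ0
      (by linarith) (fun z hz => (hZmem z (Finset.mem_filter.1 hz).1).1)
      (fun h => (hZmem n (Finset.mem_filter.1 h).1).2 rfl)
      (fun z hz => not_le.1 (Finset.mem_filter.1 hz).2)
    have hqδ : 1 ≤ (q : ℝ) * δ := by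
      rw [hq, hδdef]
      push_cast
      have hp1 : (1 : ℝ) ≤ p := by exact_mod_cast hpos
      have : (K : ℝ) * p * (2 * Real.pi / K) = 2 * Real.pi * p := by field_simp
      rw [this]
      have := Real.pi_gt_three
      nlinarith
    have hfar := prod_lower q hq0 u hδ0 hτ0 hδ1 hu (norm_ee ((n : ℝ) / N)) hqδ
    have hfareq : ∏ z ∈ Z.filter (fun z : ℕ => τ ≤ ‖ee ((n : ℝ) / N) - ee ((z : ℝ) / N)‖),
        ‖ee ((n : ℝ) / N) - ee ((z : ℝ) / N)‖ =
        ∏ m ∈ (range q).filter (fun m => τ ≤ ‖ee ((n : ℝ) / N) - u m‖), ‖ee ((n : ℝ) / N) - u m‖ := by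
      rw [Finset.prod_filter, Finset.prod_filter, hprod]
    rw [hfareq]
    have h1 : Real.exp (-(ε / 4 * N)) ≤ Real.exp (-(2 * δ / τ * q)) := by
      apply Real.exp_le_exp.2
      have : 0 ≤ 2 * δ / τ := by positivity
      have hq' : (0 : ℝ) ≤ q := by positivity
      nlinarith
    have h2 : Real.exp (-(ε / 4 * N)) ≤ Real.exp (-(τ / 2 * (1 + Real.log (1 / τ)) * N)) := by
      apply Real.exp_le_exp.2
      nlinarith
    calc Real.exp (-(ε * N)) ≤ Real.exp (-(ε / 4 * N)) * Real.exp (-(ε / 4 * N)) := by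
          rw [← Real.exp_add]
          apply Real.exp_le_exp.2
          nlinarith
      _ ≤ _ := mul_le_mul (h1.trans hfar) (h2.trans hnear) (Real.exp_pos _).le
          (Finset.prod_nonneg fun _ _ => norm_nonneg _)

end Pool.Agent.Helper30.Fuchs
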