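import Pool.Agent.Helper30.FA
import Pool.Agent.Helper30.FB

set_option autoImplicit false

open Complex Metric Set Filter Topology Real

namespace Pool.Agent.Helper30.Fuchs

theorem Pp_mono (g : ℂ → ℂ) (hg : Differentiable ℂ g) {a b : ℝ} (ha : 0 < a) (hab : a ≤ b) :
    Pp g a ≤ Pp g b := by
  have hga : AnalyticOnNhd ℂ g univ := fun z _ => hg.analyticAt z
  have h1 : Meromorphic g := fun z => (hg.analyticAt z).meromorphicAt
  have h2 := ValueDistribution.characteristic_monotoneOn h1 (show a ∈ Set.Ioi 0 from ha)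
    (show b ∈ Set.Ioi 0 from ha.trans_le hab) hab
  have h3 : ValueDistribution.logCounting g ⊤ = 0 := by
    rw [ValueDistribution.logCounting_top]
    have : (MeromorphicOn.divisor g univ)⁻ = 0 := by
      rw [negPart_eq_zero]
      exact MeromorphicOn.AnalyticOnNhd.divisor_nonneg hga
    rw [this, map_zero]
  simp only [ValueDistribution.characteristic, h3, add_zero, ValueDistribution.proximity_top] at h2
  exact h2

theorem no_deficiency (g : ℂ → ℂ) (hg : Differentiable ℂ g) (hne : ∃ w, g w ≠ 0)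
    (hP : Tendsto (Pp g) atTop atTop)
    (hA : ∀ η : ℝ, 0 < η → ∃ r₁, ∀ r, r₁ ≤ r → |Am g r - Pp g r| ≤ η * Pp g r)
    (σ K R₀ : ℝ) (hσ : 0 ≤ σ) (hK : ∀ r, R₀ ≤ r → Pp g r ≤ K * r ^ σ)
    (Λ : Set ℕ) (D : ℝ) (hD0 : 0 ≤ D) (hσD : σ * D < 1 / 2) (ξ₀ : ℝ) (hξ₀ : ξ₀ < 1)
    (h : ∀ ξ : ℝ, ξ₀ < ξ → ξ < 1 → ∃ R : ℝ, ∀ r : ℝ, R ≤ r → ∀ F : Finset ℕ,
      (∀ k ∈ F, k ∈ Λ ∧ ξ * r < k ∧ (k : ℝ) ≤ r) → (F.card : ℝ) ≤ D * (1 - ξ) * r)
    (hΛ : ∀ k, k ∉ insert 0 Λ → tc g k = 0) : False := by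
  obtain ⟨n, hn1, hnσ, hmain⟩ := main_A g hg hne hP hA σ K R₀ hσ hK
  have hn1' : (1 : ℝ) ≤ n := by exact_mod_cast hn1
  have hn0 : (0 : ℝ) < n := by linarith
  have hnD : (n : ℝ) * D < 1 / 2 := lt_of_le_of_lt (mul_le_mul_of_nonneg_right hnσ hD0) hσD
  have hD2n : D < 1 / (2 * n) := by
    rw [lt_div_iff₀ (by positivity)]
    linarith
  set D₂ : ℝ := (D + 1 / (2 * n)) / 2 with hD₂
  have hDD₂ : D < D₂ := by rw [hD₂]; linarith
  have hD₂n : D₂ < 1 / (2 * n) := by rw [hD₂]; linarith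
  have hD₂0 : 0 < D₂ := by linarith
  have hnD₂ : n * D₂ < 1 / 2 := by
    rw [lt_div_iff₀ (by positivity)] at hD₂n
    linarith
  have hD₂1 : D₂ ≤ 1 := by nlinarith
  set κ₀ : ℝ := Real.cos (π * (n * D₂)) with hκ₀
  have hpi := Real.pi_pos
  have hκ₀pos : 0 < κ₀ := by
    apply Real.cos_pos_of_mem_Ioo
    constructor
    · have : 0 < π * (n * D₂) := by positivity
      linarith
    · nlinarith
  set κ : ℝ := min (1 / 2) (κ₀ / 8) with hκ
  have hκpos : 0 < κ := lt_min (by norm_num) (by positivity)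
  have hκ1 : κ ≤ 1 / 2 := min_le_left _ _
  have hκ2 : κ ≤ κ₀ / 8 := min_le_right _ _
  obtain ⟨C, hC0, hC⟩ := hmain κ hκpos
  obtain ⟨P₀, hP₀⟩ := main_B Λ D D₂ hD0 hDD₂ hD₂1 ξ₀ hξ₀ h C (κ₀ / 4) hC0 (by positivity)
  obtain ⟨r₀, hr₀⟩ := eventually_atTop.1 (hP.eventually (eventually_ge_atTop P₀))
  obtain ⟨r, hr, hr0, hPr, c, hc, hcirc, hdisk⟩ := hC r₀
  set P := Pp g r with hPdef
  have hrC : (r : ℂ) ≠ 0 := by exact_mod_cast hr0.ne'
  set b : ℕ → ℂ := fun k => tc g k * (r : ℂ) ^ k with hb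
  have hbb : ∀ k, ‖b k‖ ≤ (1 / 2) ^ k * Real.exp (C * P) := by
    intro k
    have h1 := Complex.norm_iteratedDeriv_le_of_forall_mem_sphere_norm_le (c := (0:ℂ)) (R := 2 * r)
      (C := Real.exp (C * P)) (f := g) k (by positivity) hg.diffContOnCl (by
        intro z hz
        apply hdisk
        have : ‖z‖ = 2 * r := by simpa using hz
        exact this.le)
    simp only [hb, tc]
    rw [norm_mul, norm_mul, norm_inv, Complex.norm_natCast, norm_pow, Complex.norm_real,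
      Real.norm_of_nonneg hr0.le]
    have hk : (0:ℝ) < k.factorial := by exact_mod_cast k.factorial_pos
    calc ((k.factorial : ℝ))⁻¹ * ‖iteratedDeriv k g 0‖ * r ^ k ≤
        ((k.factorial : ℝ))⁻¹ * (k.factorial * Real.exp (C * P) / (2 * r) ^ k) * r ^ k := by gcongr
      _ = (1 / 2) ^ k * Real.exp (C * P) := by
          rw [mul_pow, one_div, inv_pow]
          field_simp
  have hsumb : Summable (fun k => ‖b k‖) := by
    apply Summable.of_nonneg_of_le (fun k => norm_nonneg _) hbb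
    exact (summable_geometric_two).mul_right _
  have hgsum : ∀ w : ℂ, ‖w‖ = 1 → g (r * w) = ∑' k, b k * w ^ k := by
    intro w hw
    have h1 := hasSum_tc g (r + 1) hg.differentiableOn (r * w) (by
      rw [norm_mul, hw, Complex.norm_real, Real.norm_of_nonneg hr0.le]
      linarith)
    rw [← h1.tsum_eq]
    congr 1
    funext k
    rw [hb]
    simp only
    rw [mul_pow]
    ring
  set β : ℝ := Complex.arg c with hβ
  have hpol : (‖c‖ : ℂ) * Complex.exp (β * I) = c := Complex.norm_mul_exp_arg_mul_I c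
  set x₀ : ℝ := (π - π * (n * D₂) - β) / (2 * π * n) with hx₀
  have hfin := hP₀ P (hr₀ r hr) b x₀ (by
    intro k hk
    simp only [hb]
    rw [hΛ k hk, zero_mul]) hbb (by
    intro x hx1 hx2
    rw [← hgsum (ee x) (norm_ee x)]
    have hz : ‖(r : ℂ) * ee x‖ = r := by
      rw [norm_mul, norm_ee, mul_one, Complex.norm_real, Real.norm_of_nonneg hr0.le]
    refine (hcirc _ hz).trans (Real.exp_le_exp.2 ?_)
    have h1 : (r : ℂ) * ee x / r = ee x := by field_simp
    rw [h1, ee_pow]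
    have h2 : (c * ee (n * x)).re = ‖c‖ * Real.cos (β + 2 * π * (n * x)) := by
      rw [← hpol, ee, mul_assoc, ← Complex.exp_add]
      have : (β : ℂ) * I + I * ((2 * π * (n * x) : ℝ) : ℂ) = ((β + 2 * π * (n * x) : ℝ) : ℂ) * I := by
        push_cast; ring
      rw [this, Complex.re_ofReal_mul, Complex.exp_ofReal_mul_I_re]
      have h3 : ‖(‖c‖ : ℂ) * Complex.exp (β * I)‖ = ‖c‖ := by rw [hpol]
      rw [h3]
    rw [h2]
    have hpn : 0 < 2 * π * n := by positivity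
    have h3 : π - π * (n * D₂) ≤ β + 2 * π * (n * x) := by
      rw [hx₀, div_le_iff₀ hpn] at hx1
      linarith
    have h4 : β + 2 * π * (n * x) ≤ π + π * (n * D₂) := by
      have h5 : x ≤ x₀ + D₂ := hx2
      have h6 : x₀ * (2 * π * n) = π - π * (n * D₂) - β := by
        rw [hx₀]; field_simp
      have h7 : x * (2 * π * n) ≤ (x₀ + D₂) * (2 * π * n) := mul_le_mul_of_nonneg_right h5 hpn.le
      nlinarith
    have h5 : Real.cos (β + 2 * π * (n * x)) ≤ -κ₀ := by
      have h6 : Real.cos (β + 2 * π * (n * x)) = -Real.cos (|β + 2 * π * (n * x) - π|) := by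
        rw [Real.cos_abs, Real.cos_sub_pi, neg_neg]
      rw [h6, hκ₀]
      apply neg_le_neg
      apply Real.cos_le_cos_of_nonneg_of_le_pi (abs_nonneg _)
      · nlinarith
      · rw [abs_le]; constructor <;> linarith
    have h6 : ‖c‖ * Real.cos (β + 2 * π * (n * x)) ≤ ‖c‖ * (-κ₀) :=
      mul_le_mul_of_nonneg_left h5 (norm_nonneg _)
    have h7 : (1 / 2) * P ≤ ‖c‖ := by nlinarith
    have h8 : κ * P ≤ κ₀ / 8 * P := mul_le_mul_of_nonneg_right hκ2 hPr.le
    nlinarith)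
  have hPle : P ≤ 0 := by
    apply Pp_le g hg r 0 hr0 le_rfl
    intro z hz
    rw [Real.exp_zero]
    have h1 : z = r * (z / r) := by field_simp
    have h2 : ‖z / r‖ = 1 := by
      rw [norm_div, hz, Complex.norm_real, Real.norm_of_nonneg hr0.le, div_self hr0.ne']
    rw [h1, hgsum _ h2]
    have h3 : ∀ k, ‖b k * (z / r) ^ k‖ = ‖b k‖ := by
      intro k
      rw [norm_mul, norm_pow, h2, one_pow, mul_one]
    refine (tsum_of_norm_bounded hsumb.hasSum (fun k => (h3 k).le)).trans hfin.le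
  linarith

end Pool.Agent.Helper30.Fuchs
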