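import Mathlib

set_option autoImplicit false

open Complex Metric Set Filter Topology Real

namespace Pool.Agent.Helper30.Fuchs

/-- Taylor coefficients at the origin. -/
noncomputable def tc (H : ℂ → ℂ) (k : ℕ) : ℂ := ((k.factorial : ℕ) : ℂ)⁻¹ * iteratedDeriv k H 0

theorem norm_circleAverage_le (f : ℂ → ℂ) (c : ℂ) (R : ℝ) :
    ‖circleAverage f c R‖ ≤ circleAverage (fun z => ‖f z‖) c R := by
  rw [circleAverage_def, circleAverage_def, norm_smul, smul_eq_mul, Real.norm_of_nonneg (by positivity)]
  apply mul_le_mul_of_nonneg_left _ (by positivity)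
  exact intervalIntegral.norm_integral_le_integral_norm (by positivity)

theorem tc_eq_circleAverage (H : ℂ → ℂ) (R' s : ℝ) (hs : 0 < s) (hsR : s < R')
    (hH : DifferentiableOn ℂ H (ball 0 R')) (k : ℕ) :
    circleAverage (fun z => 1 / z ^ k * H z) 0 s = tc H k := by
  rw [circleAverage_eq_circleIntegral hs.ne']
  have h1 := (hH.mono (closedBall_subset_ball hsR)).circleIntegral_one_div_sub_center_pow_smul hs k
  simp only [sub_zero, smul_eq_mul] at h1 ⊢
  have h2 : (∮ z in C(0, s), z⁻¹ * (1 / z ^ k * H z)) = ∮ z in C(0, s), 1 / z ^ (k + 1) * H z := by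
    congr 1
    funext z
    rw [pow_succ, one_div, one_div, mul_inv]
    ring
  rw [h2, h1, tc]
  have h3 : (2 * (π : ℂ) * I) ≠ 0 := by
    simp [Real.pi_ne_zero]
  have h4 : ((k.factorial : ℕ) : ℂ) ≠ 0 := by exact_mod_cast k.factorial_ne_zero
  field_simp

theorem tc_bound (H : ℂ → ℂ) (R' s : ℝ) (hs : 0 < s) (hsR : s < R')
    (hH : DifferentiableOn ℂ H (ball 0 R')) (k : ℕ) (hk : 1 ≤ k) :
    ‖tc H k‖ * s ^ k ≤ 2 * circleAverage (fun z => |(H z).re|) 0 s := by
  have hcont : ContinuousOn H (sphere 0 s) :=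
    hH.continuousOn.mono (sphere_subset_closedBall.trans (closedBall_subset_ball hsR))
  have hne : ∀ z ∈ sphere (0:ℂ) s, z ≠ 0 := by
    intro z hz h0
    rw [h0] at hz
    simp at hz
    exact hs.ne' hz.symm
  have e1 := tc_eq_circleAverage H R' s hs hsR hH k
  -- the conjugate average vanishes
  have e2 : circleAverage (fun z => z ^ k * H z) 0 s = 0 := by
    have hd : DifferentiableOn ℂ (fun z => z ^ k * H z) (closure (ball 0 |s|)) := by
      apply DifferentiableOn.mono (t := closure (ball 0 |s|)) _ subset_rfl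
      apply (DifferentiableOn.mul (by fun_prop) hH).mono
      rw [abs_of_pos hs]
      exact closure_ball_subset_closedBall.trans (closedBall_subset_ball hsR)
    have := hd.diffContOnCl.circleAverage
    rw [this, zero_pow (by omega), zero_mul]
  have hint1 : CircleIntegrable (fun z => z ^ k * H z) 0 s := by
    apply ContinuousOn.circleIntegrable hs.le
    exact (continuousOn_id.pow k).mul hcont
  have e3 : circleAverage (fun z => 1 / z ^ k * (starRingEnd ℂ) (H z)) 0 s = 0 := by
    have h1 := (Complex.conjCLE : ℂ →L[ℝ] ℂ).circleAverage_comp_comm hint1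
    rw [e2, map_zero] at h1
    have h2 : circleAverage (fun z => 1 / z ^ k * (starRingEnd ℂ) (H z)) 0 s =
        circleAverage (((s : ℂ) ^ (2 * k))⁻¹ • ((Complex.conjCLE : ℂ →L[ℝ] ℂ) ∘ fun z => z ^ k * H z)) 0 s := by
      apply circleAverage_congr_sphere
      intro z hz
      rw [abs_of_pos hs] at hz
      simp only [Pi.smul_apply, Function.comp_apply, smul_eq_mul]
      have h3 : (Complex.conjCLE : ℂ →L[ℝ] ℂ) (z ^ k * H z) = (starRingEnd ℂ) z ^ k * (starRingEnd ℂ) (H z) := by
        simp
      rw [h3]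
      have h4 : z * (starRingEnd ℂ) z = (s : ℂ) ^ 2 := by
        rw [Complex.mul_conj, Complex.normSq_eq_norm_sq]
        simp at hz
        rw [hz]
        push_cast
        rfl
      have h5 : (starRingEnd ℂ) z ^ k * z ^ k = (s : ℂ) ^ (2 * k) := by
        rw [← mul_pow, mul_comm, h4, ← pow_mul]
      have h6 : z ^ k ≠ 0 := pow_ne_zero _ (hne z hz)
      have h7 : (s : ℂ) ^ (2 * k) ≠ 0 := pow_ne_zero _ (by exact_mod_cast hs.ne')
      field_simp
      rw [← h5]
      ring
    rw [h2, circleAverage_smul, h1, smul_zero]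
  have hc1 : ContinuousOn (fun z : ℂ => 1 / z ^ k) (sphere 0 s) := by
    apply ContinuousOn.div continuousOn_const (continuousOn_id.pow k)
    intro z hz
    exact pow_ne_zero _ (hne z hz)
  have hint2 : CircleIntegrable (fun z => 1 / z ^ k * H z) 0 s :=
    ContinuousOn.circleIntegrable hs.le (hc1.mul hcont)
  have hint3 : CircleIntegrable (fun z => 1 / z ^ k * (starRingEnd ℂ) (H z)) 0 s :=
    ContinuousOn.circleIntegrable hs.le (hc1.mul (Complex.continuous_conj.comp_continuousOn hcont))
  have e4 := circleAverage_fun_add hint2 hint3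
  rw [e1, e3, add_zero] at e4
  rw [← e4]
  have h8 : ‖circleAverage (fun z => 1 / z ^ k * H z + 1 / z ^ k * (starRingEnd ℂ) (H z)) 0 s‖ ≤
      (2 / s ^ k) * circleAverage (fun z => |(H z).re|) 0 s := by
    refine (norm_circleAverage_le _ _ _).trans (le_of_eq ?_)
    rw [← smul_eq_mul, ← circleAverage_smul]
    apply circleAverage_congr_sphere
    intro z hz
    rw [abs_of_pos hs] at hz
    simp only [Pi.smul_apply, smul_eq_mul]
    rw [← mul_add, Complex.add_conj, norm_mul, norm_div, norm_pow, norm_one]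
    simp at hz
    rw [hz, Complex.norm_real, norm_mul, Real.norm_eq_abs, Real.norm_eq_abs, abs_two]
    ring
  calc _ ≤ ((2 / s ^ k) * circleAverage (fun z => |(H z).re|) 0 s) * s ^ k :=
        mul_le_mul_of_nonneg_right h8 (by positivity)
    _ = _ := by field_simp

theorem hasSum_tc (H : ℂ → ℂ) (R' : ℝ) (hH : DifferentiableOn ℂ H (ball 0 R')) (z : ℂ)
    (hz : ‖z‖ < R') : HasSum (fun k => tc H k * z ^ k) (H z) := by
  have h1 := Complex.hasSum_taylorSeries_on_ball hH (z := z) (by simpa using hz)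
  have h2 : (fun k => tc H k * z ^ k) =
      fun n : ℕ => ((n.factorial : ℕ) : ℂ)⁻¹ • (z - 0) ^ n • iteratedDeriv n H 0 := by
    funext k
    simp only [tc, sub_zero, smul_eq_mul]
    ring
  rw [h2]
  exact h1

theorem tc_zero (H : ℂ → ℂ) : tc H 0 = H 0 := by simp [tc]

end Pool.Agent.Helper30.Fuchs
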