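import Mathlib

set_option autoImplicit false

open Complex Metric Set Filter Topology InnerProductSpace

namespace Pool.Agent.Helper30.Fuchs

theorem one_le_norm_canonicalFactor {R : ℝ} {w i : ℂ} (hi : ‖i‖ < R) (hw : ‖w‖ ≤ R) (hne : w ≠ i) :
    1 ≤ ‖canonicalFactor R i w‖ := by
  have hR : 0 < R := lt_of_le_of_lt (norm_nonneg _) hi
  rw [canonicalFactor_apply, norm_div, norm_mul]
  have h1 : 0 < ‖w - i‖ := norm_pos_iff.2 (sub_ne_zero.2 hne)
  have h2 : ‖(R : ℂ)‖ = R := by simp [abs_of_pos hR]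
  rw [h2, one_le_div (by positivity)]
  apply le_of_sq_le_sq _ (norm_nonneg _)
  rw [mul_pow, ← Complex.normSq_eq_norm_sq, ← Complex.normSq_eq_norm_sq]
  have h3 : normSq i ≤ R ^ 2 := by
    rw [Complex.normSq_eq_norm_sq]
    exact pow_le_pow_left₀ (norm_nonneg _) hi.le 2
  have h4 : normSq w ≤ R ^ 2 := by
    rw [Complex.normSq_eq_norm_sq]
    exact pow_le_pow_left₀ (norm_nonneg _) hw 2
  rw [Complex.normSq_apply] at h3 h4 ⊢
  rw [Complex.normSq_apply]
  have e1 : ((R : ℂ) ^ 2 - (starRingEnd ℂ) i * w).re = R ^ 2 - (i.re * w.re + i.im * w.im) := by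
    simp [← Complex.ofReal_pow]
  have e2 : ((R : ℂ) ^ 2 - (starRingEnd ℂ) i * w).im = -(i.re * w.im - i.im * w.re) := by
    simp [← Complex.ofReal_pow]
    ring
  rw [e1, e2]
  simp only [Complex.sub_re, Complex.sub_im]
  nlinarith [mul_nonneg (sub_nonneg.2 h3) (sub_nonneg.2 h4)]

theorem harmonic_majorant (g : ℂ → ℂ) (hg : Differentiable ℂ g) (R : ℝ) (hR : 0 < R)
    (hz : ∀ z : ℂ, ‖z‖ = R → g z ≠ 0) :
    ∃ R' > R, ∃ H : ℂ → ℂ, DifferentiableOn ℂ H (ball 0 R') ∧
      (∀ z : ℂ, ‖z‖ ≤ R → ‖g z‖ ≤ Real.exp (H z).re) ∧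
      (∀ z : ℂ, ‖z‖ = R → ‖g z‖ = Real.exp (H z).re) := by
  have hga : ∀ z, AnalyticAt ℂ g z := fun z => hg.analyticAt z
  have hmer : MeromorphicOn g (closedBall 0 R) := fun z _ => (hga z).meromorphicAt
  have hsph : ∀ z : ℂ, ‖z‖ = R → meromorphicOrderAt g z = 0 := by
    intro z h
    exact ((hga z).meromorphicNFAt.meromorphicOrderAt_eq_zero_iff).2 (hz z h)
  have hord : ∀ u : closedBall (0:ℂ) R, meromorphicOrderAt g u ≠ ⊤ := by
    rw [← hmer.exists_meromorphicOrderAt_ne_top_iff_forall (isConnected_closedBall hR.le)]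
    refine ⟨⟨(R : ℂ), by simp [abs_of_pos hR]⟩, ?_⟩
    rw [hsph (R : ℂ) (by simp [abs_of_pos hR])]
    simp
  obtain ⟨h, D⟩ := hmer.exists_ecanonicalDecomp hord
  have hdivs : ∀ i, MeromorphicOn.divisor g (sphere 0 R) i = 0 := by
    intro i
    by_cases hi : i ∈ sphere (0:ℂ) R
    · rw [MeromorphicOn.divisor_apply (fun z _ => (hga z).meromorphicAt) hi,
        hsph i (by simpa using hi)]
      simp
    · exact Function.locallyFinsuppWithin.apply_eq_zero_of_notMem _ hi
  have hdivn : ∀ i, 0 ≤ MeromorphicOn.divisor g (ball 0 R) i := by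
    intro i
    by_cases hi : i ∈ ball (0:ℂ) R
    · rw [MeromorphicOn.divisor_apply (fun z _ => (hga z).meromorphicAt) hi]
      have := (hga i).meromorphicOrderAt_nonneg
      exact WithTop.untop₀_nonneg.2 this
    · rw [Function.locallyFinsuppWithin.apply_eq_zero_of_notMem _ hi]
  have hfin : (MeromorphicOn.divisor g (ball 0 R)).support.Finite := hmer.divisor_ball_support_finite
  have key : ∀ w : ℂ, ‖w‖ ≤ R → g w ≠ 0 →
      h w = (∏ i ∈ hfin.toFinset, (canonicalFactor R i w) ^ (MeromorphicOn.divisor g (ball 0 R) i)) * g w := by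
    intro w hw hgw
    have h0 : meromorphicOrderAt g w = 0 := ((hga w).meromorphicNFAt.meromorphicOrderAt_eq_zero_iff).2 hgw
    have h1 := D.eq_smul_meromorphicTrailingCoeffAt_of_meromorphicOrderAt (w := w)
      (by simpa using hw) h0 hR
    rw [(hga w).meromorphicTrailingCoeffAt_of_ne_zero hgw] at h1
    rw [h1, smul_eq_mul]
    congr 1
    have h2 : (∏ᶠ i, (w - i) ^ (-MeromorphicOn.divisor g (sphere 0 R)) i) = 1 := by
      rw [← finprod_one (α := ℂ)]
      congr 1
      funext i
      have : (-MeromorphicOn.divisor g (sphere 0 R)) i = 0 := by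
        rw [Function.locallyFinsuppWithin.coe_neg, Pi.neg_apply, hdivs i, neg_zero]
      rw [this, zpow_zero]
    rw [h2, mul_one]
    apply finprod_eq_prod_of_mulSupport_subset
    intro i hi
    simp only [Function.mem_mulSupport] at hi
    simp only [Finite.coe_toFinset, Function.mem_support]
    intro h3
    rw [h3, zpow_zero] at hi
    exact hi rfl
  obtain ⟨e, he, hsub⟩ := (isCompact_closedBall (0:ℂ) R).exists_thickening_subset_open
    (isOpen_setOfPred_harmonicAt (fun z => Real.log ‖h z‖))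
    (fun z hz => (D.analyticOnNhd z hz).harmonicAt_log_norm (D.ne_zero z hz))
  rw [thickening_closedBall he hR.le] at hsub
  obtain ⟨F, h₁F, h₂F⟩ := InnerProductSpace.HarmonicOnNhd.exists_analyticOnNhd_ball_re_eq
    (f := fun z => Real.log ‖h z‖) (z := 0) (R := e + R) hsub
  have hexp : ∀ z : ℂ, ‖z‖ ≤ R → Real.exp (F z).re = ‖h z‖ := by
    intro z hzR
    have h1 := h₂F (x := z) (by simp; linarith)
    simp only at h1
    rw [h1, Real.exp_log]
    exact norm_pos_iff.2 (D.ne_zero z (by simpa using hzR))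
  refine ⟨e + R, by linarith, F, h₁F.differentiableOn, ?_, ?_⟩
  · intro z hzR
    rw [hexp z hzR]
    by_cases hgz : g z = 0
    · rw [hgz, norm_zero]; exact norm_nonneg _
    · rw [key z hzR hgz, norm_mul, norm_prod]
      have : 1 ≤ ∏ i ∈ hfin.toFinset, ‖(canonicalFactor R i z) ^ (MeromorphicOn.divisor g (ball 0 R) i)‖ := by
        refine Finset.prod_induction _ (fun x => 1 ≤ x)
          (fun a b ha hb => one_le_mul_of_one_le_of_one_le ha hb) le_rfl ?_
        intro i hi
        have hib : i ∈ ball (0:ℂ) R := by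
          simp only [Finite.mem_toFinset] at hi
          exact (MeromorphicOn.divisor g (ball 0 R)).supportWithinDomain hi
        have hzi : z ≠ i := by
          intro h0
          simp only [Finite.mem_toFinset, Function.mem_support] at hi
          apply hi
          rw [MeromorphicOn.divisor_apply (fun z _ => (hga z).meromorphicAt) hib, ← h0,
            ((hga z).meromorphicNFAt.meromorphicOrderAt_eq_zero_iff).2 hgz]
          simp
        rw [norm_zpow]
        exact one_le_zpow₀ (one_le_norm_canonicalFactor (by simpa using hib) hzR hzi) (hdivn i)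
      exact le_mul_of_one_le_left (norm_nonneg _) this
  · intro z hzR
    rw [hexp z hzR.le, key z hzR.le (hz z hzR), norm_mul, norm_prod, Finset.prod_eq_one, one_mul]
    intro i hi
    have hib : i ∈ ball (0:ℂ) R := by
      simp only [Finite.mem_toFinset] at hi
      exact (MeromorphicOn.divisor g (ball 0 R)).supportWithinDomain hi
    rw [norm_zpow, norm_canonicalFactor_eval_circle_eq_one hib (by simpa using hzR), one_zpow]

end Pool.Agent.Helper30.Fuchs
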