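import Mathlib

set_option autoImplicit false

open Filter Topology Set

namespace Pool.Agent.Helper30.Fuchs

/-- Existence of Polya peaks. -/
theorem polya_peaks (P : ℝ → ℝ) (hc : Continuous P) (hP : Tendsto P atTop atTop) (σ K R₀ : ℝ)
    (hσ : 0 ≤ σ) (hK : ∀ r, R₀ ≤ r → P r ≤ K * r ^ σ) :
    ∃ ρ : ℝ, 0 ≤ ρ ∧ ρ ≤ σ ∧ ∀ A : ℝ, 1 ≤ A → ∀ r₀ : ℝ, ∃ r, r₀ ≤ r ∧ 0 < r ∧ 0 < P r ∧
      ∀ t, r / A ≤ t → t ≤ A * r → P t ≤ 2 * (t / r) ^ ρ * P r := by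
  classical
  obtain ⟨R₁, hR₁⟩ := (eventually_atTop.1 (hP.eventually (eventually_ge_atTop 1)))
  set r₁ : ℝ := max 1 (max R₀ R₁) with hr₁
  have hr₁1 : 1 ≤ r₁ := le_max_left _ _
  have hr₁R₀ : R₀ ≤ r₁ := (le_max_left _ _).trans (le_max_right _ _)
  have hr₁R₁ : R₁ ≤ r₁ := (le_max_right _ _).trans (le_max_right _ _)
  have hP1 : ∀ r, r₁ ≤ r → 1 ≤ P r := fun r hr => hR₁ r (hr₁R₁.trans hr)
  let S : Set ℝ := {s | 0 ≤ s ∧ ∃ K, ∀ r, r₁ ≤ r → P r ≤ K * r ^ s}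
  have hσS : σ ∈ S := ⟨hσ, K, fun r hr => hK r (hr₁R₀.trans hr)⟩
  have hSb : BddBelow S := ⟨0, fun s hs => hs.1⟩
  set ρ := sInf S with hρ
  have hρ0 : 0 ≤ ρ := le_csInf ⟨σ, hσS⟩ fun s hs => hs.1
  have hρσ : ρ ≤ σ := csInf_le hSb hσS
  refine ⟨ρ, hρ0, hρσ, fun A hA r₀ => ?_⟩
  -- choose ε
  obtain ⟨ε, hε0, hεA⟩ : ∃ ε : ℝ, 0 < ε ∧ A ^ ε ≤ 4 / 3 := by
    have hlA : 0 ≤ Real.log A := Real.log_nonneg hA
    have hl43 : 0 < Real.log (4 / 3) := Real.log_pos (by norm_num)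
    refine ⟨Real.log (4 / 3) / (Real.log A + 1), by positivity, ?_⟩
    rw [Real.rpow_def_of_pos (by linarith)]
    calc Real.exp (Real.log A * (Real.log (4 / 3) / (Real.log A + 1))) ≤ Real.exp (Real.log (4 / 3)) := by
          apply Real.exp_le_exp.2
          rw [mul_div_assoc', div_le_iff₀ (by positivity)]
          nlinarith
      _ = 4 / 3 := Real.exp_log (by norm_num)
  let ψ : ℝ → ℝ := fun r => P r * r ^ (-(ρ - ε))
  let φ : ℝ → ℝ := fun r => P r * r ^ (-(ρ + ε))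
  have hψc : ContinuousOn ψ (Set.Ici r₁) := by
    apply hc.continuousOn.mul
    apply ContinuousOn.rpow_const continuousOn_id
    intro x hx
    left
    have : r₁ ≤ x := hx
    exact ne_of_gt (by simp only [id]; linarith)
  -- upper bound for φ
  obtain ⟨K', hK'⟩ : ∃ K', ∀ r, r₁ ≤ r → φ r ≤ K' := by
    obtain ⟨s, hs, hsρ⟩ := exists_lt_of_csInf_lt (s := S) ⟨σ, hσS⟩ (show sInf S < ρ + ε by linarith)
    obtain ⟨K₁, hK₁⟩ := hs.2
    refine ⟨|K₁|, fun r hr => ?_⟩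
    have hr0 : 0 < r := by linarith
    have h1 : 1 ≤ r := hr₁1.trans hr
    have h2 : P r ≤ |K₁| * r ^ (ρ + ε) := by
      refine (hK₁ r hr).trans ?_
      have h3 : r ^ s ≤ r ^ (ρ + ε) := Real.rpow_le_rpow_of_exponent_le h1 hsρ.le
      have h4 : 0 ≤ r ^ s := Real.rpow_nonneg hr0.le _
      calc K₁ * r ^ s ≤ |K₁| * r ^ s := mul_le_mul_of_nonneg_right (le_abs_self _) h4
        _ ≤ |K₁| * r ^ (ρ + ε) := mul_le_mul_of_nonneg_left h3 (abs_nonneg _)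
    have h5 : 0 < r ^ (-(ρ + ε)) := Real.rpow_pos_of_pos hr0 _
    calc φ r = P r * r ^ (-(ρ + ε)) := rfl
      _ ≤ |K₁| * r ^ (ρ + ε) * r ^ (-(ρ + ε)) := mul_le_mul_of_nonneg_right h2 h5.le
      _ = |K₁| := by
          rw [mul_assoc, ← Real.rpow_add hr0, add_neg_cancel, Real.rpow_zero, mul_one]
  -- ψ is unbounded
  have hψub : ∀ B : ℝ, ∃ r, r₁ ≤ r ∧ B < ψ r := by
    intro B
    by_cases hneg : ρ - ε < 0
    · obtain ⟨R, hR⟩ := eventually_atTop.1 (hP.eventually (eventually_gt_atTop B))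
      refine ⟨max R r₁, le_max_right _ _, ?_⟩
      have h1 := hR (max R r₁) (le_max_left _ _)
      have h2 : (1 : ℝ) ≤ max R r₁ := hr₁1.trans (le_max_right _ _)
      have h3 : 1 ≤ (max R r₁) ^ (-(ρ - ε)) := Real.one_le_rpow h2 (by linarith)
      have h4 : 1 ≤ P (max R r₁) := hP1 _ (le_max_right _ _)
      calc B < P (max R r₁) := h1
        _ ≤ P (max R r₁) * (max R r₁) ^ (-(ρ - ε)) := by nlinarith
    · push Not at hneg
      by_contra hcon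
      push Not at hcon
      have hmem : ρ - ε ∈ S := by
        refine ⟨hneg, B, fun r hr => ?_⟩
        have hr0 : 0 < r := by linarith
        have h1 := hcon r hr
        have h2 : 0 < r ^ (ρ - ε) := Real.rpow_pos_of_pos hr0 _
        calc P r = ψ r * r ^ (ρ - ε) := by
              change P r = P r * r ^ (-(ρ - ε)) * r ^ (ρ - ε)
              rw [mul_assoc, ← Real.rpow_add hr0, neg_add_cancel, Real.rpow_zero, mul_one]
          _ ≤ B * r ^ (ρ - ε) := mul_le_mul_of_nonneg_right h1 h2.le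
      have := csInf_le hSb hmem
      linarith
  -- records
  let Rec : Set ℝ := {t | r₁ ≤ t ∧ ∀ u, r₁ ≤ u → u ≤ t → ψ u ≤ ψ t}
  have hrec : ∀ M, ∃ t ∈ Rec, M ≤ t := by
    intro M
    have hcomp : IsCompact (Set.Icc r₁ (max M r₁)) := isCompact_Icc
    obtain ⟨x₀, hx₀, hx₀max⟩ := hcomp.exists_isMaxOn ⟨r₁, le_rfl, le_max_right _ _⟩
      (hψc.mono fun x hx => hx.1)
    obtain ⟨r, hr, hrψ⟩ := hψub (ψ x₀)
    obtain ⟨t, ht, htmax⟩ := (isCompact_Icc (a := r₁) (b := r)).exists_isMaxOn ⟨r₁, le_rfl, hr⟩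
      (hψc.mono fun x hx => hx.1)
    refine ⟨t, ⟨ht.1, fun u hu1 hu2 => htmax ⟨hu1, hu2.trans ht.2⟩⟩, ?_⟩
    by_contra hlt
    push Not at hlt
    have h1 : ψ t ≤ ψ x₀ := hx₀max ⟨ht.1, hlt.le.trans (le_max_left _ _)⟩
    have h2 : ψ r ≤ ψ t := htmax ⟨hr, le_rfl⟩
    linarith
  set M₀ := max r₀ (A * r₁) with hM₀
  let E : Set ℝ := φ '' {t | t ∈ Rec ∧ M₀ ≤ t}
  have hEne : E.Nonempty := by
    obtain ⟨t, ht1, ht2⟩ := hrec M₀
    exact ⟨φ t, t, ⟨ht1, ht2⟩, rfl⟩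
  have hEb : BddAbove E := ⟨K', by rintro _ ⟨t, ht, rfl⟩; exact hK' t ht.1.1⟩
  have hφpos : ∀ t, r₁ ≤ t → 0 < φ t := fun t ht =>
    mul_pos (by linarith [hP1 t ht]) (Real.rpow_pos_of_pos (by linarith) _)
  have hS0 : 0 < sSup E := by
    obtain ⟨_, ⟨t, ht, rfl⟩⟩ := hEne
    exact lt_of_lt_of_le (hφpos t ht.1.1) (le_csSup hEb ⟨t, ht, rfl⟩)
  obtain ⟨_, ⟨r, ⟨hrRec, hrM⟩, rfl⟩, hrφ⟩ := exists_lt_of_lt_csSup hEne
    (show 2 / 3 * sSup E < sSup E by linarith)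
  have hr1 : r₁ ≤ r := hrRec.1
  have hr0 : 0 < r := by linarith
  have hApos : 0 < A := by linarith
  refine ⟨r, (le_max_left _ _).trans hrM, hr0, by linarith [hP1 r hr1], fun t ht1 ht2 => ?_⟩
  have hArr : A * r₁ ≤ r := (le_max_right _ _).trans hrM
  have htr₁ : r₁ ≤ t := by
    have : r₁ ≤ r / A := by rw [le_div_iff₀ hApos]; linarith
    linarith
  have ht0 : 0 < t := by linarith
  have hPr : 0 < P r := by linarith [hP1 r hr1]
  have hq0 : 0 < t / r := by positivity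
  rcases le_total t r with htr | htr
  · have h1 : ψ t ≤ ψ r := hrRec.2 t htr₁ htr
    -- P t ≤ (t/r)^(ρ-ε) P r
    have h2 : P t ≤ (t / r) ^ (ρ - ε) * P r := by
      have h3 : 0 < t ^ (ρ - ε) := Real.rpow_pos_of_pos ht0 _
      have h4 : P t = ψ t * t ^ (ρ - ε) := by
        change P t = P t * t ^ (-(ρ - ε)) * t ^ (ρ - ε)
        rw [mul_assoc, ← Real.rpow_add ht0, neg_add_cancel, Real.rpow_zero, mul_one]
      rw [h4, Real.div_rpow ht0.le hr0.le, div_eq_mul_inv, ← Real.rpow_neg hr0.le]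
      calc ψ t * t ^ (ρ - ε) ≤ ψ r * t ^ (ρ - ε) := mul_le_mul_of_nonneg_right h1 h3.le
        _ = t ^ (ρ - ε) * r ^ (-(ρ - ε)) * P r := by
            change P r * r ^ (-(ρ - ε)) * t ^ (ρ - ε) = _
            ring
    have h5 : (t / r) ^ (ρ - ε) ≤ (t / r) ^ ρ * (4 / 3) := by
      rw [sub_eq_add_neg, Real.rpow_add hq0]
      apply mul_le_mul_of_nonneg_left _ (Real.rpow_nonneg hq0.le _)
      rw [Real.rpow_neg hq0.le, ← Real.inv_rpow hq0.le, inv_div]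
      refine le_trans ?_ hεA
      apply Real.rpow_le_rpow (by positivity) _ hε0.le
      rw [div_le_iff₀ ht0]
      rw [div_le_iff₀ hApos] at ht1
      linarith
    have h6 : 0 ≤ (t / r) ^ ρ := Real.rpow_nonneg hq0.le _
    have h7 : (t / r) ^ (ρ - ε) * P r ≤ (t / r) ^ ρ * (4 / 3) * P r :=
      mul_le_mul_of_nonneg_right h5 hPr.le
    have h8 : 0 ≤ (t / r) ^ ρ * P r := mul_nonneg h6 hPr.le
    linarith
  · -- t ≥ r
    obtain ⟨t', ht', ht'max⟩ := (isCompact_Icc (a := r) (b := t)).exists_isMaxOn ⟨r, le_rfl, htr⟩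
      (hψc.mono fun x hx => hr1.trans hx.1)
    have ht'r : r₁ ≤ t' := hr1.trans ht'.1
    have ht'0 : 0 < t' := by linarith
    have hrec' : t' ∈ Rec := by
      refine ⟨ht'r, fun u hu1 hu2 => ?_⟩
      rcases le_total u r with hur | hur
      · exact (hrRec.2 u hu1 hur).trans (ht'max ⟨le_rfl, htr⟩)
      · exact ht'max ⟨hur, hu2.trans ht'.2⟩
    have h1 : φ t' ≤ sSup E := le_csSup hEb ⟨t', ⟨hrec', hrM.trans ht'.1⟩, rfl⟩
    have hφψ : ∀ x, 0 < x → φ x = ψ x * x ^ (-(2 * ε)) := by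
      intro x hx
      change P x * x ^ (-(ρ + ε)) = P x * x ^ (-(ρ - ε)) * x ^ (-(2 * ε))
      rw [mul_assoc, ← Real.rpow_add hx]
      congr 2
      ring
    have h2 : φ t ≤ φ t' := by
      rw [hφψ t ht0, hφψ t' ht'0]
      have h3 : ψ t ≤ ψ t' := ht'max ⟨htr, le_rfl⟩
      have h4 : t ^ (-(2 * ε)) ≤ t' ^ (-(2 * ε)) :=
        Real.rpow_le_rpow_of_nonpos ht'0 ht'.2 (by linarith)
      have h5 : 0 ≤ ψ t' := mul_nonneg (by linarith [hP1 t' ht'r]) (Real.rpow_nonneg ht'0.le _)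
      exact mul_le_mul h3 h4 (Real.rpow_nonneg ht0.le _) h5
    have h3 : φ t ≤ 3 / 2 * φ r := by linarith
    have h4 : P t = φ t * t ^ (ρ + ε) := by
      change P t = P t * t ^ (-(ρ + ε)) * t ^ (ρ + ε)
      rw [mul_assoc, ← Real.rpow_add ht0, neg_add_cancel, Real.rpow_zero, mul_one]
    have h5 : P t ≤ 3 / 2 * ((t / r) ^ (ρ + ε) * P r) := by
      have hdr : (t / r) ^ (ρ + ε) = t ^ (ρ + ε) * r ^ (-(ρ + ε)) := by
        rw [Real.div_rpow ht0.le hr0.le, div_eq_mul_inv, ← Real.rpow_neg hr0.le]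
      rw [h4, hdr]
      calc φ t * t ^ (ρ + ε) ≤ 3 / 2 * φ r * t ^ (ρ + ε) :=
            mul_le_mul_of_nonneg_right h3 (Real.rpow_nonneg ht0.le _)
        _ = 3 / 2 * (t ^ (ρ + ε) * r ^ (-(ρ + ε)) * P r) := by
            change 3 / 2 * (P r * r ^ (-(ρ + ε))) * t ^ (ρ + ε) = _
            ring
    have h6 : (t / r) ^ (ρ + ε) ≤ (t / r) ^ ρ * (4 / 3) := by
      rw [Real.rpow_add hq0]
      apply mul_le_mul_of_nonneg_left _ (Real.rpow_nonneg hq0.le _)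
      refine le_trans ?_ hεA
      apply Real.rpow_le_rpow hq0.le _ hε0.le
      rw [div_le_iff₀ hr0]
      exact ht2
    have h7 : (t / r) ^ (ρ + ε) * P r ≤ (t / r) ^ ρ * (4 / 3) * P r :=
      mul_le_mul_of_nonneg_right h6 hPr.le
    linarith

end Pool.Agent.Helper30.Fuchs
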