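import Pool.Agent.Helper30.FMaj
import Pool.Agent.Helper30.FHarm
import Pool.Agent.Helper30.FPeaks

set_option autoImplicit false

open Complex Metric Set Filter Topology Real

namespace Pool.Agent.Helper30.Fuchs

theorem zero_free (g : ℂ → ℂ) (hg : Differentiable ℂ g) (hne : ∃ w, g w ≠ 0) (a b : ℝ) (hab : a < b) :
    ∃ R, a < R ∧ R < b ∧ ∀ z : ℂ, ‖z‖ = R → g z ≠ 0 := by
  obtain ⟨w, hw⟩ := hne
  have hga : AnalyticOnNhd ℂ g univ := fun z _ => hg.analyticAt z
  have h1 : g ⁻¹' {0}ᶜ ∈ codiscrete ℂ := hga.preimage_zero_mem_codiscrete (x := w) hw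
  have h2 : IsClosed (g ⁻¹' {0}) := isClosed_singleton.preimage hg.continuous
  have h3 : IsDiscrete (g ⁻¹' {0}) := by
    have := (mem_codiscrete'.mp h1).2
    simpa using this
  have h4 : (closedBall (0:ℂ) b ∩ g ⁻¹' {0}).Finite := by
    apply ((isCompact_closedBall (0:ℂ) b).inter_right h2).finite
    exact h3.mono Set.inter_subset_right
  have h5 := h4.image (fun z : ℂ => ‖z‖)
  have h6 : (Ioo a b).Infinite := Set.Ioo_infinite hab
  obtain ⟨R, hR, hRn⟩ := (h6.sdiff h5).nonempty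
  refine ⟨R, hR.1, hR.2, fun z hz h0 => hRn ⟨z, ⟨?_, h0⟩, hz⟩⟩
  simp [hz, hR.2.le]

/-- The proximity function of an entire function. -/
noncomputable def Pp (g : ℂ → ℂ) (r : ℝ) : ℝ := circleAverage (fun z => log⁺ ‖g z‖) 0 r

/-- The proximity function of the reciprocal. -/
noncomputable def Am (g : ℂ → ℂ) (r : ℝ) : ℝ := circleAverage (fun z => log⁺ ‖g z‖⁻¹) 0 r

theorem abs_log_eq (x : ℝ) : |Real.log x| = log⁺ x + log⁺ x⁻¹ := by
  have h1 := posLog_sub_posLog_inv (x := x)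
  have h2 := half_mul_log_add_log_abs (x := x)
  linarith

theorem Pp_nonneg (g : ℂ → ℂ) (r : ℝ) : 0 ≤ Pp g r :=
  circleAverage_nonneg_of_nonneg (fun _ _ => posLog_nonneg)

theorem Am_nonneg (g : ℂ → ℂ) (r : ℝ) : 0 ≤ Am g r :=
  circleAverage_nonneg_of_nonneg (fun _ _ => posLog_nonneg)

theorem cont_posLog_norm (g : ℂ → ℂ) (hg : Differentiable ℂ g) : Continuous (fun z => log⁺ ‖g z‖) :=
  continuous_posLog.comp hg.continuous.norm

theorem Pp_continuous (g : ℂ → ℂ) (hg : Differentiable ℂ g) : Continuous (Pp g) :=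
  (cont_posLog_norm g hg).circleAverage

theorem contOn_posLog_inv (g : ℂ → ℂ) (hg : Differentiable ℂ g) (R : ℝ)
    (hz : ∀ z : ℂ, ‖z‖ = R → g z ≠ 0) : ContinuousOn (fun z => log⁺ ‖g z‖⁻¹) (sphere 0 R) := by
  apply continuous_posLog.comp_continuousOn
  apply ContinuousOn.inv₀ hg.continuous.norm.continuousOn
  intro z hzR
  exact norm_ne_zero_iff.2 (hz z (by simpa using hzR))

theorem re_zero_eq (H : ℂ → ℂ) (R' s : ℝ) (hs : 0 < s) (hsR : s < R')
    (hH : DifferentiableOn ℂ H (ball 0 R')) :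
    circleAverage (fun z => (H z).re) 0 s = (H 0).re := by
  have hd : DifferentiableOn ℂ H (closure (ball 0 |s|)) := by
    apply hH.mono
    rw [abs_of_pos hs]
    exact closure_ball_subset_closedBall.trans (closedBall_subset_ball hsR)
  have h1 := hd.diffContOnCl.circleAverage
  have hcont : ContinuousOn H (sphere 0 s) :=
    hH.continuousOn.mono (sphere_subset_closedBall.trans (closedBall_subset_ball hsR))
  have h2 := Complex.reCLM.circleAverage_comp_comm (hcont.circleIntegrable hs.le)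
  rw [h1] at h2
  exact h2

theorem maj_facts (g : ℂ → ℂ) (hg : Differentiable ℂ g) (R R' : ℝ) (hR : 0 < R) (hRR : R < R')
    (hz : ∀ z : ℂ, ‖z‖ = R → g z ≠ 0) (H : ℂ → ℂ) (hH : DifferentiableOn ℂ H (ball 0 R'))
    (h1 : ∀ z : ℂ, ‖z‖ ≤ R → ‖g z‖ ≤ Real.exp (H z).re)
    (h2 : ∀ z : ℂ, ‖z‖ = R → ‖g z‖ = Real.exp (H z).re) :
    (H 0).re = Pp g R - Am g R ∧ circleAverage (fun z => |(H z).re|) 0 R = Pp g R + Am g R ∧
    ∀ s, 0 < s → s < R → (∀ z : ℂ, ‖z‖ = s → g z ≠ 0) →
      circleAverage (fun z => |(H z).re|) 0 s ≤ (H 0).re + 2 * Am g s := by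
  have hre : ∀ z ∈ sphere (0:ℂ) |R|, (H z).re = Real.log ‖g z‖ := by
    intro z hzR
    rw [h2 z (by simpa [abs_of_pos hR] using hzR), Real.log_exp]
  have i1 : CircleIntegrable (fun z => log⁺ ‖g z‖) 0 R :=
    (cont_posLog_norm g hg).continuousOn.circleIntegrable hR.le
  have i2 : CircleIntegrable (fun z => log⁺ ‖g z‖⁻¹) 0 R :=
    (contOn_posLog_inv g hg R hz).circleIntegrable hR.le
  refine ⟨?_, ?_, ?_⟩
  · rw [← re_zero_eq H R' R hR hRR hH, Pp, Am, ← circleAverage_fun_sub i1 i2]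
    apply circleAverage_congr_sphere
    intro z hzR
    simp only
    rw [hre z hzR, posLog_sub_posLog_inv]
  · rw [Pp, Am, ← circleAverage_fun_add i1 i2]
    apply circleAverage_congr_sphere
    intro z hzR
    simp only
    rw [hre z hzR, abs_log_eq]
  · intro s hs hsR hzs
    have hcont : ContinuousOn H (sphere 0 s) :=
      hH.continuousOn.mono (sphere_subset_closedBall.trans (closedBall_subset_ball (hsR.trans hRR)))
    have j1 : ContinuousOn (fun z => (H z).re) (sphere 0 s) := Complex.continuous_re.comp_continuousOn hcont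
    have j2 : ContinuousOn (fun z => (2 : ℝ) • log⁺ ‖g z‖⁻¹) (sphere 0 s) :=
      (continuous_const_smul (2 : ℝ)).comp_continuousOn (contOn_posLog_inv g hg s hzs)
    rw [← re_zero_eq H R' s hs (hsR.trans hRR) hH, Am, ← smul_eq_mul (2 : ℝ), ← circleAverage_fun_smul,
      ← circleAverage_fun_add (j1.circleIntegrable hs.le) (j2.circleIntegrable hs.le)]
    apply circleAverage_mono (j1.abs.circleIntegrable hs.le) ((j1.add j2).circleIntegrable hs.le)
    intro z hz'
    rw [abs_of_pos hs] at hz'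
    have hzs' : ‖z‖ = s := by simpa using hz'
    simp only [smul_eq_mul, Pi.add_apply]
    have k1 : Real.log ‖g z‖ ≤ (H z).re := by
      rw [Real.log_le_iff_le_exp (norm_pos_iff.2 (hzs z hzs'))]
      exact h1 z (by rw [hzs']; exact hsR.le)
    have k2 := posLog_sub_posLog_inv (x := ‖g z‖)
    have k3 : 0 ≤ log⁺ ‖g z‖ := posLog_nonneg
    have k4 : 0 ≤ log⁺ ‖g z‖⁻¹ := posLog_nonneg
    rw [abs_le]
    constructor <;> linarith

end Pool.Agent.Helper30.Fuchs
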