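import Pool.Agent.Helper30.HSpace

set_option autoImplicit false

open Set Filter Topology
open scoped BoundedContinuousFunction

namespace Pool.Agent.Helper30.Haydon

section asp

variable {T : Type} [PartialOrder T] [TopologicalSpace T] [DiscreteTopology T]

/-- density of the span of the `e t` -/
theorem dense_e (S : Submodule ℝ (XX T)) (hS : IsClosed (S : Set (XX T))) (h : ∀ t, e t ∈ S) :
    ∀ x, x ∈ S := by
  have h1 : XX T ≤ S.map (XX T).subtype := by
    apply Submodule.topologicalClosure_minimal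
    · rw [Submodule.span_le]
      rintro _ ⟨t, rfl⟩
      exact ⟨e t, h t, rfl⟩
    · have := (isClosed_XX (T := T)).isClosedEmbedding_subtypeVal.isClosedMap S hS
      exact this
  intro x
  obtain ⟨y, hy, hyx⟩ := h1 x.2
  have : y = x := Subtype.ext hyx
  rwa [← this]

/-- multiplication by the indicator of `{s | s ≤ t}` on bounded functions -/
noncomputable def mulI (t : T) : EE T →L[ℝ] EE T :=
  LinearMap.mkContinuous
    { toFun := fun f => ((show T →ᵇ ℝ from ind t) * (show T →ᵇ ℝ from f) : T →ᵇ ℝ)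
      map_add' := fun f g => mul_add (show T →ᵇ ℝ from ind t) (show T →ᵇ ℝ from f) (show T →ᵇ ℝ from g)
      map_smul' := fun c f => mul_smul_comm c (show T →ᵇ ℝ from ind t) (show T →ᵇ ℝ from f) } 1 (by
    intro f
    rw [one_mul, norm_le_iff' _ (norm_nonneg _)]
    intro s
    change |ev (ind t) s * ev f s| ≤ ‖f‖
    have h1 : |ev f s| ≤ ‖f‖ := (norm_le_iff' f (norm_nonneg f)).1 le_rfl s
    rw [abs_mul]
    by_cases h : s ≤ t
    · rw [ind_of_le h]; simpa using h1
    · rw [ind_of_not_le h]; simp)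

theorem ev_mulI (t : T) (f : EE T) (s : T) : ev (mulI t f) s = ev (ind t) s * ev f s := rfl

/-- `P` is the restriction to the set `A` -/
def IsRes (A : Set T) (P : XX T →L[ℝ] XX T) : Prop :=
  ∀ f s, (s ∈ A → vv (P f) s = vv f s) ∧ (s ∉ A → vv (P f) s = 0)

theorem norming (φ : XX T →L[ℝ] ℝ) (V : Submodule ℝ (XX T)) (𝓡 : Set (XX T →L[ℝ] XX T))
    (h1 : ∀ P ∈ 𝓡, ∃ A, IsRes A P) (h2 : ∀ P ∈ 𝓡, ∀ g ∈ V, P g ∈ V)
    (h3 : ∀ g ∈ V, ∀ ε > 0, ∃ P ∈ 𝓡, ‖g - P g‖ ≤ ε) {κ : ℝ} (hκ : 0 < κ) :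
    ∃ P ∈ 𝓡, ∀ h ∈ V, |φ (h - P h)| ≤ κ * ‖h‖ := by
  classical
  let A : Set ℝ := (fun g => φ g) '' {g : XX T | g ∈ V ∧ ‖g‖ ≤ 1}
  have hA : A.Nonempty := ⟨φ 0, 0, ⟨V.zero_mem, by simp⟩, rfl⟩
  have hAb : BddAbove A := by
    refine ⟨‖φ‖, ?_⟩
    rintro _ ⟨g, ⟨_, hg⟩, rfl⟩
    refine (le_abs_self _).trans ((φ.le_opNorm g).trans ?_)
    nlinarith [norm_nonneg φ]
  set N := sSup A with hN
  obtain ⟨_, ⟨g₀, ⟨hg₀V, hg₀1⟩, rfl⟩, hg₀⟩ := exists_lt_of_lt_csSup hA
    (show N - κ / 2 < sSup A by linarith)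
  obtain ⟨P, hP, hPg⟩ := h3 g₀ hg₀V (κ / 2 / (‖φ‖ + 1)) (by positivity)
  obtain ⟨B, hB⟩ := h1 P hP
  refine ⟨P, hP, ?_⟩
  have hφ : N - κ ≤ φ (P g₀) := by
    have h4 : φ g₀ - φ (P g₀) ≤ κ / 2 := by
      rw [← map_sub]
      refine (le_abs_self _).trans ((φ.le_opNorm _).trans ?_)
      have h5 : ‖φ‖ * ‖g₀ - P g₀‖ ≤ ‖φ‖ * (κ / 2 / (‖φ‖ + 1)) :=
        mul_le_mul_of_nonneg_left hPg (norm_nonneg φ)
      refine h5.trans ?_
      rw [mul_div_assoc', div_le_iff₀ (by positivity)]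
      nlinarith [norm_nonneg φ]
    have h6 : N - κ / 2 < φ g₀ := hg₀
    linarith
  -- the key estimate for the unit ball
  have key : ∀ h ∈ V, ‖h‖ ≤ 1 → φ (h - P h) ≤ κ := by
    intro h hV hh
    have hmem : P g₀ + (h - P h) ∈ V := V.add_mem (h2 P hP _ hg₀V) (V.sub_mem hV (h2 P hP _ hV))
    have hnorm : ‖P g₀ + (h - P h)‖ ≤ 1 := by
      rw [norm_le_iff _ zero_le_one]
      intro s
      rw [add_apply, sub_apply]
      by_cases hs : s ∈ B
      · rw [(hB g₀ s).1 hs, (hB h s).1 hs, sub_self, add_zero]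
        exact (abs_apply_le _ _).trans hg₀1
      · rw [(hB g₀ s).2 hs, (hB h s).2 hs, sub_zero, zero_add]
        exact (abs_apply_le _ _).trans hh
    have h7 : φ (P g₀ + (h - P h)) ≤ N := le_csSup hAb ⟨_, ⟨hmem, hnorm⟩, rfl⟩
    rw [map_add] at h7
    linarith
  have key2 : ∀ h ∈ V, ‖h‖ ≤ 1 → |φ (h - P h)| ≤ κ := by
    intro h hV hh
    rw [abs_le]
    refine ⟨?_, key h hV hh⟩
    have := key (-h) (V.neg_mem hV) (by rwa [norm_neg])
    rw [map_neg, ← neg_sub_neg, neg_neg, neg_neg, ← neg_sub, map_neg] at this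
    linarith
  intro h hV
  rcases eq_or_ne h 0 with h0 | h0
  · simp [h0]
  · have hpos : 0 < ‖h‖ := norm_pos_iff.2 h0
    have h8 := key2 (‖h‖⁻¹ • h) (V.smul_mem _ hV) (by
      rw [norm_smul, norm_inv, norm_norm, inv_mul_cancel₀ hpos.ne'])
    rw [map_smul, ← smul_sub, map_smul, smul_eq_mul, abs_mul, abs_of_pos (inv_pos.2 hpos),
      inv_mul_le_iff₀ hpos] at h8
    linarith

end asp

section asp2

variable {T : Type} [PartialOrder T] [TopologicalSpace T] [DiscreteTopology T] [BigTree T]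

theorem mulI_ind (s t : T) : ∃ m, m ≤ s ∧ m ≤ t ∧ (∀ r, r ≤ s → r ≤ t → r ≤ m) ∧
    mulI t (ind s) = ind m := by
  obtain ⟨m, hms, hmt, hm⟩ := BigTree.meet s t
  refine ⟨m, hms, hmt, hm, ?_⟩
  apply BoundedContinuousFunction.ext (f := (show T →ᵇ ℝ from mulI t (ind s)))
    (g := (show T →ᵇ ℝ from ind m))
  intro r
  change ev (ind t) r * ev (ind s) r = ev (ind m) r
  by_cases h1 : r ≤ t
  · by_cases h2 : r ≤ s
    · rw [ind_of_le h1, ind_of_le h2, ind_of_le (hm r h2 h1), mul_one]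
    · rw [ind_of_not_le h2, ind_of_not_le (fun h => h2 (h.trans hms)), mul_zero]
  · rw [ind_of_not_le h1, ind_of_not_le (fun h => h1 (h.trans hmt)), zero_mul]

theorem mulI_mem (t : T) (f : EE T) (hf : f ∈ XX T) : mulI t f ∈ XX T := by
  have h1 : XX T ≤ (XX T).comap (mulI t : EE T →ₗ[ℝ] EE T) := by
    apply Submodule.topologicalClosure_minimal
    · rw [Submodule.span_le]
      rintro _ ⟨s, rfl⟩
      obtain ⟨m, -, -, -, hm⟩ := mulI_ind s t
      change mulI t (ind s) ∈ XX T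
      rw [hm]
      exact (e m).2
    · exact (isClosed_XX (T := T)).preimage (mulI t).continuous
  exact h1 hf

/-- multiplication by the indicator of `{s | s ≤ t}` on the space -/
noncomputable def Mt (t : T) : XX T →L[ℝ] XX T :=
  ((mulI t).comp (XX T).subtypeL).codRestrict (XX T) (fun f => mulI_mem t f f.2)

theorem vv_Mt (t : T) (f : XX T) (s : T) : vv (Mt t f) s = vv (e t) s * vv f s := rfl

theorem isRes_Mt (t : T) : IsRes (Set.Iic t) (Mt t) := by
  intro f s
  rw [vv_Mt]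
  refine ⟨fun h => ?_, fun h => ?_⟩
  · rw [e_of_le h, one_mul]
  · rw [e_of_not_le h, zero_mul]

theorem Mt_e (s t : T) : ∃ m, m ≤ s ∧ m ≤ t ∧ (∀ r, r ≤ s → r ≤ t → r ≤ m) ∧
    Mt t (e s) = e m := by
  obtain ⟨m, h1, h2, h3, h4⟩ := mulI_ind s t
  exact ⟨m, h1, h2, h3, Subtype.ext h4⟩

theorem Mt_e_of_le {s t : T} (h : s ≤ t) : Mt t (e s) = e s := by
  apply ext_vv
  intro r
  rw [vv_Mt]
  by_cases hr : r ≤ s
  · rw [e_of_le hr, e_of_le (hr.trans h), mul_one]
  · rw [e_of_not_le hr, mul_zero]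

theorem Mt_e_of_ge {s t : T} (h : t ≤ s) : Mt t (e s) = e t := by
  apply ext_vv
  intro r
  rw [vv_Mt]
  by_cases hr : r ≤ t
  · rw [e_of_le hr, e_of_le (hr.trans h), mul_one]
  · rw [e_of_not_le hr, zero_mul]

theorem Mt_Mt_of_le {s t : T} (h : s ≤ t) (f : XX T) : Mt s (Mt t f) = Mt s f := by
  apply ext_vv
  intro r
  rw [vv_Mt, vv_Mt, vv_Mt]
  by_cases hr : r ≤ s
  · rw [e_of_le (hr.trans h), one_mul]
  · rw [e_of_not_le hr, zero_mul, zero_mul]

theorem Mt_Mt_of_le' {s t : T} (h : s ≤ t) (f : XX T) : Mt t (Mt s f) = Mt s f := by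
  apply ext_vv
  intro r
  rw [vv_Mt, vv_Mt]
  by_cases hr : r ≤ s
  · rw [e_of_le (hr.trans h), one_mul]
  · rw [e_of_not_le hr, zero_mul, mul_zero]

/-- evaluation functional -/
noncomputable def dl (s : T) : XX T →L[ℝ] ℝ :=
  LinearMap.mkContinuous
    { toFun := fun f => vv f s
      map_add' := fun _ _ => rfl
      map_smul' := fun _ _ => rfl } 1 (by
    intro f
    rw [one_mul]
    exact abs_apply_le f s)

theorem dl_apply (s : T) (f : XX T) : dl s f = vv f s := rfl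

variable (T) in
/-- the closed span of the evaluations -/
noncomputable def WW : Submodule ℝ (XX T →L[ℝ] ℝ) :=
  (Submodule.span ℝ (Set.range (dl : T → XX T →L[ℝ] ℝ))).topologicalClosure

theorem dl_mem (s : T) : dl s ∈ WW T :=
  Submodule.le_topologicalClosure _ (Submodule.subset_span ⟨s, rfl⟩)

theorem isClosed_WW : IsClosed (WW T : Set (XX T →L[ℝ] ℝ)) :=
  Submodule.isClosed_topologicalClosure _

theorem mem_WW_of_approx (φ : XX T →L[ℝ] ℝ)
    (h : ∀ κ > 0, ∃ ψ ∈ WW T, ‖φ - ψ‖ ≤ κ) : φ ∈ WW T := by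
  have h1 : φ ∈ closure (WW T : Set (XX T →L[ℝ] ℝ)) := by
    refine (Metric.mem_closure_iff (α := XX T →L[ℝ] ℝ)).2 ?_
    intro ε hε
    obtain ⟨ψ, hψ, hψ2⟩ := h (ε / 2) (half_pos hε)
    refine ⟨ψ, hψ, ?_⟩
    have h2 : dist φ ψ = ‖φ - ψ‖ := dist_eq_norm (E := XX T →L[ℝ] ℝ) φ ψ
    rw [h2]
    linarith
  rwa [isClosed_WW.closure_eq] at h1

/-- the functions supported strictly below `t` -/
noncomputable def U (t : T) : Submodule ℝ (XX T) where
  carrier := {g | g = 0 ∨ ∃ r, r < t ∧ Mt r g = g}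
  zero_mem' := Or.inl rfl
  add_mem' := by
    rintro a b (ha | ⟨r, hr, ha⟩) (hb | ⟨r', hr', hb⟩)
    · left; rw [ha, hb, add_zero]
    · right; exact ⟨r', hr', by rw [ha, zero_add]; exact hb⟩
    · right; exact ⟨r, hr, by rw [hb, add_zero]; exact ha⟩
    · right
      rcases BigTree.chain r r' t hr.le hr'.le with h | h
      · refine ⟨r', hr', ?_⟩
        rw [map_add, hb, ← ha, Mt_Mt_of_le' h]
      · refine ⟨r, hr, ?_⟩
        rw [map_add, ha, ← hb, Mt_Mt_of_le' h]
  smul_mem' := by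
    rintro c a (ha | ⟨r, hr, ha⟩)
    · left; rw [ha, smul_zero]
    · right; exact ⟨r, hr, by rw [map_smul, ha]⟩

/-- `f ↦ f 1_{[0,t]} - f(t) e_t` -/
noncomputable def At (t : T) : XX T →L[ℝ] XX T := Mt t - (dl t).smulRight (e t)

theorem At_apply (t : T) (f : XX T) : At t f = Mt t f - vv f t • e t := rfl

theorem At_mem (t : T) (f : XX T) : At t f ∈ (U t).topologicalClosure := by
  have key := dense_e (T := T) ((U t).topologicalClosure.comap (At t : XX T →ₗ[ℝ] XX T))
    ((Submodule.isClosed_topologicalClosure _).preimage (At t).continuous) (by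
    intro s
    change At t (e s) ∈ (U t).topologicalClosure
    apply Submodule.le_topologicalClosure
    rw [At_apply]
    by_cases h : t ≤ s
    · left
      rw [Mt_e_of_ge h, e_of_le h, one_smul, sub_self]
    · rw [e_of_not_le h, zero_smul, sub_zero]
      obtain ⟨m, hms, hmt, -, hm⟩ := Mt_e s t
      right
      refine ⟨m, lt_of_le_of_ne hmt ?_, ?_⟩
      · rintro rfl; exact h hms
      · rw [hm, Mt_e_of_le le_rfl])
  exact key f

theorem norm_Mt_le (t : T) (f : XX T) : ‖Mt t f‖ ≤ ‖f‖ := by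
  rw [norm_le_iff _ (norm_nonneg _)]
  intro s
  by_cases h : s ≤ t
  · rw [(isRes_Mt t f s).1 h]; exact abs_apply_le _ _
  · rw [(isRes_Mt t f s).2 h]; simp

theorem U_closure_approx {t : T} (hne : ∃ r, r < t) (g : XX T)
    (hg : g ∈ (U t).topologicalClosure) {ε : ℝ} (hε : 0 < ε) :
    ∃ r, r < t ∧ ‖g - Mt r g‖ ≤ ε := by
  have h1 : g ∈ closure (U t : Set (XX T)) := hg
  rw [Metric.mem_closure_iff] at h1
  obtain ⟨g', hg', hd⟩ := h1 (ε / 2) (half_pos hε)
  rw [dist_eq_norm] at hd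
  have h2 : ∃ r, r < t ∧ Mt r g' = g' := by
    rcases hg' with h0 | h0
    · obtain ⟨r, hr⟩ := hne
      exact ⟨r, hr, by rw [h0, map_zero]⟩
    · exact h0
  obtain ⟨r, hr, hrg⟩ := h2
  refine ⟨r, hr, ?_⟩
  have h3 : g - Mt r g = (g - g') - Mt r (g - g') := by
    rw [map_sub, hrg]; abel
  rw [h3]
  refine (norm_sub_le _ _).trans ?_
  have := norm_Mt_le r (g - g')
  linarith

theorem comp_Mt_mem (t : T) : ∀ φ : XX T →L[ℝ] ℝ, φ.comp (Mt t) ∈ WW T := by
  induction t using (BigTree.wf (T := T)).induction with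
  | _ t ih =>
  intro φ
  have hdecomp : φ.comp (Mt t) = φ.comp (At t) + φ (e t) • dl t := by
    ext f
    simp only [ContinuousLinearMap.comp_apply, _root_.add_apply,
      _root_.smul_apply, dl_apply, At_apply, map_sub, map_smul, smul_eq_mul]
    ring
  rw [hdecomp]
  refine (WW T).add_mem ?_ ((WW T).smul_mem _ (dl_mem t))
  by_cases hne : ∃ r, r < t
  · apply mem_WW_of_approx
    intro κ hκ
    obtain ⟨_, ⟨r, hr, rfl⟩, hP⟩ := norming φ (U t).topologicalClosure
      {P | ∃ r, r < t ∧ Mt r = P} (by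
        rintro _ ⟨r, -, rfl⟩
        exact ⟨_, isRes_Mt r⟩) (by
        rintro _ ⟨r, hr, rfl⟩ g _
        apply Submodule.le_topologicalClosure
        right
        exact ⟨r, hr, Mt_Mt_of_le le_rfl g⟩) (by
        intro g hg ε hε
        obtain ⟨r, hr, h⟩ := U_closure_approx hne g hg hε
        exact ⟨_, ⟨r, hr, rfl⟩, h⟩) (show 0 < κ / 2 by positivity)
    refine ⟨φ.comp (Mt r) - φ (e r) • dl t, (WW T).sub_mem (ih r hr φ)
      ((WW T).smul_mem _ (dl_mem t)), ?_⟩
    apply ContinuousLinearMap.opNorm_le_bound _ hκ.le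
    intro f
    have h1 := hP (At t f) (At_mem t f)
    have h2 : ‖At t f‖ ≤ 2 * ‖f‖ := by
      rw [At_apply]
      refine (norm_sub_le _ _).trans ?_
      rw [norm_smul, Real.norm_eq_abs]
      have h3 := norm_Mt_le t f
      have h4 := abs_apply_le f t
      have h5 := norm_e_le t
      nlinarith [abs_nonneg (vv f t), norm_nonneg (e t)]
    have h6 : (φ.comp (At t) - (φ.comp (Mt r) - φ (e r) • dl t)) f = φ (At t f - Mt r (At t f)) := by
      simp only [ContinuousLinearMap.comp_apply, _root_.sub_apply,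
        _root_.smul_apply, dl_apply, At_apply, map_sub, map_smul, smul_eq_mul,
        Mt_Mt_of_le hr.le, Mt_e_of_ge hr.le]
      ring
    rw [h6, Real.norm_eq_abs]
    refine h1.trans ?_
    nlinarith
  · -- `t` is the root
    have h0 : ∀ f, At t f = 0 := by
      intro f
      have h1 : (U t : Set (XX T)) ⊆ {0} := by
        rintro g (hg | ⟨r, hr, -⟩)
        · exact hg
        · exact absurd ⟨r, hr⟩ hne
      have h2 : At t f ∈ closure (U t : Set (XX T)) := At_mem t f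
      have h3 := closure_minimal h1 isClosed_singleton h2
      exact h3
    have : φ.comp (At t) = 0 := by
      ext f
      simp [h0 f]
    rw [this]
    exact (WW T).zero_mem

/-- Every functional is a norm limit of combinations of evaluations. -/
theorem mem_WW (φ : XX T →L[ℝ] ℝ) : φ ∈ WW T := by
  classical
  let 𝓡 : Set (XX T →L[ℝ] XX T) :=
    {P | (∃ A, IsRes A P) ∧ ∀ ψ : XX T →L[ℝ] ℝ, ψ.comp P ∈ WW T}
  have hun : ∀ P ∈ 𝓡, ∀ Q ∈ 𝓡, P + Q - P.comp Q ∈ 𝓡 := by
    rintro P ⟨⟨A, hA⟩, hP⟩ Q ⟨⟨B, hB⟩, hQ⟩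
    refine ⟨⟨A ∪ B, ?_⟩, ?_⟩
    · intro f s
      have hval : vv ((P + Q - P.comp Q) f) s = vv (P f) s + vv (Q f) s - vv (P (Q f)) s := rfl
      rw [hval]
      by_cases h1 : s ∈ A <;> by_cases h2 : s ∈ B
      · rw [(hA f s).1 h1, (hB f s).1 h2, (hA _ s).1 h1, (hB f s).1 h2]
        exact ⟨fun _ => by ring, fun h => absurd (Or.inl h1) h⟩
      · rw [(hA f s).1 h1, (hB f s).2 h2, (hA _ s).1 h1, (hB f s).2 h2]
        exact ⟨fun _ => by ring, fun h => absurd (Or.inl h1) h⟩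
      · rw [(hA f s).2 h1, (hB f s).1 h2, (hA _ s).2 h1]
        exact ⟨fun _ => by ring, fun h => absurd (Or.inr h2) h⟩
      · rw [(hA f s).2 h1, (hB f s).2 h2, (hA _ s).2 h1]
        exact ⟨fun h => absurd h (by simp [h1, h2]), fun _ => by ring⟩
    · intro ψ
      have : ψ.comp (P + Q - P.comp Q) = ψ.comp P + ψ.comp Q - (ψ.comp P).comp Q := by
        ext f
        simp
      rw [this]
      exact (WW T).sub_mem ((WW T).add_mem (hP ψ) (hQ ψ)) (hQ _)
  have hMt : ∀ t, Mt t ∈ 𝓡 := fun t => ⟨⟨_, isRes_Mt t⟩, comp_Mt_mem t⟩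
  have hcontr : ∀ P ∈ 𝓡, ∀ f, ‖P f‖ ≤ ‖f‖ := by
    rintro P ⟨⟨A, hA⟩, -⟩ f
    rw [norm_le_iff _ (norm_nonneg _)]
    intro s
    by_cases h : s ∈ A
    · rw [(hA f s).1 h]; exact abs_apply_le _ _
    · rw [(hA f s).2 h]; simp
  have hcomm : ∀ P ∈ 𝓡, ∀ Q ∈ 𝓡, ∀ f, P (Q f) = Q (P f) := by
    rintro P ⟨⟨A, hA⟩, -⟩ Q ⟨⟨B, hB⟩, -⟩ f
    apply ext_vv
    intro s
    by_cases h1 : s ∈ A <;> by_cases h2 : s ∈ B
    · rw [(hA _ s).1 h1, (hB _ s).1 h2, (hB _ s).1 h2, (hA _ s).1 h1]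
    · rw [(hA _ s).1 h1, (hB _ s).2 h2, (hB _ s).2 h2]
    · rw [(hA _ s).2 h1, (hB _ s).1 h2, (hA _ s).2 h1]
    · rw [(hA _ s).2 h1, (hB _ s).2 h2]
  -- the fixed vectors form a submodule
  let Fx : Submodule ℝ (XX T) :=
    { carrier := {g | ∃ P ∈ 𝓡, P g = g}
      zero_mem' := by
        obtain ⟨t⟩ := BigTree.nonempty (T := T)
        exact ⟨Mt t, hMt t, map_zero _⟩
      add_mem' := by
        rintro a b ⟨P, hP, ha⟩ ⟨Q, hQ, hb⟩
        refine ⟨P + Q - P.comp Q, hun P hP Q hQ, ?_⟩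
        have h1 : P (Q a) = Q a := by rw [hcomm P hP Q hQ, ha]
        change P (a + b) + Q (a + b) - P (Q (a + b)) = a + b
        rw [map_add Q, map_add P, map_add P, ha, hb, h1]
        abel
      smul_mem' := by
        rintro c a ⟨P, hP, ha⟩
        exact ⟨P, hP, by rw [map_smul, ha]⟩ }
  have hdense := dense_e (T := T) Fx.topologicalClosure (Submodule.isClosed_topologicalClosure _)
    (fun t => Submodule.le_topologicalClosure _ ⟨Mt t, hMt t, Mt_e_of_le le_rfl⟩)
  apply mem_WW_of_approx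
  intro κ hκ
  obtain ⟨P, hP, hPφ⟩ := norming φ ⊤ 𝓡 (fun P hP => hP.1) (fun _ _ _ _ => Submodule.mem_top) (by
    intro g _ ε hε
    have h1 : g ∈ closure (Fx : Set (XX T)) := hdense g
    rw [Metric.mem_closure_iff] at h1
    obtain ⟨g', ⟨P, hP, hPg⟩, hd⟩ := h1 (ε / 2) (half_pos hε)
    rw [dist_eq_norm] at hd
    refine ⟨P, hP, ?_⟩
    have h3 : g - P g = (g - g') - P (g - g') := by
      rw [map_sub, hPg]; abel
    rw [h3]
    refine (norm_sub_le _ _).trans ?_
    have := hcontr P hP (g - g')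
    linarith) hκ
  refine ⟨φ.comp P, hP.2 φ, ?_⟩
  apply ContinuousLinearMap.opNorm_le_bound _ hκ.le
  intro f
  have h := hPφ f Submodule.mem_top
  rw [map_sub] at h
  exact h

theorem countable_support (f : XX T) : {s | vv f s ≠ 0}.Countable := by
  let S : Submodule ℝ (XX T) :=
    { carrier := {f | {s | vv f s ≠ 0}.Countable}
      zero_mem' := by simp [zero_apply]
      add_mem' := by
        intro a b ha hb
        refine (ha.union hb).mono ?_
        intro s hs
        by_contra hc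
        simp only [mem_union, mem_ofPred_eq, not_or, not_not] at hc
        apply hs
        rw [add_apply, hc.1, hc.2, add_zero]
      smul_mem' := by
        intro c a ha
        refine ha.mono ?_
        intro s hs hc
        apply hs
        rw [smul_apply, hc, mul_zero] }
  refine dense_e S ?_ ?_ f
  · rw [← isSeqClosed_iff_isClosed]
    intro x a hx hxa
    have hcount : (⋃ n, {s | vv (x n) s ≠ 0}).Countable := Set.countable_iUnion fun n => hx n
    refine hcount.mono ?_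
    intro s hs
    by_contra hc
    simp only [mem_iUnion, mem_ofPred_eq, not_exists, not_not] at hc
    apply hs
    have h1 : Tendsto (fun n => vv (x n) s) atTop (𝓝 (vv a s)) :=
      ((dl s).continuous.tendsto a).comp hxa
    refine tendsto_nhds_unique h1 ?_
    simp only [hc]
    exact tendsto_const_nhds
  · intro t
    refine (BigTree.ctbl t).mono ?_
    intro s hs
    by_contra hc
    exact hs (e_of_not_le hc)

/-- A criterion for the Asplund property. -/
theorem asplund_of {X : Type} [NormedAddCommGroup X] [NormedSpace ℝ X] {T : Type}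
    (d : T → X →L[ℝ] ℝ) (hd : ∀ φ, φ ∈ (Submodule.span ℝ (Set.range d)).topologicalClosure)
    (hc : ∀ x, {s | d s x ≠ 0}.Countable)
    (Y : Submodule ℝ X) (hY : TopologicalSpace.SeparableSpace Y) :
    TopologicalSpace.SeparableSpace (Y →L[ℝ] ℝ) := by
  classical
  obtain ⟨S, hSc, hSd⟩ := TopologicalSpace.exists_countable_dense Y
  let D : Set T := ⋃ y ∈ S, {s | d s (y : X) ≠ 0}
  have hD : D.Countable := hSc.biUnion fun y _ => hc _
  have hzero : ∀ s, s ∉ D → ∀ y : Y, d s (y : X) = 0 := by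
    intro s hs y
    have hcont : Continuous fun y : Y => d s (y : X) := (d s).continuous.comp continuous_subtype_val
    have hcl : IsClosed {y : Y | d s (y : X) = 0} := isClosed_singleton.preimage hcont
    have hsub : S ⊆ {y : Y | d s (y : X) = 0} := by
      intro y hy
      by_contra hne
      exact hs (Set.mem_biUnion hy hne)
    have := (hcl.closure_subset_iff.2 hsub) (hSd y)
    exact this
  let ρ : (X →L[ℝ] ℝ) →L[ℝ] (Y →L[ℝ] ℝ) := ContinuousLinearMap.precomp ℝ Y.subtypeL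
  have hρ : ∀ φ, ρ φ = φ.comp Y.subtypeL := fun φ => rfl
  rw [← TopologicalSpace.isSeparable_univ_iff]
  let G : Set (Y →L[ℝ] ℝ) := (fun s => ρ (d s)) '' D
  have hG : G.Countable := hD.image _
  have hGs : TopologicalSpace.IsSeparable (closure (Submodule.span ℝ G : Set (Y →L[ℝ] ℝ))) :=
    hG.isSeparable.span.closure
  refine hGs.mono ?_
  intro ψ _
  obtain ⟨φ, hφ, -⟩ := exists_extension_norm_eq (𝕜 := ℝ) Y ψ
  have hψ : ρ φ = ψ := by
    ext y
    exact hφ y
  have h1 : (Submodule.span ℝ (Set.range d)).topologicalClosure ≤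
      ((Submodule.span ℝ G).topologicalClosure).comap (ρ : (X →L[ℝ] ℝ) →ₗ[ℝ] _) := by
    apply Submodule.topologicalClosure_minimal
    · rw [Submodule.span_le]
      rintro _ ⟨s, rfl⟩
      change ρ (d s) ∈ (Submodule.span ℝ G).topologicalClosure
      apply Submodule.le_topologicalClosure
      by_cases hs : s ∈ D
      · exact Submodule.subset_span ⟨s, hs, rfl⟩
      · have : ρ (d s) = 0 := by
          ext y
          exact hzero s hs y
        rw [this]
        exact Submodule.zero_mem _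
    · exact (Submodule.isClosed_topologicalClosure _).preimage ρ.continuous
  have h2 := h1 (hd φ)
  rw [← hψ]
  exact h2

end asp2

end Pool.Agent.Helper30.Haydon
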