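import Pool.Agent.Helper30.HSpace

set_option autoImplicit false

open Set Filter Topology

namespace Pool.Agent.Helper30.Haydon

section main

variable {T : Type} [PartialOrder T] [TopologicalSpace T] [DiscreteTopology T] [BigTree T]
variable {p : XX T → ℝ} {C : ℝ}

theorem J_ne {u v : T} (huv : u ≤ v) {r : T} (h : vv (e v - e u) r ≠ 0) : r ≤ v ∧ ¬ r ≤ u := by
  by_contra hc
  exact h (J_apply_eq_zero huv hc)

/-- The main step: either one can increase the last value at small cost, or the norm is not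
Fréchet differentiable at some nonzero point. -/
theorem SN.step (h : SN p C) (hdef : ∀ x, p x = 0 → x = 0)
    (hdiff : ∀ x : XX T, x ≠ 0 → DifferentiableAt ℝ p x)
    {ξ : XX T} {s : ℝ} {t : T} (hs : 0 < s) (hst : Stab p ξ s t) {η : ℝ} (hη : 0 < η) :
    ∃ (ξ' : XX T) (s' : ℝ) (t' : T), t ≤ t' ∧ s < s' ∧ ‖ξ' - ξ‖ ≤ s' - s ∧ Stab p ξ' s' t' ∧
      p (ξ' + s' • e t') ≤ p (ξ + s • e t) + η * (s' - s) := by
  classical
  by_contra hcon
  set q := p (ξ + s • e t) with hq
  -- not Case 1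
  have NC : ∀ ε : ℝ, 0 < ε → ∀ u', t ≤ u' → ∀ u, u' ≤ u → ∃ v, u ≤ v ∧
      q + η * ε < p (ξ - ε • e u' + (s + ε) • e v) := by
    intro ε hε u' hu' u hu
    by_contra hno
    push Not at hno
    obtain ⟨t', ht', hstab⟩ := h.exists_stab (ξ - ε • e u') (s + ε) u
    apply hcon
    refine ⟨ξ - ε • e u', s + ε, t', hu'.trans (hu.trans ht'), by linarith, ?_, hstab, ?_⟩
    · have h1 : ξ - ε • e u' - ξ = -(ε • e u') := by abel
      rw [h1, norm_neg, norm_smul, Real.norm_eq_abs, abs_of_pos hε]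
      have := norm_e_le u'
      nlinarith
    · have := hno t' ht'
      linarith
  -- q is positive
  have hqpos : q ≠ 0 := by
    intro hq0
    have h1 : ξ + s • e t = 0 := hdef _ (hq ▸ hq0)
    have h2 : ξ + s • e (ch t 0) = 0 := hdef _ (by
      rw [hst (ch t 0) (lt_ch t 0).le, ← hq]; exact hq0)
    have h3 : s • (e (ch t 0) - e t) = 0 := by
      have : s • (e (ch t 0) - e t) = (ξ + s • e (ch t 0)) - (ξ + s • e t) := by
        rw [smul_sub]; abel
      rw [this, h1, h2, sub_zero]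
    have h4 : (e (ch t 0) - e t : XX T) = 0 := by
      rcases smul_eq_zero.1 h3 with h' | h'
      · exact absurd h' hs.ne'
      · exact h'
    have h5 := J_apply_mem (T := T) (u := t) (v := ch t 0) (s := ch t 0) le_rfl
      (not_le_of_gt (lt_ch t 0))
    rw [h4, zero_apply] at h5
    exact zero_ne_one h5
  let E : ℕ → ℝ := fun n => 1 / ((n : ℝ) + 1)
  have hE : ∀ n, 0 < E n := fun n => by positivity
  -- recursive selection
  have sel : ∀ (n : ℕ) (a b : T), ∃ c : T, t ≤ a → a ≤ b → b ≤ c ∧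
      (∃ i, ch b i ≤ c ∧ ∀ w : XX T, ‖w‖ ≤ s → (∀ r, ¬ ch b i ≤ r → vv w r = 0) →
        p (ξ - E n • e a + (s + E n) • e b) - η * E n / 2 ≤
          p (ξ - E n • e a + (s + E n) • e b + w)) ∧
      q + η * E (n + 1) < p (ξ - E (n + 1) • e b + (s + E (n + 1)) • e c) := by
    intro n a b
    by_cases hab : t ≤ a ∧ a ≤ b
    · obtain ⟨i, hi⟩ := (h.avg (ξ - E n • e a + (s + E n) • e b) b hs.le
        (show 0 < η * E n / 2 by have := hE n; positivity)).exists_notMem
      obtain ⟨v, hv1, hv2⟩ := NC (E (n + 1)) (hE _) b (hab.1.trans hab.2) (ch b i) (lt_ch b i).le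
      refine ⟨v, fun _ _ => ⟨(lt_ch b i).le.trans hv1, ⟨i, hv1, ?_⟩, hv2⟩⟩
      intro w hw1 hw2
      by_contra hlt
      push Not at hlt
      exact hi ⟨w, hw1, hw2, hlt⟩
    · exact ⟨a, fun h1 h2 => absurd ⟨h1, h2⟩ hab⟩
  choose c hc using sel
  obtain ⟨c₀, hc₀1, hc₀2⟩ := NC (E 0) (hE 0) t le_rfl t le_rfl
  let P : ℕ → T × T := fun n => Nat.rec (t, c₀) (fun n x => (x.2, c n x.1 x.2)) n
  have hP : ∀ n, P (n + 1) = ((P n).2, c n (P n).1 (P n).2) := fun n => rfl
  let u : ℕ → T := fun n => (P n).1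
  have hu1 : ∀ n, u (n + 1) = (P n).2 := fun n => rfl
  have hbase : ∀ n, t ≤ (P n).1 ∧ (P n).1 ≤ (P n).2 ∧
      q + η * E n < p (ξ - E n • e (P n).1 + (s + E n) • e (P n).2) := by
    intro n
    induction n with
    | zero => exact ⟨le_rfl, hc₀1, hc₀2⟩
    | succ n ih =>
      obtain ⟨h1, h2, h3⟩ := hc n (P n).1 (P n).2 ih.1 ih.2.1
      rw [hP]
      exact ⟨ih.1.trans ih.2.1, h1, h3⟩
  have hmono : Monotone u := monotone_nat_of_le_succ fun n => (hbase n).2.1
  have htu : ∀ n, t ≤ u n := fun n => (hbase n).1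
  have hgood : ∀ n, ∃ i, ch (u (n + 1)) i ≤ u (n + 2) ∧ ∀ w : XX T, ‖w‖ ≤ s →
      (∀ r, ¬ ch (u (n + 1)) i ≤ r → vv w r = 0) →
        p (ξ - E n • e (u n) + (s + E n) • e (u (n + 1))) - η * E n / 2 ≤
          p (ξ - E n • e (u n) + (s + E n) • e (u (n + 1)) + w) := fun n =>
    (hc n (P n).1 (P n).2 (hbase n).1 (hbase n).2.1).2.1
  have hbig : ∀ n, q + η * E n < p (ξ - E n • e (u n) + (s + E n) • e (u (n + 1))) :=
    fun n => (hbase n).2.2
  obtain ⟨L, hL, -⟩ := BigTree.lub u hmono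
  have htL : t ≤ L := (htu 0).trans (hL 0)
  set z := ξ + s • e L with hz
  have hpz : p z = q := hst L htL
  have hz0 : z ≠ 0 := by
    intro h0
    rw [h0, h.zero] at hpz
    exact hqpos hpz.symm
  let J : ℕ → XX T := fun n => e (u (n + 1)) - e (u n)
  have hJ : ∀ n, ‖J n‖ ≤ 1 := fun n => norm_J_le (hmono (Nat.le_succ n))
  have hlow : ∀ n, q + η * E n / 2 ≤ p (z + E n • J n) := by
    intro n
    obtain ⟨i, hi1, hi2⟩ := hgood n
    have hle : u (n + 1) ≤ L := hL (n + 1)
    have key := hi2 (s • (e L - e (u (n + 1)))) (by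
        rw [norm_smul, Real.norm_eq_abs, abs_of_pos hs]
        have := norm_J_le (T := T) hle
        nlinarith) (by
        intro r hr
        rw [smul_apply, J_apply_eq_zero hle, mul_zero]
        intro hc'
        exact hr (ch_le_of _ i (hi1.trans (hL (n + 2))) hc'.1 hc'.2))
    have heq : ξ - E n • e (u n) + (s + E n) • e (u (n + 1)) + s • (e L - e (u (n + 1))) =
        z + E n • J n := by
      simp only [hz, J]
      module
    rw [heq] at key
    have := hbig n
    linarith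
  -- differentiability
  obtain ⟨D, hD⟩ := hdiff z hz0
  have hE0 : Tendsto E atTop (𝓝 0) := tendsto_one_div_add_atTop_nhds_zero_nat
  have hto : Tendsto (fun n => z + E n • J n) atTop (𝓝 z) := by
    have h1 : Tendsto (fun n => E n • J n) atTop (𝓝 0) := by
      apply squeeze_zero_norm (a := E) _ hE0
      intro n
      rw [norm_smul, Real.norm_eq_abs, abs_of_pos (hE n)]
      have := hJ n
      have := hE n
      nlinarith
    simpa using (tendsto_const_nhds (x := z)).add h1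
  have hlo := (hD.isLittleO.comp_tendsto hto).def (show (0 : ℝ) < η / 8 by positivity)
  obtain ⟨N, hN⟩ := eventually_atTop.1 hlo
  have hDJ : ∀ n, N ≤ n → η / 4 ≤ D (J n) := by
    intro n hn
    have h1 := hN n hn
    simp only [Function.comp_apply, add_sub_cancel_left] at h1
    rw [map_smul, smul_eq_mul, Real.norm_eq_abs, norm_smul, Real.norm_eq_abs,
      abs_of_pos (hE n)] at h1
    have h2 := (abs_le.1 h1).2
    have h3 := hlow n
    have h4 := hJ n
    have h5 := hE n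
    rw [hpz] at h2
    have h6 : E n * ‖J n‖ ≤ E n := by nlinarith
    have h7 : η / 8 * (E n * ‖J n‖) ≤ η / 8 * E n := by
      apply mul_le_mul_of_nonneg_left h6; positivity
    have h8 : E n * (η / 4) ≤ E n * D (J n) := by nlinarith
    exact le_of_mul_le_mul_left h8 h5
  obtain ⟨K, hK⟩ := exists_nat_gt (‖D‖ / (η / 4))
  have hsum : ‖∑ n ∈ Finset.Ico N (N + K), J n‖ ≤ 1 := by
    apply norm_sum_le _ _ zero_le_one (fun n _ => hJ n)
    intro r i _ j _ hi hj
    have h1 := J_ne (hmono (Nat.le_succ i)) hi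
    have h2 := J_ne (hmono (Nat.le_succ j)) hj
    rcases lt_trichotomy i j with hij | hij | hij
    · exact absurd (h1.1.trans (hmono hij)) h2.2
    · exact hij
    · exact absurd (h2.1.trans (hmono hij)) h1.2
  have h9 : D (∑ n ∈ Finset.Ico N (N + K), J n) ≤ ‖D‖ := by
    refine (le_abs_self _).trans ((D.le_opNorm _).trans ?_)
    nlinarith [norm_nonneg D]
  rw [map_sum] at h9
  have h10 : ∑ n ∈ Finset.Ico N (N + K), (η / 4) ≤ ∑ n ∈ Finset.Ico N (N + K), D (J n) :=
    Finset.sum_le_sum fun n hn => hDJ n (Finset.mem_Ico.1 hn).1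
  rw [Finset.sum_const, Nat.card_Ico, Nat.add_sub_cancel_left, nsmul_eq_mul] at h10
  rw [div_lt_iff₀ (by positivity)] at hK
  linarith

/-- states -/
structure State (p : XX T → ℝ) where
  ξ : XX T
  s : ℝ
  t : T
  hs : 1 ≤ s
  stab : Stab p ξ s t

/-- the order on states -/
def State.R (η : ℝ) (a b : State p) : Prop :=
  a.t ≤ b.t ∧ ‖b.ξ - a.ξ‖ ≤ b.s - a.s ∧
    p (b.ξ + b.s • e b.t) ≤ p (a.ξ + a.s • e a.t) + η * (b.s - a.s)

theorem State.R_refl (η : ℝ) (a : State p) : State.R η a a := ⟨le_rfl, by simp, by simp⟩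

theorem State.R_trans (η : ℝ) (a b c : State p) (h1 : State.R η a b) (h2 : State.R η b c) :
    State.R η a c := by
  refine ⟨h1.1.trans h2.1, ?_, ?_⟩
  · have : c.ξ - a.ξ = (c.ξ - b.ξ) + (b.ξ - a.ξ) := by abel
    rw [this]
    refine (norm_add_le _ _).trans ?_
    linarith [h1.2.1, h2.2.1]
  · have := h1.2.2
    have := h2.2.2
    linarith

theorem State.R_s {η : ℝ} {a b : State p} (h : State.R η a b) : a.s ≤ b.s := by
  have := (norm_nonneg _).trans h.2.1
  linarith

theorem SN.cont (h : SN p C) : Continuous p := by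
  have hL : LipschitzWith (Real.toNNReal C) p := by
    apply LipschitzWith.of_dist_le_mul
    intro x y
    rw [Real.dist_eq, dist_eq_norm, Real.coe_toNNReal _ h.hC, abs_le]
    have h1 := h.sub_le x y
    have h2 := h.sub_le y x
    have h3 := h.bd (x - y)
    have h4 := h.bd (y - x)
    rw [norm_sub_rev] at h4
    constructor <;> linarith
  exact hL.continuous

theorem State.chain (h : SN p C) {η : ℝ} (hη : 0 < η) {M : ℝ} (f : ℕ → State p)
    (hM : ∀ n, (f n).s ≤ M) (hf : ∀ n, State.R η (f n) (f (n + 1))) :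
    ∃ b : State p, ∀ n, State.R η (f n) b := by
  have hR : ∀ n m, n ≤ m → State.R η (f n) (f m) := by
    intro n m hnm
    induction m, hnm using Nat.le_induction with
    | base => exact State.R_refl _ _
    | succ m hm ih => exact State.R_trans _ _ _ _ ih (hf m)
  have hsm : Monotone fun n => (f n).s := fun n m hnm => State.R_s (hR n m hnm)
  have hbdd : BddAbove (Set.range fun n => (f n).s) := ⟨M, by rintro _ ⟨n, rfl⟩; exact hM n⟩
  have hslim := tendsto_atTop_ciSup hsm hbdd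
  set σ := ⨆ n, (f n).s with hσ
  have hsσ : ∀ n, (f n).s ≤ σ := fun n => le_ciSup hbdd n
  -- ξ is Cauchy
  have hcs : CauchySeq fun n => (f n).ξ := by
    have hcs' : CauchySeq fun n => (f n).s := hslim.cauchySeq
    rw [Metric.cauchySeq_iff'] at hcs' ⊢
    intro ε hε
    obtain ⟨N, hN⟩ := hcs' ε hε
    refine ⟨N, fun n hn => ?_⟩
    rw [dist_eq_norm]
    refine lt_of_le_of_lt (hR N n hn).2.1 ?_
    have := hN n hn
    rw [Real.dist_eq] at this
    exact lt_of_le_of_lt (le_abs_self _) this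
  obtain ⟨ζ, hζ⟩ := cauchySeq_tendsto_of_complete hcs
  obtain ⟨L, hL, -⟩ := BigTree.lub (fun n => (f n).t) (monotone_nat_of_le_succ fun n => (hf n).1)
  have hpc := h.cont
  have hlim : ∀ v, L ≤ v → Tendsto (fun n => p ((f n).ξ + (f n).s • e (f n).t)) atTop
      (𝓝 (p (ζ + σ • e v))) := by
    intro v hv
    have h1 : Tendsto (fun n => p ((f n).ξ + (f n).s • e v)) atTop (𝓝 (p (ζ + σ • e v))) :=
      (hpc.tendsto _).comp (hζ.add (hslim.smul_const _))
    refine h1.congr fun n => ?_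
    exact (f n).stab v ((hL n).trans hv)
  refine ⟨⟨ζ, σ, L, (f 0).hs.trans (hsσ 0), ?_⟩, ?_⟩
  · intro v hv
    exact tendsto_nhds_unique (hlim v hv) (hlim L le_rfl)
  · intro n
    refine ⟨hL n, ?_, ?_⟩
    · have h1 : Tendsto (fun m => ‖(f m).ξ - (f n).ξ‖) atTop (𝓝 ‖ζ - (f n).ξ‖) :=
        (hζ.sub_const _).norm
      have h2 : Tendsto (fun m => (f m).s - (f n).s) atTop (𝓝 (σ - (f n).s)) :=
        hslim.sub_const _
      refine le_of_tendsto_of_tendsto h1 h2 ?_
      filter_upwards [eventually_ge_atTop n] with m hm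
      exact (hR n m hm).2.1
    · have h1 := hlim L le_rfl
      have h2 : Tendsto (fun m => p ((f n).ξ + (f n).s • e (f n).t) + η * ((f m).s - (f n).s)) atTop
          (𝓝 (p ((f n).ξ + (f n).s • e (f n).t) + η * (σ - (f n).s))) :=
        ((hslim.sub_const _).const_mul _).const_add _
      refine le_of_tendsto_of_tendsto h1 h2 ?_
      filter_upwards [eventually_ge_atTop n] with m hm
      exact (hR n m hm).2.2

theorem SN.big (h : SN p C) (hdef : ∀ x, p x = 0 → x = 0)
    (hdiff : ∀ x : XX T, x ≠ 0 → DifferentiableAt ℝ p x) {η : ℝ} (hη : 0 < η) (M : ℝ) (t₀ : T) :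
    ∃ a : State p, t₀ ≤ a.t ∧ M ≤ a.s ∧ p (a.ξ + a.s • e a.t) ≤ C + η * a.s := by
  classical
  obtain ⟨t₁, ht₁, hst₁⟩ := h.exists_stab 0 1 t₀
  let x₀ : State p := ⟨0, 1, t₁, le_rfl, hst₁⟩
  by_contra hcon
  push Not at hcon
  have hx₀ : p (x₀.ξ + x₀.s • e x₀.t) ≤ C := by
    change p (0 + (1 : ℝ) • e t₁) ≤ C
    rw [zero_add, one_smul]
    have := h.bd (e t₁)
    have h2 := norm_e_le t₁
    nlinarith [h.hC]
  have hreach : ∀ a : State p, State.R η x₀ a → a.s < M := by
    intro a ha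
    by_contra hM
    push Not at hM
    have h1 := hcon a (ht₁.trans ha.1) hM
    have h2 := ha.2.2
    have h3 : x₀.s = 1 := rfl
    rw [h3] at h2
    nlinarith
  obtain ⟨b, hb1, hb2⟩ := brezis_browder (S := {a : State p // State.R η x₀ a})
    (fun a b => State.R η a.1 b.1) (fun a => State.R_refl _ _)
    (fun a b c h1 h2 => State.R_trans _ _ _ _ h1 h2) (fun a => a.1.s) M
    (fun a => (hreach a.1 a.2).le) (fun a b hab => State.R_s hab) (by
      intro f hf
      obtain ⟨b, hb⟩ := State.chain h hη (M := M) (fun n => (f n).1)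
        (fun n => (hreach _ (f n).2).le) hf
      exact ⟨⟨b, State.R_trans _ _ _ _ (f 0).2 (hb 0)⟩, hb⟩) ⟨x₀, State.R_refl _ _⟩
  obtain ⟨ξ', s', t', h1, h2, h3, h4, h5⟩ :=
    h.step hdef hdiff (lt_of_lt_of_le one_pos b.1.hs) b.1.stab hη
  let b' : State p := ⟨ξ', s', t', b.1.hs.trans h2.le, h4⟩
  have hRb : State.R η b.1 b' := ⟨h1, h3, h5⟩
  have := hb2 ⟨b', State.R_trans _ _ _ _ b.2 hRb⟩ hRb
  change s' = b.1.s at this
  linarith

theorem SN.small (h : SN p C) (hdef : ∀ x, p x = 0 → x = 0)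
    (hdiff : ∀ x : XX T, x ≠ 0 → DifferentiableAt ℝ p x) {δ : ℝ} (hδ : 0 < δ) (t₀ : T) :
    ∃ t, t₀ ≤ t ∧ ∀ u v, t ≤ u → u ≤ v → p (e v - e u) ≤ δ := by
  obtain ⟨a, ha1, ha2, ha3⟩ := h.big hdef hdiff (show 0 < δ / 4 by positivity) (4 * C / δ) t₀
  refine ⟨a.t, ha1, fun u v hu huv => ?_⟩
  have hs : 0 < a.s := lt_of_lt_of_le one_pos a.hs
  have h1 : p (a.s • (e v - e u)) ≤ 2 * p (a.ξ + a.s • e a.t) := by
    have heq : a.s • (e v - e u) = (a.ξ + a.s • e v) + (-(a.ξ + a.s • e u)) := by module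
    rw [heq]
    refine (h.sub _ _).trans ?_
    rw [h.neg, a.stab v (hu.trans huv), a.stab u hu]
    linarith
  rw [h.hom, abs_of_pos hs] at h1
  rw [div_le_iff₀ hδ] at ha2
  have h3 : a.s * p (e v - e u) ≤ a.s * δ := by nlinarith
  exact le_of_mul_le_mul_left h3 hs

/-- There is no continuous norm on `C₀(T)` that is Fréchet differentiable off the origin. -/
theorem SN.false (h : SN p C) (hdef : ∀ x, p x = 0 → x = 0)
    (hdiff : ∀ x : XX T, x ≠ 0 → DifferentiableAt ℝ p x) : False := by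
  classical
  obtain ⟨r⟩ := BigTree.nonempty (T := T)
  have hsel : ∀ (n : ℕ) (x : T), ∃ t, x ≤ t ∧ ∀ u v, t ≤ u → u ≤ v →
      p (e v - e u) ≤ 1 / ((n : ℝ) + 1) := fun n x => h.small hdef hdiff (by positivity) x
  choose g hg1 hg2 using hsel
  let f : ℕ → T := fun n => Nat.rec r (fun n x => g n x) n
  have hf : ∀ n, f (n + 1) = g n (f n) := fun n => rfl
  have hmono : Monotone f := monotone_nat_of_le_succ fun n => by rw [hf]; exact hg1 _ _
  obtain ⟨L, hL, -⟩ := BigTree.lub f hmono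
  have h0 : p (e (ch L 0) - e L) = 0 := by
    refine le_antisymm ?_ (h.nonneg _)
    apply le_of_forall_pos_le_add
    intro ε hε
    obtain ⟨n, hn⟩ := exists_nat_one_div_lt hε
    have := hg2 n (f n) L (ch L 0) (by rw [← hf]; exact hL (n + 1)) (lt_ch L 0).le
    linarith
  have h1 := hdef _ h0
  have h5 := J_apply_mem (T := T) (u := L) (v := ch L 0) (s := ch L 0) le_rfl
    (not_le_of_gt (lt_ch L 0))
  rw [h1, zero_apply] at h5
  exact zero_ne_one h5

end main

end Pool.Agent.Helper30.Haydon
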