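import Pool.Agent.Helper30.HTree

set_option autoImplicit false

open Set Filter Topology
open scoped BoundedContinuousFunction

namespace Pool.Agent.Helper30.Haydon

/-- Brezis-Browder type principle. -/
theorem brezis_browder {S : Type*} (R : S → S → Prop) (hrefl : ∀ a, R a a)
    (htrans : ∀ a b c, R a b → R b c → R a c) (φ : S → ℝ) (B : ℝ) (hB : ∀ a, φ a ≤ B)
    (hmono : ∀ a b, R a b → φ a ≤ φ b)
    (hchain : ∀ f : ℕ → S, (∀ n, R (f n) (f (n + 1))) → ∃ b, ∀ n, R (f n) b) (a : S) :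
    ∃ b, R a b ∧ ∀ c, R b c → φ c = φ b := by
  classical
  have hsup : ∀ x : S, ∀ n : ℕ, ∃ y, R x y ∧ ∀ c, R x c → φ c ≤ φ y + 1 / ((n : ℝ) + 1) := by
    intro x n
    have hne : (φ '' {c | R x c}).Nonempty := ⟨φ x, x, hrefl x, rfl⟩
    have hbd : BddAbove (φ '' {c | R x c}) := ⟨B, by rintro _ ⟨c, _, rfl⟩; exact hB c⟩
    have hpos : (0 : ℝ) < 1 / ((n : ℝ) + 1) := by positivity
    obtain ⟨_, ⟨y, hy, rfl⟩, hy2⟩ := exists_lt_of_lt_csSup hne (sub_lt_self (sSup (φ '' {c | R x c})) hpos)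
    refine ⟨y, hy, fun c hc => ?_⟩
    have := le_csSup hbd ⟨c, hc, rfl⟩
    linarith
  choose g hg1 hg2 using hsup
  let f : ℕ → S := fun n => Nat.rec a (fun n x => g x n) n
  have hf : ∀ n, f (n + 1) = g (f n) n := fun n => rfl
  have hR : ∀ n, R (f n) (f (n + 1)) := fun n => by rw [hf]; exact hg1 _ _
  obtain ⟨b, hb⟩ := hchain f hR
  refine ⟨b, hb 0, fun c hc => le_antisymm ?_ (hmono _ _ hc)⟩
  apply le_of_forall_pos_le_add
  intro ε hε
  obtain ⟨n, hn⟩ := exists_nat_one_div_lt hε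
  have h1 := hg2 (f n) n c (htrans _ _ _ (hb n) hc)
  rw [← hf] at h1
  have h2 := hmono _ _ (hb (n + 1))
  linarith

section space

variable {T : Type} [PartialOrder T] [TopologicalSpace T] [DiscreteTopology T]

/-- Bounded functions on `T`, with only its Banach space structure. -/
def EE (T : Type) [TopologicalSpace T] : Type := T →ᵇ ℝ

noncomputable instance instNACG {T : Type} [TopologicalSpace T] : NormedAddCommGroup (EE T) :=
  inferInstanceAs (NormedAddCommGroup (T →ᵇ ℝ))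
noncomputable instance instNS {T : Type} [TopologicalSpace T] : NormedSpace ℝ (EE T) :=
  inferInstanceAs (NormedSpace ℝ (T →ᵇ ℝ))
instance instCS {T : Type} [TopologicalSpace T] : CompleteSpace (EE T) :=
  inferInstanceAs (CompleteSpace (T →ᵇ ℝ))

/-- the underlying function -/
def ev (f : EE T) : T → ℝ := fun s => (show T →ᵇ ℝ from f) s

/-- the indicator of `{s | s ≤ t}` -/
noncomputable def ind (t : T) : EE T :=
  (BoundedContinuousFunction.mkOfDiscrete (Set.indicator (Set.Iic t) (fun _ => (1 : ℝ))) 1 (by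
    intro x y
    rw [Real.dist_eq]
    by_cases hx : x ∈ Set.Iic t <;> by_cases hy : y ∈ Set.Iic t <;> simp [hx, hy]) : T →ᵇ ℝ)

theorem ev_ind (t s : T) : ev (ind t) s = Set.indicator (Set.Iic t) (fun _ => (1 : ℝ)) s := rfl

theorem ind_of_le {t s : T} (h : s ≤ t) : ev (ind t) s = 1 := by
  rw [ev_ind, Set.indicator_of_mem (show s ∈ Set.Iic t from h)]

theorem ind_of_not_le {t s : T} (h : ¬ s ≤ t) : ev (ind t) s = 0 := by
  rw [ev_ind, Set.indicator_of_notMem (show s ∉ Set.Iic t from h)]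

variable (T) in
/-- The space `C₀(T)`: the closed linear span of the indicators of `{s | s ≤ t}`. -/
noncomputable def XX : Submodule ℝ (EE T) :=
  (Submodule.span ℝ (Set.range (ind : T → EE T))).topologicalClosure

theorem isClosed_XX : IsClosed (XX T : Set (EE T)) := Submodule.isClosed_topologicalClosure _

instance : CompleteSpace (XX T) := (isClosed_XX (T := T)).completeSpace_coe

/-- `e t` is the indicator of `{s | s ≤ t}` as an element of the space -/
noncomputable def e (t : T) : XX T :=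
  ⟨ind t, Submodule.le_topologicalClosure _ (Submodule.subset_span ⟨t, rfl⟩)⟩

/-- evaluation on the subspace -/
def vv (f : XX T) (s : T) : ℝ := ev (f : EE T) s

theorem e_of_le {t s : T} (h : s ≤ t) : vv (e t) s = 1 := ind_of_le h
theorem e_of_not_le {t s : T} (h : ¬ s ≤ t) : vv (e t) s = 0 := ind_of_not_le h

theorem norm_le_iff' (f : EE T) {C : ℝ} (hC : 0 ≤ C) : ‖f‖ ≤ C ↔ ∀ s, |ev f s| ≤ C :=
  BoundedContinuousFunction.norm_le (f := (show T →ᵇ ℝ from f)) hC

theorem norm_le_iff (f : XX T) {C : ℝ} (hC : 0 ≤ C) : ‖f‖ ≤ C ↔ ∀ s, |vv f s| ≤ C :=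
  norm_le_iff' (f : EE T) hC

theorem abs_apply_le (f : XX T) (s : T) : |vv f s| ≤ ‖f‖ :=
  (norm_le_iff f (norm_nonneg f)).1 le_rfl s

theorem norm_e_le (t : T) : ‖e t‖ ≤ 1 := by
  rw [norm_le_iff _ zero_le_one]
  intro s
  by_cases h : s ≤ t
  · simp [e_of_le h]
  · simp [e_of_not_le h]

theorem sub_apply (f g : XX T) (s : T) : vv (f - g) s = vv f s - vv g s := rfl
theorem add_apply (f g : XX T) (s : T) : vv (f + g) s = vv f s + vv g s := rfl
theorem smul_apply (c : ℝ) (g : XX T) (s : T) : vv (c • g) s = c * vv g s := rfl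
theorem zero_apply (s : T) : vv (0 : XX T) s = 0 := rfl

theorem ext_vv {f g : XX T} (h : ∀ s, vv f s = vv g s) : f = g := by
  apply Subtype.ext
  exact BoundedContinuousFunction.ext (f := (show T →ᵇ ℝ from (f : EE T))) (g := (show T →ᵇ ℝ from (g : EE T))) h

theorem J_apply_eq_zero {u v s : T} (huv : u ≤ v) (h : ¬ (s ≤ v ∧ ¬ s ≤ u)) :
    vv (e v - e u) s = 0 := by
  rw [sub_apply]
  by_cases hsu : s ≤ u
  · rw [e_of_le hsu, e_of_le (hsu.trans huv), sub_self]
  · have hsv : ¬ s ≤ v := fun h' => h ⟨h', hsu⟩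
    rw [e_of_not_le hsu, e_of_not_le hsv, sub_self]

theorem J_apply_mem {u v s : T} (h1 : s ≤ v) (h2 : ¬ s ≤ u) : vv (e v - e u) s = 1 := by
  rw [sub_apply, e_of_le h1, e_of_not_le h2, sub_zero]

theorem abs_J_le {u v : T} (huv : u ≤ v) (s : T) : |vv (e v - e u) s| ≤ 1 := by
  by_cases h : s ≤ v ∧ ¬ s ≤ u
  · rw [J_apply_mem h.1 h.2]; simp
  · rw [J_apply_eq_zero huv h]; simp

theorem norm_J_le {u v : T} (huv : u ≤ v) : ‖(e v - e u : XX T)‖ ≤ 1 :=
  (norm_le_iff _ zero_le_one).2 (abs_J_le huv)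

theorem sum_apply {ι : Type*} (F : Finset ι) (w : ι → XX T) (s : T) :
    vv (∑ i ∈ F, w i) s = ∑ i ∈ F, vv (w i) s := by
  classical
  induction F using Finset.induction_on with
  | empty => simp [zero_apply]
  | insert a F ha ih => rw [Finset.sum_insert ha, Finset.sum_insert ha, add_apply, ih]

theorem norm_sum_le {ι : Type*} (F : Finset ι) (w : ι → XX T) {M : ℝ} (hM : 0 ≤ M)
    (h : ∀ i ∈ F, ‖w i‖ ≤ M)
    (hd : ∀ s, ∀ i ∈ F, ∀ j ∈ F, vv (w i) s ≠ 0 → vv (w j) s ≠ 0 → i = j) :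
    ‖∑ i ∈ F, w i‖ ≤ M := by
  classical
  rw [norm_le_iff _ hM]
  intro s
  rw [sum_apply]
  by_cases hex : ∃ i ∈ F, vv (w i) s ≠ 0
  · obtain ⟨i, hi, his⟩ := hex
    rw [Finset.sum_eq_single i]
    · exact (abs_apply_le _ _).trans (h i hi)
    · intro j hj hji
      by_contra hne
      exact hji (hd s j hj i hi hne his)
    · intro hni; exact absurd hi hni
  · push Not at hex
    rw [Finset.sum_eq_zero hex]
    simpa using hM

end space

section main

variable {T : Type} [PartialOrder T] [TopologicalSpace T] [DiscreteTopology T] [BigTree T]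

/-- a chosen sequence of children -/
noncomputable def ch (t : T) : ℕ → T := (BigTree.child t).choose

theorem lt_ch (t : T) (i : ℕ) : t < ch t i := (BigTree.child t).choose_spec.1 i
theorem le_or_eq_of_le_ch (t : T) (i : ℕ) (s : T) (h : s ≤ ch t i) : s ≤ t ∨ s = ch t i :=
  (BigTree.child t).choose_spec.2.1 i s h
theorem ch_inj_of_le (t : T) (i j : ℕ) (v : T) (hi : ch t i ≤ v) (hj : ch t j ≤ v) : i = j :=
  (BigTree.child t).choose_spec.2.2 i j v hi hj

theorem ch_le_of (t : T) (i : ℕ) {s v : T} (hv : ch t i ≤ v) (h1 : s ≤ v) (h2 : ¬ s ≤ t) :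
    ch t i ≤ s := by
  rcases BigTree.chain s (ch t i) v h1 hv with h | h
  · rcases le_or_eq_of_le_ch t i s h with h' | h'
    · exact absurd h' h2
    · exact h'.ge
  · exact h

/-- `SN p C` : `p` is a seminorm bounded by `C` times the norm. -/
structure SN (p : XX T → ℝ) (C : ℝ) : Prop where
  sub : ∀ x y, p (x + y) ≤ p x + p y
  hom : ∀ (c : ℝ) x, p (c • x) = |c| * p x
  bd : ∀ x, p x ≤ C * ‖x‖
  hC : 0 ≤ C

variable {p : XX T → ℝ} {C : ℝ}

theorem SN.zero (h : SN p C) : p 0 = 0 := by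
  have := h.hom 0 0
  simpa using this

theorem SN.neg (h : SN p C) (x : XX T) : p (-x) = p x := by
  have := h.hom (-1) x
  simpa using this

theorem SN.nonneg (h : SN p C) (x : XX T) : 0 ≤ p x := by
  have h1 := h.sub x (-x)
  rw [add_neg_cancel, h.zero, h.neg] at h1
  linarith

theorem SN.sum (h : SN p C) {ι : Type*} (F : Finset ι) (w : ι → XX T) :
    p (∑ i ∈ F, w i) ≤ ∑ i ∈ F, p (w i) := by
  classical
  induction F using Finset.induction_on with
  | empty => simp [h.zero]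
  | insert a F ha ih =>
    rw [Finset.sum_insert ha, Finset.sum_insert ha]
    exact (h.sub _ _).trans (by linarith)

theorem SN.sub_le (h : SN p C) (x y : XX T) : p x - p y ≤ p (x - y) := by
  have := h.sub (x - y) y
  rw [sub_add_cancel] at this
  linarith

/-- Averaging lemma. -/
theorem SN.avg (h : SN p C) (g : XX T) (u : T) {M ε : ℝ} (hM : 0 ≤ M) (hε : 0 < ε) :
    {i : ℕ | ∃ w : XX T, ‖w‖ ≤ M ∧ (∀ s, ¬ ch u i ≤ s → vv w s = 0) ∧
      p (g + w) < p g - ε}.Finite := by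
  classical
  by_contra hinf
  have hinf : {i : ℕ | ∃ w : XX T, ‖w‖ ≤ M ∧ (∀ s, ¬ ch u i ≤ s → vv w s = 0) ∧
      p (g + w) < p g - ε}.Infinite := hinf
  obtain ⟨n, hn⟩ := exists_nat_gt (C * M / ε)
  obtain ⟨F, hF, hcard⟩ := hinf.exists_subset_card_eq n
  have hsel : ∀ i : ℕ, ∃ w : XX T, i ∈ F → (‖w‖ ≤ M ∧ (∀ s, ¬ ch u i ≤ s → vv w s = 0) ∧
      p (g + w) < p g - ε) := by
    intro i
    by_cases hi : i ∈ F
    · obtain ⟨w, hw⟩ := hF hi
      exact ⟨w, fun _ => hw⟩
    · exact ⟨0, fun h => absurd h hi⟩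
  choose w hw using hsel
  have hsumle : ‖∑ i ∈ F, w i‖ ≤ M := by
    apply norm_sum_le F w hM (fun i hi => (hw i hi).1)
    intro s i hi j hj hi0 hj0
    have h1 : ch u i ≤ s := by
      by_contra hcon; exact hi0 ((hw i hi).2.1 s hcon)
    have h2 : ch u j ≤ s := by
      by_contra hcon; exact hj0 ((hw j hj).2.1 s hcon)
    exact ch_inj_of_le u i j s h1 h2
  have h1 : p (∑ i ∈ F, (g + w i)) ≤ ∑ i ∈ F, (p g - ε) :=
    (h.sum F _).trans (Finset.sum_le_sum fun i hi => (hw i hi).2.2.le)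
  rw [Finset.sum_const, hcard, Finset.sum_add_distrib, Finset.sum_const, hcard, nsmul_eq_mul] at h1
  have h2 : p ((n : ℝ) • g) = n * p g := by rw [h.hom]; simp
  have h3 : (n : ℝ) • g = (n • g + ∑ i ∈ F, w i) + (-(∑ i ∈ F, w i)) := by
    rw [add_neg_cancel_right, Nat.cast_smul_eq_nsmul]
  have h4 : n * p g ≤ n * (p g - ε) + C * M := by
    rw [← h2, h3]
    refine (h.sub _ _).trans ?_
    rw [h.neg]
    have := h.bd (∑ i ∈ F, w i)
    have h5 : C * ‖∑ i ∈ F, w i‖ ≤ C * M := mul_le_mul_of_nonneg_left hsumle h.hC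
    linarith
  rw [div_lt_iff₀ hε] at hn
  nlinarith

/-- For all but finitely many children, everything above is almost minimal. -/
theorem SN.avg' (h : SN p C) (ξ : XX T) (a : ℝ) (u : T) {ε : ℝ} (hε : 0 < ε) :
    ∃ i : ℕ, ∀ v, ch u i ≤ v → p (ξ + a • e u) - ε ≤ p (ξ + a • e v) := by
  obtain ⟨i, hi⟩ := (h.avg (ξ + a • e u) u (abs_nonneg a) hε).exists_notMem
  refine ⟨i, fun v hv => ?_⟩
  by_contra hcon
  push Not at hcon
  apply hi
  have huv : u ≤ v := (lt_ch u i).le.trans hv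
  refine ⟨a • (e v - e u), ?_, ?_, ?_⟩
  · rw [norm_smul, Real.norm_eq_abs]
    have := norm_J_le (T := T) huv
    have h0 := abs_nonneg a
    nlinarith
  · intro s hs
    rw [smul_apply, J_apply_eq_zero huv, mul_zero]
    intro hc
    exact hs (ch_le_of u i hv hc.1 hc.2)
  · have : ξ + a • e u + a • (e v - e u) = ξ + a • e v := by
      rw [smul_sub]; abel
    rw [this]
    exact hcon

/-- `Stab p ξ a t`: the value `p (ξ + a e_v)` is the same for all `v ≥ t`. -/
def Stab (p : XX T → ℝ) (ξ : XX T) (a : ℝ) (t : T) : Prop :=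
  ∀ v, t ≤ v → p (ξ + a • e v) = p (ξ + a • e t)

theorem Stab.mono {ξ : XX T} {a : ℝ} {t t' : T} (h : Stab p ξ a t) (ht : t ≤ t') :
    Stab p ξ a t' := fun v hv => by rw [h v (ht.trans hv), h t' ht]

theorem SN.exists_stab (h : SN p C) (ξ : XX T) (a : ℝ) (t₀ : T) :
    ∃ t, t₀ ≤ t ∧ Stab p ξ a t := by
  classical
  let F : T → ℝ := fun v => p (ξ + a • e v)
  have hF0 : ∀ v, 0 ≤ F v := fun v => h.nonneg _
  have hbb : ∀ u : T, BddBelow (F '' Set.Ici u) := fun u => ⟨0, by rintro _ ⟨v, _, rfl⟩; exact hF0 v⟩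
  let m : T → ℝ := fun u => sInf (F '' Set.Ici u)
  have hmle : ∀ u v, u ≤ v → m u ≤ F v := fun u v huv => csInf_le (hbb u) ⟨v, huv, rfl⟩
  have hmmono : ∀ u v, u ≤ v → m u ≤ m v := by
    intro u v huv
    refine csInf_le_csInf (hbb u) ⟨F v, v, le_rfl, rfl⟩ ?_
    rintro _ ⟨w, hw, rfl⟩
    exact ⟨w, huv.trans hw, rfl⟩
  have hmB : ∀ u, m u ≤ C * (‖ξ‖ + |a|) := by
    intro u
    refine (hmle u u le_rfl).trans ((h.bd _).trans ?_)
    refine mul_le_mul_of_nonneg_left ?_ h.hC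
    refine (norm_add_le _ _).trans ?_
    rw [norm_smul, Real.norm_eq_abs]
    have := norm_e_le u
    have h0 := abs_nonneg a
    nlinarith
  obtain ⟨t, ht1, ht2⟩ := brezis_browder (S := T) (· ≤ ·) (fun _ => le_rfl)
    (fun _ _ _ h1 h2 => h1.trans h2) m _ hmB hmmono (fun f hf => by
      obtain ⟨L, hL, _⟩ := BigTree.lub f (monotone_nat_of_le_succ hf)
      exact ⟨L, hL⟩) t₀
  have key : ∀ u, t ≤ u → F u = m t := by
    intro u hu
    refine le_antisymm ?_ (hmle t u hu)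
    apply le_of_forall_pos_le_add
    intro ε hε
    obtain ⟨i, hi⟩ := h.avg' ξ a u (half_pos hε)
    have h1 : m (ch u i) = m t := ht2 _ (hu.trans (lt_ch u i).le)
    obtain ⟨_, ⟨v, hv, rfl⟩, hv2⟩ := exists_lt_of_csInf_lt (s := F '' Set.Ici (ch u i))
      ⟨F (ch u i), ch u i, le_rfl, rfl⟩ (show m (ch u i) < m (ch u i) + ε / 2 by linarith)
    have h2 := hi v hv
    change F u - ε / 2 ≤ F v at h2
    linarith
  refine ⟨t, ht1, fun v hv => ?_⟩
  exact (key v hv).trans (key t le_rfl).symm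

end main

end Pool.Agent.Helper30.Haydon
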