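import Mathlib

set_option autoImplicit false

namespace Pool.Agent.Helper30.Haydon

/-- The order-theoretic facts about the full infinitely branching tree of height `ω₁`. -/
class BigTree (T : Type) [PartialOrder T] : Prop where
  chain : ∀ s s' t : T, s ≤ t → s' ≤ t → s ≤ s' ∨ s' ≤ s
  ctbl : ∀ t : T, (Set.Iic t).Countable
  wf : WellFounded ((· < ·) : T → T → Prop)
  meet : ∀ s t : T, ∃ m : T, m ≤ s ∧ m ≤ t ∧ ∀ r, r ≤ s → r ≤ t → r ≤ m
  child : ∀ t : T, ∃ c : ℕ → T, (∀ i, t < c i) ∧ (∀ i s, s ≤ c i → s ≤ t ∨ s = c i) ∧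
    (∀ i j v, c i ≤ v → c j ≤ v → i = j)
  lub : ∀ t : ℕ → T, Monotone t → ∃ L : T, (∀ n, t n ≤ L) ∧ ∀ s, s ≤ L → s = L ∨ ∃ n, s ≤ t n
  nonempty : Nonempty T

/-- A well-order with countable initial segments in which sequences are bounded. -/
class Om1 (Ω : Type) [LinearOrder Ω] : Prop where
  wf : WellFoundedLT Ω
  ctbl : ∀ a : Ω, (Set.Iic a).Countable
  bdd : ∀ f : ℕ → Ω, ∃ b : Ω, ∀ n, f n < b
  nonempty : Nonempty Ω

section node
variable {Ω : Type} [LinearOrder Ω]

variable (Ω) in
/-- A sequence of naturals of length `len`. -/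
@[ext] structure Node where
  len : Ω
  val : Ω → ℕ
  supp : ∀ x, len ≤ x → val x = 0

namespace Node

instance : PartialOrder (Node Ω) where
  le s t := s.len ≤ t.len ∧ ∀ x, x < s.len → s.val x = t.val x
  le_refl s := ⟨le_refl _, fun _ _ => rfl⟩
  le_trans s t u h1 h2 := ⟨h1.1.trans h2.1, fun x hx => (h1.2 x hx).trans (h2.2 x (hx.trans_le h1.1))⟩
  le_antisymm s t h1 h2 := by
    have hl : s.len = t.len := le_antisymm h1.1 h2.1
    refine Node.ext hl ?_
    funext x
    by_cases hx : x < s.len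
    · exact h1.2 x hx
    · rw [s.supp x (not_lt.1 hx), t.supp x (hl ▸ not_lt.1 hx)]

theorem le_def (s t : Node Ω) : s ≤ t ↔ s.len ≤ t.len ∧ ∀ x, x < s.len → s.val x = t.val x := Iff.rfl

theorem len_lt {s t : Node Ω} (h : s < t) : s.len < t.len := by
  obtain ⟨h1, h2⟩ := lt_iff_le_not_ge.1 h
  refine lt_of_le_of_ne h1.1 fun he => h2 ?_
  exact ⟨he.ge, fun x hx => (h1.2 x (he ▸ hx)).symm⟩

/-- restriction of a node -/
def res (t : Node Ω) (a : Ω) : Node Ω where
  len := min a t.len
  val := fun x => if x < a then t.val x else 0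
  supp := by
    intro x hx
    split_ifs with h
    · apply t.supp
      rcases le_total a t.len with h1 | h1
      · rw [min_eq_left h1] at hx
        exact absurd h (not_lt.2 hx)
      · rwa [min_eq_right h1] at hx
    · rfl

theorem res_le (t : Node Ω) (a : Ω) : t.res a ≤ t :=
  ⟨min_le_right _ _, fun x hx => by simp [res, (lt_min_iff.1 hx).1]⟩

theorem eq_res {s t : Node Ω} (h : s ≤ t) : s = t.res s.len := by
  refine Node.ext ?_ ?_
  · simp [res, h.1]
  · funext x
    by_cases hx : x < s.len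
    · simp [res, hx, h.2 x hx]
    · simp [res, hx, s.supp x (not_lt.1 hx)]

theorem le_of_len_le {s s' t : Node Ω} (h : s ≤ t) (h' : s' ≤ t) (hl : s.len ≤ s'.len) : s ≤ s' :=
  ⟨hl, fun x hx => (h.2 x hx).trans (h'.2 x (hx.trans_le hl)).symm⟩

theorem chain (s s' t : Node Ω) (h : s ≤ t) (h' : s' ≤ t) : s ≤ s' ∨ s' ≤ s := by
  rcases le_total s.len s'.len with hl | hl
  · exact Or.inl (le_of_len_le h h' hl)
  · exact Or.inr (le_of_len_le h' h hl)

theorem ctbl [Om1 Ω] (t : Node Ω) : (Set.Iic t).Countable := by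
  refine ((Om1.ctbl t.len).image (fun a => t.res a)).mono ?_
  intro s hs
  exact ⟨s.len, hs.1, (eq_res hs).symm⟩

theorem wf [Om1 Ω] : WellFounded ((· < ·) : Node Ω → Node Ω → Prop) := by
  have : WellFoundedLT Ω := Om1.wf
  exact Subrelation.wf (fun h => len_lt h) (InvImage.wf Node.len (wellFounded_lt (α := Ω)))

theorem meet [Om1 Ω] (s t : Node Ω) : ∃ m : Node Ω, m ≤ s ∧ m ≤ t ∧ ∀ r, r ≤ s → r ≤ t → r ≤ m := by
  classical
  have : WellFoundedLT Ω := Om1.wf
  -- the set of common lengths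
  by_cases h : ∃ x, x < s.len ∧ x < t.len ∧ s.val x ≠ t.val x
  · -- first difference
    let a := WellFounded.min (wellFounded_lt (α := Ω)) {x | x < s.len ∧ x < t.len ∧ s.val x ≠ t.val x} h
    have ha : a < s.len ∧ a < t.len ∧ s.val a ≠ t.val a :=
      WellFounded.min_mem (wellFounded_lt (α := Ω)) _ h
    have hmin : ∀ x, x < a → s.val x = t.val x := by
      intro x hx
      by_contra hne
      have : x ∈ {x | x < s.len ∧ x < t.len ∧ s.val x ≠ t.val x} := ⟨hx.trans ha.1, hx.trans ha.2.1, hne⟩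
      exact WellFounded.not_lt_min (wellFounded_lt (α := Ω)) _ this hx
    refine ⟨s.res a, s.res_le a, ?_, ?_⟩
    · refine ⟨?_, ?_⟩
      · simp [res, ha.2.1.le]
      · intro x hx
        have hx' : x < a := (lt_min_iff.1 hx).1
        simp [res, hx', hmin x hx']
    · intro r hrs hrt
      refine ⟨?_, ?_⟩
      · simp only [res, le_min_iff]
        refine ⟨?_, hrs.1⟩
        by_contra hlt
        push Not at hlt
        exact ha.2.2 ((hrs.2 a hlt).symm.trans (hrt.2 a hlt))
      · intro x hx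
        have hxa : x < a := by
          refine lt_of_lt_of_le hx ?_
          by_contra hlt
          push Not at hlt
          exact ha.2.2 ((hrs.2 a hlt).symm.trans (hrt.2 a hlt))
        simp [res, hxa, hrs.2 x hx]
  · push Not at h
    rcases le_total s.len t.len with hl | hl
    · exact ⟨s, le_rfl, ⟨hl, fun x hx => h x hx (hx.trans_le hl)⟩, fun r h1 _ => h1⟩
    · exact ⟨t, ⟨hl, fun x hx => (h x (hx.trans_le hl) hx).symm⟩, le_rfl, fun r _ h2 => h2⟩

theorem exists_succ [Om1 Ω] (a : Ω) : ∃ b, a < b ∧ ∀ x, x < b → x ≤ a := by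
  have : WellFoundedLT Ω := Om1.wf
  obtain ⟨b₀, hb₀⟩ := Om1.bdd (fun _ : ℕ => a)
  have hne : {b : Ω | a < b}.Nonempty := ⟨b₀, hb₀ 0⟩
  refine ⟨WellFounded.min (wellFounded_lt (α := Ω)) _ hne,
    WellFounded.min_mem (wellFounded_lt (α := Ω)) _ hne, ?_⟩
  intro x hx
  by_contra hlt
  push Not at hlt
  exact WellFounded.not_lt_min (wellFounded_lt (α := Ω)) _ (show x ∈ {b : Ω | a < b} from hlt) hx

theorem child [Om1 Ω] (t : Node Ω) : ∃ c : ℕ → Node Ω, (∀ i, t < c i) ∧
    (∀ i s, s ≤ c i → s ≤ t ∨ s = c i) ∧ (∀ i j v, c i ≤ v → c j ≤ v → i = j) := by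
  classical
  obtain ⟨b, hb, hb2⟩ := exists_succ t.len
  let c : ℕ → Node Ω := fun i =>
    { len := b
      val := Function.update t.val t.len i
      supp := by
        intro x hx
        have hne : x ≠ t.len := (hb.trans_le hx).ne'
        simp [Function.update_of_ne hne, t.supp x (hb.le.trans hx)] }
  have hle : ∀ i, t ≤ c i := fun i => ⟨hb.le, fun x hx => by simp [c, Function.update_of_ne hx.ne]⟩
  refine ⟨c, ?_, ?_, ?_⟩
  · intro i
    refine lt_of_le_of_ne (hle i) fun he => ?_
    have : t.len = b := congrArg Node.len he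
    exact hb.ne this
  · intro i s hs
    rcases eq_or_lt_of_le hs.1 with h | h
    · right
      refine le_antisymm hs ?_
      exact ⟨h.ge, fun x hx => (hs.2 x (h ▸ hx)).symm⟩
    · left
      exact le_of_len_le hs (hle i) (hb2 _ h)
  · intro i j v hi hj
    have h1 := hi.2 t.len hb
    have h2 := hj.2 t.len hb
    simp only [c, Function.update_self] at h1 h2
    omega

theorem lub [Om1 Ω] (t : ℕ → Node Ω) (ht : Monotone t) :
    ∃ L : Node Ω, (∀ n, t n ≤ L) ∧ ∀ s, s ≤ L → s = L ∨ ∃ n, s ≤ t n := by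
  classical
  have : WellFoundedLT Ω := Om1.wf
  obtain ⟨b₀, hb₀⟩ := Om1.bdd (fun n => (t n).len)
  have hne : {b : Ω | ∀ n, (t n).len ≤ b}.Nonempty := ⟨b₀, fun n => (hb₀ n).le⟩
  set b := WellFounded.min (wellFounded_lt (α := Ω)) _ hne with hbdef
  have hb : ∀ n, (t n).len ≤ b := WellFounded.min_mem (wellFounded_lt (α := Ω)) _ hne
  have hb2 : ∀ x, x < b → ∃ n, x < (t n).len := by
    intro x hx
    by_contra hcon
    push Not at hcon
    exact WellFounded.not_lt_min (wellFounded_lt (α := Ω)) _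
      (show x ∈ {b : Ω | ∀ n, (t n).len ≤ b} from hcon) hx
  let f : Ω → ℕ := fun x => if h : ∃ n, x < (t n).len then (t (Nat.find h)).val x else 0
  have hf : ∀ n x, x < (t n).len → f x = (t n).val x := by
    intro n x hx
    have h : ∃ n, x < (t n).len := ⟨n, hx⟩
    simp only [f, dif_pos h]
    rcases le_total (Nat.find h) n with h1 | h1
    · exact (ht h1).2 x (Nat.find_spec h)
    · exact ((ht h1).2 x hx).symm
  refine ⟨⟨b, f, ?_⟩, ?_, ?_⟩
  · intro x hx
    have h : ¬ ∃ n, x < (t n).len := by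
      push Not
      intro n
      exact (hb n).trans hx
    simp only [f, dif_neg h]
  · intro n
    exact ⟨hb n, fun x hx => (hf n x hx).symm⟩
  · intro s hs
    rcases eq_or_lt_of_le hs.1 with h | h
    · left
      refine le_antisymm hs ?_
      exact ⟨h.ge, fun x hx => (hs.2 x (h ▸ hx)).symm⟩
    · right
      obtain ⟨n, hn⟩ := hb2 _ h
      exact ⟨n, hn.le, fun x hx => (hs.2 x hx).trans (hf n x (hx.trans hn))⟩

instance [Om1 Ω] : BigTree (Node Ω) where
  chain := chain
  ctbl := ctbl
  wf := wf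
  meet := meet
  child := child
  lub := lub
  nonempty := by
    obtain ⟨b⟩ := Om1.nonempty (Ω := Ω)
    exact ⟨⟨b, fun _ => 0, fun _ _ => rfl⟩⟩

end Node
end node

/-- The first uncountable ordinal as a type. -/
abbrev Om : Type := (Cardinal.aleph 1 : Cardinal.{0}).ord.ToType

theorem om_countable_Iio (a : Om) : (Set.Iio a).Countable := by
  have h := Cardinal.mk_Iio_lt (α := Om) a (by simp)
  have h2 : Cardinal.mk (Set.Iio a) < Order.succ Cardinal.aleph0 := by
    rw [Cardinal.succ_aleph0]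
    simpa using h
  exact Cardinal.le_aleph0_iff_set_countable.1 (Order.lt_succ_iff.1 h2)

theorem om_countable_Iic (a : Om) : (Set.Iic a).Countable := by
  have h : Set.Iic a = insert a (Set.Iio a) := by
    ext x; simp [le_iff_eq_or_lt]
  rw [h]
  exact (om_countable_Iio a).insert a

theorem om_uncountable : ¬ (Set.univ : Set Om).Countable := by
  intro h
  have h1 := Cardinal.le_aleph0_iff_set_countable.2 h
  rw [Cardinal.mk_univ] at h1
  have h2 : Cardinal.mk Om = Order.succ Cardinal.aleph0 := by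
    rw [Cardinal.succ_aleph0]
    simp
  rw [h2] at h1
  exact absurd h1 (not_le.2 (Order.lt_succ _))

theorem om_bdd (f : ℕ → Om) : ∃ b, ∀ n, f n < b := by
  by_contra hcon
  push Not at hcon
  apply om_uncountable
  have : (Set.univ : Set Om) ⊆ ⋃ n, Set.Iic (f n) := by
    intro b _
    obtain ⟨n, hn⟩ := hcon b
    exact Set.mem_iUnion.2 ⟨n, hn⟩
  exact (Set.countable_iUnion fun n => om_countable_Iic (f n)).mono this

instance : Om1 Om where
  wf := inferInstance
  ctbl := om_countable_Iic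
  bdd := om_bdd
  nonempty := by
    by_contra h
    apply om_uncountable
    rw [not_nonempty_iff] at h
    exact Set.countable_univ

/-- The tree used: all sequences of naturals of countable length. -/
abbrev Tr : Type := Node Om

end Pool.Agent.Helper30.Haydon
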