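import Pool.Agent.Helper1.SD.Defs2

/-!
Product of a good cone with a half-line (module SD-4 of MP_437a0d_co).
-/

set_option autoImplicit false

namespace Pool.Agent.Helper1.SD

open Matrix

/-! ### Closure properties of finitely generated cones -/

theorem sd4_zero_mem {N : ℕ} (G : Set (Fin N → ℝ)) : 0 ∈ coneOf G :=
  ⟨∅, fun _ => 0, by simp, by simp, by simp⟩

theorem sd4_subset {N : ℕ} (G : Set (Fin N → ℝ)) : G ⊆ coneOf G := fun v hv =>
  ⟨{v}, fun _ => 1, by simpa using hv, by simp, by simp⟩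

theorem sd4_add_mem {N : ℕ} {G : Set (Fin N → ℝ)} {x y : Fin N → ℝ} (hx : x ∈ coneOf G)
    (hy : y ∈ coneOf G) : x + y ∈ coneOf G := by
  classical
  obtain ⟨t, c, ht, hc, rfl⟩ := hx
  obtain ⟨t', c', ht', hc', rfl⟩ := hy
  refine ⟨t ∪ t', fun v => (if v ∈ t then c v else 0) + (if v ∈ t' then c' v else 0), ?_, ?_, ?_⟩
  · intro v hv
    rcases Finset.mem_union.1 hv with h | h
    · exact ht v h
    · exact ht' v h
  · intro v _
    refine add_nonneg ?_ ?_
    · split_ifs with h
      · exact hc v h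
      · exact le_rfl
    · split_ifs with h
      · exact hc' v h
      · exact le_rfl
  · simp only [add_smul, Finset.sum_add_distrib, ite_smul, zero_smul]
    congr 1
    · rw [← Finset.sum_filter, Finset.filter_mem_eq_inter,
        Finset.inter_eq_right.2 Finset.subset_union_left]
    · rw [← Finset.sum_filter, Finset.filter_mem_eq_inter,
        Finset.inter_eq_right.2 Finset.subset_union_right]

theorem sd4_smul_mem {N : ℕ} {G : Set (Fin N → ℝ)} {x : Fin N → ℝ} {c : ℝ} (hc : 0 ≤ c)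
    (hx : x ∈ coneOf G) : c • x ∈ coneOf G := by
  obtain ⟨t, d, ht, hd, rfl⟩ := hx
  refine ⟨t, fun v => c * d v, ht, fun v hv => mul_nonneg hc (hd v hv), ?_⟩
  rw [Finset.smul_sum]
  exact Finset.sum_congr rfl fun v _ => (mul_smul _ _ _).symm

theorem sd4_coneOf_subset {N : ℕ} {G X : Set (Fin N → ℝ)} (hG : G ⊆ X) (h0 : 0 ∈ X)
    (hadd : ∀ x ∈ X, ∀ y ∈ X, x + y ∈ X) (hsmul : ∀ c : ℝ, 0 ≤ c → ∀ x ∈ X, c • x ∈ X) :
    coneOf G ⊆ X := by
  classical
  rintro _ ⟨t, c, ht, hc, rfl⟩
  induction t using Finset.induction_on with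
  | empty => simpa using h0
  | insert a s ha ih =>
    rw [Finset.sum_insert ha]
    refine hadd _ (hsmul _ (hc a (Finset.mem_insert_self a s)) _
      (hG (ht a (Finset.mem_insert_self a s)))) _ (ih ?_ ?_)
    · exact fun v hv => ht v (Finset.mem_insert_of_mem hv)
    · exact fun v hv => hc v (Finset.mem_insert_of_mem hv)

theorem sd4_mono {N : ℕ} {G H : Set (Fin N → ℝ)} (h : G ⊆ H) : coneOf G ⊆ coneOf H := by
  rintro _ ⟨t, c, ht, hc, rfl⟩
  exact ⟨t, c, fun v hv => h (ht v hv), hc, rfl⟩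

/-! ### The embedding `x ↦ (x, 0)` -/

/-- `x ↦ (x, 0)` -/
def sd4_up (N : ℕ) : (Fin N → ℝ) →ₗ[ℝ] (Fin (N + 1) → ℝ) where
  toFun x := Fin.snoc (α := fun _ => ℝ) x 0
  map_add' x y := by
    funext i
    refine Fin.lastCases ?_ (fun i => ?_) i <;> simp
  map_smul' c x := by
    funext i
    refine Fin.lastCases ?_ (fun i => ?_) i <;> simp

@[simp] theorem sd4_up_last {N : ℕ} (x : Fin N → ℝ) : sd4_up N x (Fin.last N) = 0 := by
  simp [sd4_up]

@[simp] theorem sd4_up_castSucc {N : ℕ} (x : Fin N → ℝ) (i : Fin N) :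
    sd4_up N x i.castSucc = x i := by
  simp [sd4_up]

theorem sd4_up_injective (N : ℕ) : Function.Injective (sd4_up N) := by
  intro x y h
  funext i
  have := congrFun h i.castSucc
  simpa using this

/-- the last unit vector -/
def sd4_e (N : ℕ) : Fin (N + 1) → ℝ := Fin.snoc (α := fun _ => ℝ) 0 1

@[simp] theorem sd4_e_last {N : ℕ} : sd4_e N (Fin.last N) = 1 := by
  simp [sd4_e]

@[simp] theorem sd4_e_castSucc {N : ℕ} (i : Fin N) : sd4_e N i.castSucc = 0 := by
  simp [sd4_e]

/-- the projection -/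
def sd4_pr {N : ℕ} (x : Fin (N + 1) → ℝ) : Fin N → ℝ := fun i => x i.castSucc

@[simp] theorem sd4_pr_up {N : ℕ} (x : Fin N → ℝ) : sd4_pr (sd4_up N x) = x := by
  funext i
  simp [sd4_pr]

@[simp] theorem sd4_pr_e {N : ℕ} : sd4_pr (sd4_e N) = 0 := by
  funext i
  simp [sd4_pr]

theorem sd4_pr_add {N : ℕ} (x y : Fin (N + 1) → ℝ) : sd4_pr (x + y) = sd4_pr x + sd4_pr y := rfl

theorem sd4_pr_smul {N : ℕ} (c : ℝ) (x : Fin (N + 1) → ℝ) : sd4_pr (c • x) = c • sd4_pr x := rfl

theorem sd4_decomp {N : ℕ} (x : Fin (N + 1) → ℝ) :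
    x = sd4_up N (sd4_pr x) + x (Fin.last N) • sd4_e N := by
  funext i
  refine Fin.lastCases ?_ (fun i => ?_) i
  · simp
  · simp [sd4_pr]

theorem sd4_dot {N : ℕ} (x y : Fin (N + 1) → ℝ) :
    x ⬝ᵥ y = sd4_pr x ⬝ᵥ sd4_pr y + x (Fin.last N) * y (Fin.last N) := by
  simp only [dotProduct, sd4_pr]
  rw [Fin.sum_univ_castSucc]

/-- `K × ℝ_+` -/
def sd4_prod {N : ℕ} (K : Set (Fin N → ℝ)) : Set (Fin (N + 1) → ℝ) :=
  {x | sd4_pr x ∈ K ∧ 0 ≤ x (Fin.last N)}

theorem sd4_coneOf_up {N : ℕ} (G : Set (Fin N → ℝ)) :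
    coneOf (sd4_up N '' G) = sd4_up N '' coneOf G := by
  apply Set.Subset.antisymm
  · refine sd4_coneOf_subset (Set.image_mono (sd4_subset G)) ⟨0, sd4_zero_mem G, map_zero _⟩ ?_ ?_
    · rintro _ ⟨x, hx, rfl⟩ _ ⟨y, hy, rfl⟩
      exact ⟨x + y, sd4_add_mem hx hy, map_add _ _ _⟩
    · rintro c hc _ ⟨x, hx, rfl⟩
      exact ⟨c • x, sd4_smul_mem hc hx, map_smul _ _ _⟩
  · rintro _ ⟨x, hx, rfl⟩
    have : coneOf G ⊆ {x | sd4_up N x ∈ coneOf (sd4_up N '' G)} := by
      refine sd4_coneOf_subset ?_ ?_ ?_ ?_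
      · exact fun v hv => sd4_subset _ ⟨v, hv, rfl⟩
      · change sd4_up N 0 ∈ coneOf (sd4_up N '' G)
        rw [map_zero]
        exact sd4_zero_mem _
      · intro x hx y hy
        change sd4_up N (x + y) ∈ coneOf (sd4_up N '' G)
        rw [map_add]
        exact sd4_add_mem hx hy
      · intro c hc x hx
        change sd4_up N (c • x) ∈ coneOf (sd4_up N '' G)
        rw [map_smul]
        exact sd4_smul_mem hc hx
    exact this hx

theorem sd4_coneOf_prod {N : ℕ} (G : Set (Fin N → ℝ)) :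
    coneOf (sd4_up N '' G ∪ {sd4_e N}) = sd4_prod (coneOf G) := by
  apply Set.Subset.antisymm
  · refine sd4_coneOf_subset ?_ ?_ ?_ ?_
    · rintro _ (⟨x, hx, rfl⟩ | rfl)
      · refine ⟨?_, by simp⟩
        rw [sd4_pr_up]
        exact sd4_subset G hx
      · refine ⟨?_, by simp⟩
        rw [sd4_pr_e]
        exact sd4_zero_mem G
    · exact ⟨sd4_zero_mem G, le_rfl⟩
    · intro x hx y hy
      exact ⟨by rw [sd4_pr_add]; exact sd4_add_mem hx.1 hy.1, add_nonneg hx.2 hy.2⟩
    · intro c hc x hx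
      exact ⟨by rw [sd4_pr_smul]; exact sd4_smul_mem hc hx.1, mul_nonneg hc hx.2⟩
  · rintro x ⟨hx, hx0⟩
    rw [sd4_decomp x]
    refine sd4_add_mem ?_ (sd4_smul_mem hx0 (sd4_subset _ (Or.inr rfl)))
    refine sd4_mono Set.subset_union_left ?_
    rw [sd4_coneOf_up]
    exact ⟨_, hx, rfl⟩

theorem sd4_finrank_up {N : ℕ} (P : Set (Fin N → ℝ)) :
    Module.finrank ℝ (Submodule.span ℝ (sd4_up N '' P)) =
      Module.finrank ℝ (Submodule.span ℝ P) := by
  rw [← Submodule.map_span]
  exact (Submodule.equivMapOfInjective _ (sd4_up_injective N) _).finrank_eq.symm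

/-- SD-4 -/
theorem goodCone_prod {k N : ℕ} {K : Set (Fin N → ℝ)} (hK : GoodCone k K) :
    GoodCone k {x : Fin (N + 1) → ℝ |
      (fun i : Fin N => x i.castSucc) ∈ K ∧ 0 ≤ x (Fin.last N)} := by
  change GoodCone k (sd4_prod K)
  have hpair : ∀ x ∈ K, ∀ y ∈ K, 0 ≤ x ⬝ᵥ y := by
    intro x hx y hy
    rw [← hK.selfdual] at hx
    exact hx y hy
  have hzero : (0 : Fin N → ℝ) ∈ K := by
    rw [← hK.selfdual]
    intro g _
    simp
  have hup : ∀ x ∈ K, sd4_up N x ∈ sd4_prod K := fun x hx =>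
    ⟨by rw [sd4_pr_up]; exact hx, by simp⟩
  have he : sd4_e N ∈ sd4_prod K := ⟨by rw [sd4_pr_e]; exact hzero, by simp⟩
  refine ⟨?_, ?_, ?_, ?_⟩
  · -- selfdual
    apply Set.Subset.antisymm
    · intro x hx
      refine ⟨?_, ?_⟩
      · rw [← hK.selfdual]
        intro y hy
        have := hx _ (hup y hy)
        rw [sd4_dot] at this
        simpa using this
      · have := hx _ he
        rw [sd4_dot] at this
        simpa using this
    · intro x hx y hy
      rw [sd4_dot]
      exact add_nonneg (hpair _ hx.1 _ hy.1) (mul_nonneg hx.2 hy.2)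
  · -- finitely generated
    obtain ⟨G, hG, hKG⟩ := hK.fg
    refine ⟨sd4_up N '' G ∪ {sd4_e N}, (hG.image _).union (Set.finite_singleton _), ?_⟩
    rw [sd4_coneOf_prod, ← hKG]
  · -- faces
    intro g hg
    have hs := hg.2
    rcases hs.eq_or_lt with hs0 | hs0
    · -- last coordinate zero
      have hface : perpIn (sd4_prod K) g = sd4_prod (perpIn K (sd4_pr g)) := by
        ext x
        simp only [perpIn, sd4_prod, Set.mem_ofPred_eq, sd4_dot g x, ← hs0]
        constructor
        · rintro ⟨⟨h1, h2⟩, h3⟩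
          exact ⟨⟨h1, by linarith⟩, h2⟩
        · rintro ⟨⟨h1, h3⟩, h2⟩
          exact ⟨⟨h1, h2⟩, by linarith⟩
      rw [hface]
      rcases hK.ks _ hg.1 with ⟨m, b, hb, hbF⟩ | hrank
      · left
        refine ⟨m + 1, Fin.snoc (α := fun _ => Fin (N + 1) → ℝ) (fun i => sd4_up N (b i))
          (sd4_e N), ?_, ?_⟩
        · rw [linearIndependent_finSnoc]
          refine ⟨hb.map' _ (LinearMap.ker_eq_bot.2 (sd4_up_injective N)), ?_⟩
          intro hmem
          have : Submodule.span ℝ (Set.range fun i => sd4_up N (b i)) ≤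
              LinearMap.ker (LinearMap.proj (R := ℝ) (φ := fun _ => ℝ) (Fin.last N)) := by
            rw [Submodule.span_le]
            rintro _ ⟨i, rfl⟩
            simp
          have h1 := this hmem
          simp at h1
        · rw [Fin.range_snoc, hbF, ← sd4_coneOf_prod]
          congr 1
          rw [Set.union_comm, ← Set.insert_eq, ← Set.range_comp]
          rfl
      · right
        refine (hrank.trans (sd4_finrank_up _).ge).trans ?_
        refine Submodule.finrank_mono (Submodule.span_mono ?_)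
        rintro _ ⟨x, hx, rfl⟩
        exact ⟨by rw [sd4_pr_up]; exact hx, by simp⟩
    · -- last coordinate positive
      have hface : perpIn (sd4_prod K) g = sd4_up N '' (perpIn K (sd4_pr g)) := by
        ext x
        simp only [perpIn, sd4_prod, Set.mem_ofPred_eq, sd4_dot g x, Set.mem_image]
        constructor
        · rintro ⟨⟨h1, h2⟩, h3⟩
          have h4 := hpair _ hg.1 _ h1
          have h5 : 0 ≤ g (Fin.last N) * x (Fin.last N) := mul_nonneg hs h2
          have h6 : g (Fin.last N) * x (Fin.last N) = 0 := by linarith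
          have h7 : x (Fin.last N) = 0 := by
            rcases mul_eq_zero.1 h6 with h | h
            · exact absurd h hs0.ne'
            · exact h
          refine ⟨sd4_pr x, ⟨h1, by linarith⟩, ?_⟩
          conv_rhs => rw [sd4_decomp x, h7, zero_smul, add_zero]
        · rintro ⟨y, ⟨h1, h2⟩, rfl⟩
          exact ⟨⟨by rw [sd4_pr_up]; exact h1, by simp⟩, by rw [sd4_pr_up]; simpa using h2⟩
      rw [hface]
      rcases hK.ks _ hg.1 with ⟨m, b, hb, hbF⟩ | hrank
      · left
        refine ⟨m, fun i => sd4_up N (b i),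
          hb.map' _ (LinearMap.ker_eq_bot.2 (sd4_up_injective N)), ?_⟩
        rw [hbF, ← sd4_coneOf_up, ← Set.range_comp]
        rfl
      · right
        exact hrank.trans (sd4_finrank_up _).ge
  · -- witness
    obtain ⟨a, ha, r, hr, y, hy, hw, har, hay, hry⟩ := hK.witness
    refine ⟨sd4_up N a, hup a ha, sd4_up N r, hup r hr, sd4_up N y, hup y hy, ?_, ?_, ?_, ?_⟩
    · intro w hwK hwz
      have h1 : w (Fin.last N) = 0 := by
        have := hwz _ he (by rw [sd4_dot]; simp)
        rw [sd4_dot] at this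
        simpa using this
      obtain ⟨t, ht⟩ := hw (sd4_pr w) hwK.1 (by
        intro z hz hza
        have := hwz _ (hup z hz) (by rw [sd4_dot]; simpa using hza)
        rw [sd4_dot] at this
        simpa using this)
      refine ⟨t, ?_⟩
      rw [sd4_decomp w, h1, zero_smul, add_zero, ht, map_smul]
    · rw [sd4_dot]; simpa using har
    · rw [sd4_dot]; simpa using hay
    · rw [sd4_dot]; simpa using hry

end Pool.Agent.Helper1.SD
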